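import Pool.Agent.Run7.h403.Den
import Pool.Agent.Y353.PS.Fin

/-!
# Fermat-Catalan: counting in dyadic boxes
-/

set_option autoImplicit false

namespace Run7.h403.FC

open MeasureTheory Filter Set Topology
open Pool.Agent.Y353.PS
open Run7.h403.Met

theorem box_log : ∀ T : ℕ, ∃ (C : ℝ) (j₀ : ℕ), ∀ j : ℕ, j₀ ≤ j →
      ((({p : ℕ × ℕ | (0 < p.1 ∧ p.1 ≤ T * 2 ^ j) ∧ (0 < p.2 ∧ p.2 ≤ T * 2 ^ j) ∧
        p ∈ {p : ℕ × ℕ | Nat.Coprime p.1 p.2 ∧ SolP p.1 p.2}}).ncard : ℕ) : ℝ) ≤ C * (4 ^ j / (j : ℝ) ^ 2) := by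
  intro T
  obtain ⟨c, hc, h⟩ := pairs_all
  obtain ⟨N₀, h2⟩ := h 2
  refine ⟨c * (T + 1) ^ 2 / Real.log 2 ^ 2, N₀ + (T + 1) + 1, fun j hj => ?_⟩
  have h2j : j < 2 ^ j := Nat.lt_two_pow_self
  have hX : 2 ^ j ≤ (T + 1) * 2 ^ j := Nat.le_mul_of_pos_left _ (by omega)
  have hX2 : 0 + (T + 1) * 2 ^ j ≤ (2 ^ j) ^ 2 := by
    rw [zero_add, sq]
    exact Nat.mul_le_mul_right _ (by omega)
  have h3 := h2 (2 ^ j) (by omega) ((T + 1) * 2 ^ j) ((T + 1) * 2 ^ j) 0 0 hX hX hX2 hX2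
  have hsub : {p : ℕ × ℕ | (0 < p.1 ∧ p.1 ≤ T * 2 ^ j) ∧ (0 < p.2 ∧ p.2 ≤ T * 2 ^ j) ∧
        p ∈ {p : ℕ × ℕ | Nat.Coprime p.1 p.2 ∧ SolP p.1 p.2}} ⊆
      {p : ℕ × ℕ | (0 < p.1 ∧ p.1 ≤ 0 + (T + 1) * 2 ^ j) ∧ (0 < p.2 ∧ p.2 ≤ 0 + (T + 1) * 2 ^ j) ∧
        Nat.Coprime p.1 p.2 ∧ SolP p.1 p.2} := by
    rintro p ⟨⟨a1, a2⟩, ⟨b1, b2⟩, c1, c2⟩
    have h4 : T * 2 ^ j ≤ 0 + (T + 1) * 2 ^ j := by
      rw [zero_add]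
      exact Nat.mul_le_mul_right _ (by omega)
    exact ⟨⟨a1, a2.trans h4⟩, ⟨b1, b2.trans h4⟩, c1, c2⟩
  have hfin : {p : ℕ × ℕ | (0 < p.1 ∧ p.1 ≤ 0 + (T + 1) * 2 ^ j) ∧ (0 < p.2 ∧ p.2 ≤ 0 + (T + 1) * 2 ^ j) ∧
        Nat.Coprime p.1 p.2 ∧ SolP p.1 p.2}.Finite := by
    apply ((Set.finite_Icc 0 (0 + (T + 1) * 2 ^ j)).prod (Set.finite_Icc 0 (0 + (T + 1) * 2 ^ j))).subset
    rintro ⟨p, q⟩ ⟨⟨h1, h2⟩, ⟨h3, h4⟩, -⟩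
    exact ⟨⟨Nat.zero_le _, h2⟩, ⟨Nat.zero_le _, h4⟩⟩
  have h5 : ((({p : ℕ × ℕ | (0 < p.1 ∧ p.1 ≤ T * 2 ^ j) ∧ (0 < p.2 ∧ p.2 ≤ T * 2 ^ j) ∧
        p ∈ {p : ℕ × ℕ | Nat.Coprime p.1 p.2 ∧ SolP p.1 p.2}}).ncard : ℕ) : ℝ) ≤ _ :=
    Nat.cast_le.2 (Set.ncard_le_ncard hsub hfin)
  refine (h5.trans h3).trans (le_of_eq ?_)
  have hj0 : (j : ℝ) ≠ 0 := by
    have : j ≠ 0 := by omega
    exact_mod_cast this
  have hl : Real.log 2 ≠ 0 := (Real.log_pos (by norm_num)).ne'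
  push_cast
  rw [Real.log_pow]
  have h4 : (4 : ℝ) ^ j = 2 ^ j * 2 ^ j := by rw [← mul_pow]; norm_num
  rw [h4]
  field_simp

/-- the pairs of bases of a solution with a small prime factor of `AB`, or with one exponent not too large -/
def Sm (K j : ℕ) : Set (ℕ × ℕ) :=
  {p | Nat.Coprime p.1 p.2 ∧
    ∃ x y z C : ℕ, 0 < x ∧ 0 < y ∧ 2 ≤ z ∧ 0 < C ∧
      (p.1 ^ x + p.2 ^ y = C ^ z ∨ p.1 ^ x + C ^ z = p.2 ^ y ∨ p.2 ^ y + C ^ z = p.1 ^ x) ∧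
      ((∃ r : ℕ, r.Prime ∧ (r : ℝ) ≤ (((2 ^ j : ℕ) : ℝ)) ^ (1 / 40 : ℝ) ∧ r ∣ p.1 * p.2) ∨
        ((min x y : ℕ) : ℝ) ≤ Real.exp (Real.log ((2 ^ j : ℕ) : ℝ) ^ K))}

theorem box_pow : ∃ η : ℝ, 0 < η ∧ η ≤ 1 ∧ ∀ K T : ℕ, ∃ (C : ℝ) (j₀ : ℕ), ∀ j : ℕ, j₀ ≤ j →
      ((({p : ℕ × ℕ | (0 < p.1 ∧ p.1 ≤ T * 2 ^ j) ∧ (0 < p.2 ∧ p.2 ≤ T * 2 ^ j) ∧ p ∈ Sm K j}).ncard : ℕ) : ℝ) ≤
        C * ((2 : ℝ) ^ j) ^ (2 - η) := by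
  obtain ⟨δ, hδ, h⟩ := pairs_min
  refine ⟨min δ 1, lt_min hδ one_pos, min_le_right _ _, fun K T => ?_⟩
  obtain ⟨N₀, h2⟩ := h (K + 2)
  refine ⟨(T + 1) ^ 2, N₀ + (T + 1) + 2, fun j hj => ?_⟩
  have h2j : j < 2 ^ j := Nat.lt_two_pow_self
  have hX : 2 ^ j ≤ (T + 1) * 2 ^ j := Nat.le_mul_of_pos_left _ (by omega)
  have hX2 : 0 + (T + 1) * 2 ^ j ≤ (2 ^ j) ^ (K + 2) := by
    rw [zero_add, pow_add, sq, mul_comm ((2 ^ j) ^ K)]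
    have h1 : 1 ≤ (2 ^ j) ^ K := Nat.one_le_pow _ _ (by omega)
    calc (T + 1) * 2 ^ j ≤ 2 ^ j * 2 ^ j := Nat.mul_le_mul_right _ (by omega)
      _ = 2 ^ j * 2 ^ j * 1 := (mul_one _).symm
      _ ≤ 2 ^ j * 2 ^ j * (2 ^ j) ^ K := Nat.mul_le_mul_left _ h1
  have h3 := h2 (2 ^ j) (by omega) ((T + 1) * 2 ^ j) ((T + 1) * 2 ^ j) 0 0 hX hX hX2 hX2
  have hlog : 1 ≤ Real.log ((2 ^ j : ℕ) : ℝ) := by
    have e1 : (4 : ℝ) ≤ ((2 ^ j : ℕ) : ℝ) := by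
      have : 2 ^ 2 ≤ 2 ^ j := Nat.pow_le_pow_right (by norm_num) (by omega)
      exact_mod_cast this
    have e2 : Real.exp 1 ≤ 4 := by
      have := Real.exp_one_lt_d9
      linarith
    rw [Real.le_log_iff_exp_le (by linarith)]
    linarith
  have hsub : {p : ℕ × ℕ | (0 < p.1 ∧ p.1 ≤ T * 2 ^ j) ∧ (0 < p.2 ∧ p.2 ≤ T * 2 ^ j) ∧ p ∈ Sm K j} ⊆
      PairMin (2 ^ j) (K + 2) ((T + 1) * 2 ^ j) ((T + 1) * 2 ^ j) 0 0 := by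
    rintro p ⟨⟨a1, a2⟩, ⟨b1, b2⟩, c1, x, y, z, C, d1, d2, d3, d4, d5, d6⟩
    have h4 : T * 2 ^ j ≤ 0 + (T + 1) * 2 ^ j := by
      rw [zero_add]
      exact Nat.mul_le_mul_right _ (by omega)
    refine ⟨⟨a1, a2.trans h4⟩, ⟨b1, b2.trans h4⟩, c1, x, y, z, C, d1, d2, d3, d4, d5, ?_⟩
    rcases d6 with h | h
    · exact Or.inl h
    · right
      refine h.trans (Real.exp_le_exp.2 ?_)
      exact pow_le_pow_right₀ hlog (by omega)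
  have hfin : (PairMin (2 ^ j) (K + 2) ((T + 1) * 2 ^ j) ((T + 1) * 2 ^ j) 0 0).Finite := by
    apply ((Set.finite_Icc 0 (0 + (T + 1) * 2 ^ j)).prod (Set.finite_Icc 0 (0 + (T + 1) * 2 ^ j))).subset
    rintro ⟨p, q⟩ ⟨⟨h1, h2⟩, ⟨h3, h4⟩, -⟩
    exact ⟨⟨Nat.zero_le _, h2⟩, ⟨Nat.zero_le _, h4⟩⟩
  have h5 : ((({p : ℕ × ℕ | (0 < p.1 ∧ p.1 ≤ T * 2 ^ j) ∧ (0 < p.2 ∧ p.2 ≤ T * 2 ^ j) ∧ p ∈ Sm K j}).ncard : ℕ) : ℝ) ≤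
      (((PairMin (2 ^ j) (K + 2) ((T + 1) * 2 ^ j) ((T + 1) * 2 ^ j) 0 0).ncard : ℕ) : ℝ) :=
    Nat.cast_le.2 (Set.ncard_le_ncard hsub hfin)
  refine (h5.trans h3).trans ?_
  have h1 : (1 : ℝ) ≤ 2 ^ j := one_le_pow₀ (by norm_num)
  have h6 : ((2 : ℝ) ^ j) ^ (-δ) ≤ ((2 : ℝ) ^ j) ^ (-(min δ 1)) :=
    Real.rpow_le_rpow_of_exponent_le h1 (by linarith [min_le_left δ 1])
  have h7 : ((2 : ℝ) ^ j) ^ (2 - min δ 1) = ((2 : ℝ) ^ j) ^ (-(min δ 1)) * (2 ^ j) ^ 2 := by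
    rw [show (2 : ℝ) - min δ 1 = -(min δ 1) + 2 by ring, Real.rpow_add (by positivity)]
    norm_num
  push_cast
  rw [h7]
  calc ((2 : ℝ) ^ j) ^ (-δ) * ((T + 1) * 2 ^ j * ((T + 1) * 2 ^ j))
      ≤ ((2 : ℝ) ^ j) ^ (-(min δ 1)) * ((T + 1) * 2 ^ j * ((T + 1) * 2 ^ j)) := by gcongr
    _ = (T + 1) ^ 2 * (((2 : ℝ) ^ j) ^ (-(min δ 1)) * (2 ^ j) ^ 2) := by ring

/-- thresholds in terms of the denominator and in terms of the block -/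
theorem thresholds (K : ℕ) : ∃ j₀ : ℕ, ∀ j : ℕ, j₀ ≤ j → ∀ q : ℕ, 2 ^ j < q → q ≤ 2 ^ (j + 1) →
    (q : ℝ) ^ (1 / 41 : ℝ) ≤ (((2 ^ j : ℕ) : ℝ)) ^ (1 / 40 : ℝ) ∧
    Real.log q ^ K ≤ Real.log ((2 ^ j : ℕ) : ℝ) ^ (K + 1) := by
  refine ⟨40 + 2 ^ (K + 1), fun j hj q hq1 hq2 => ?_⟩
  have hq : (q : ℝ) ≤ 2 ^ (j + 1) := by exact_mod_cast hq2
  have hq0 : (0 : ℝ) < q := by
    have : 0 < q := by omega
    exact_mod_cast this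
  constructor
  · calc (q : ℝ) ^ (1 / 41 : ℝ) ≤ ((2 : ℝ) ^ (j + 1)) ^ (1 / 41 : ℝ) := by gcongr
      _ = (2 : ℝ) ^ (((j : ℝ) + 1) / 41) := by
          rw [← Real.rpow_natCast, ← Real.rpow_mul (by norm_num)]
          push_cast
          congr 1
          ring
      _ ≤ (2 : ℝ) ^ ((j : ℝ) / 40) := by
          apply Real.rpow_le_rpow_of_exponent_le (by norm_num)
          have : (40 : ℝ) ≤ j := by exact_mod_cast (le_trans (Nat.le_add_right _ _) hj : 40 ≤ j)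
          linarith
      _ = _ := by
          push_cast
          rw [← Real.rpow_natCast, ← Real.rpow_mul (by norm_num)]
          congr 1
          ring
  · have h2 : (1 / 2 : ℝ) ≤ Real.log 2 := by
      have := Real.log_two_gt_d9
      linarith
    have hj1 : (2 : ℝ) ^ (K + 1) ≤ j := by exact_mod_cast (le_trans (Nat.le_add_left _ _) hj : 2 ^ (K + 1) ≤ j)
    have h1 : Real.log q ≤ 2 * (j * Real.log 2) := by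
      have := Real.log_le_log hq0 hq
      rw [Real.log_pow] at this
      push_cast at this
      have hj2 : (1 : ℝ) ≤ j := by exact_mod_cast (le_trans (by norm_num) (le_trans (Nat.le_add_right _ _) hj : 40 ≤ j) : 1 ≤ j)
      nlinarith
    have hlq : 0 ≤ Real.log q := Real.log_natCast_nonneg q
    push_cast
    rw [Real.log_pow]
    calc Real.log q ^ K ≤ (2 * (j * Real.log 2)) ^ K := by gcongr
      _ = 2 ^ K * (j * Real.log 2) ^ K := mul_pow _ _ _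
      _ ≤ (j * Real.log 2) * (j * Real.log 2) ^ K := by
          gcongr
          have h3 : (2 : ℝ) ^ (K + 1) = 2 * 2 ^ K := by ring
          rw [h3] at hj1
          have h4 : (0 : ℝ) < 2 ^ K := by positivity
          nlinarith
      _ = (j * Real.log 2) ^ (K + 1) := by ring

end Run7.h403.FC
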