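import Mathlib

/-!
# Congruences for powers in a commutative ring
-/

set_option autoImplicit false

namespace Run7.h403

section Ring

variable {R : Type*} [CommRing R]

/-- `(y + h) ^ p = y ^ p + p y ^ (p - 1) h + p h ^ 2 c + h ^ p` -/
lemma add_pow_prime_expand {p : ℕ} (hp : p.Prime) (y h : R) :
    ∃ c : R, (y + h) ^ p = y ^ p + p * y ^ (p - 1) * h + p * h ^ 2 * c + h ^ p := by
  have h1 := add_pow_prime_eq hp y h
  set S := ∑ k ∈ Finset.Ioo 0 p, y ^ (k - 1) * h ^ (p - k - 1) * ((p.choose k / p : ℕ) : R) with hS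
  have hp2 := hp.two_le
  have hdec : ∃ c : R, S = y ^ (p - 2) + h * c := by
    have hmem : p - 1 ∈ Finset.Ioo 0 p := by
      rw [Finset.mem_Ioo]; omega
    rw [hS, ← Finset.add_sum_erase _ _ hmem]
    have e1 : y ^ (p - 1 - 1) * h ^ (p - (p - 1) - 1) * ((p.choose (p - 1) / p : ℕ) : R)
        = y ^ (p - 2) := by
      have : p - (p - 1) - 1 = 0 := by omega
      rw [this, pow_zero]
      have h2 : p.choose (p - 1) = p := by
        have := Nat.choose_symm (n := p) (k := 1) (by omega)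
        rw [this, Nat.choose_one_right]
      rw [h2, Nat.div_self hp.pos, Nat.cast_one, mul_one, mul_one]
      rfl
    rw [e1]
    have e2 : h ∣ ∑ k ∈ (Finset.Ioo 0 p).erase (p - 1),
        y ^ (k - 1) * h ^ (p - k - 1) * ((p.choose k / p : ℕ) : R) := by
      apply Finset.dvd_sum
      intro k hk
      rw [Finset.mem_erase, Finset.mem_Ioo] at hk
      apply Dvd.dvd.mul_right
      apply Dvd.dvd.mul_left
      exact dvd_pow_self _ (by omega)
    obtain ⟨c, hc⟩ := e2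
    exact ⟨c, by rw [hc]⟩
  obtain ⟨c, hc⟩ := hdec
  refine ⟨y * c, ?_⟩
  have h3 : y ^ (p - 1) = y ^ (p - 2) * y := by
    rw [← pow_succ]; congr 1; omega
  rw [h1, hc, h3]; ring

/-- the lifting step for `p`-th roots -/
lemma root_step {p : ℕ} (hp : p.Prime) (hp2 : p ≠ 2) (n : ℕ) (u y : R) (h1 : (p : R) ∣ y - 1)
    (h2 : (p : R) ^ (n + 2) ∣ u - y ^ p) :
    ∃ y' : R, (p : R) ^ (n + 1) ∣ y' - y ∧ (p : R) ∣ y' - 1 ∧
      (p : R) ^ (n + 3) ∣ u - y' ^ p := by
  obtain ⟨r, hr⟩ := h2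
  have hp3 : 3 ≤ p := by
    have := hp.two_le
    omega
  refine ⟨y + (p : R) ^ (n + 1) * r, ?_, ?_, ?_⟩
  · exact ⟨r, by ring⟩
  · have : y + (p : R) ^ (n + 1) * r - 1 = (y - 1) + (p : R) * ((p : R) ^ n * r) := by ring
    rw [this]
    exact dvd_add h1 (dvd_mul_right _ _)
  · obtain ⟨c, hc⟩ := add_pow_prime_expand hp y ((p : R) ^ (n + 1) * r)
    rw [hc]
    have hy : (p : R) ∣ y ^ (p - 1) - 1 := by
      have := sub_dvd_pow_sub_pow y 1 (p - 1)
      rw [one_pow] at this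
      exact h1.trans this
    obtain ⟨s, hs⟩ := hy
    have hh : (p : R) ^ (n + 3) ∣ ((p : R) ^ (n + 1) * r) ^ p := by
      rw [mul_pow, ← pow_mul]
      apply Dvd.dvd.mul_right
      apply pow_dvd_pow
      nlinarith
    obtain ⟨q, hq⟩ := hh
    refine ⟨-(s * r) - (p : R) ^ n * r ^ 2 * c - q, ?_⟩
    rw [hq]
    have e3 : y ^ (p - 1) = 1 + p * s := by rw [← hs]; ring
    rw [e3]
    linear_combination hr

/-- if `θ ≡ 1 mod p` and `p ∤ N` then `θ ^ N ≡ 1` modulo `p ^ m` implies `θ ≡ 1` -/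
lemma dvd_of_pow {p : ℕ} (hp : p.Prime) {N m : ℕ} (hN : ¬ p ∣ N) {θ : R} (h1 : (p : R) ∣ θ - 1)
    (h2 : (p : R) ^ m ∣ θ ^ N - 1) : (p : R) ^ m ∣ θ - 1 := by
  have h3 : θ ^ N - 1 = (∑ i ∈ Finset.range N, θ ^ i) * (θ - 1) := (geom_sum_mul θ N).symm
  have h4 : (p : R) ∣ (∑ i ∈ Finset.range N, θ ^ i) - N := by
    have : (∑ i ∈ Finset.range N, θ ^ i) - (N : R) = ∑ i ∈ Finset.range N, (θ ^ i - 1) := by
      rw [Finset.sum_sub_distrib]; simp
    rw [this]
    apply Finset.dvd_sum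
    intro i _
    have := sub_dvd_pow_sub_pow θ 1 i
    rw [one_pow] at this
    exact h1.trans this
  have h5 : IsCoprime (N : R) (p : R) := by
    have : IsCoprime (N : ℤ) (p : ℤ) := by
      rw [Nat.isCoprime_iff_coprime]
      exact (Nat.Coprime.symm ((Nat.Prime.coprime_iff_not_dvd hp).mpr hN))
    have := this.map (Int.castRingHom R)
    simpa using this
  have h6 : IsCoprime (∑ i ∈ Finset.range N, θ ^ i) (p : R) := by
    obtain ⟨c, hc⟩ := h4
    have : (∑ i ∈ Finset.range N, θ ^ i) = N + p * c := by rw [← hc]; ring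
    rw [this]
    exact h5.add_mul_left_left c
  have h7 : IsCoprime ((p : R) ^ m) (∑ i ∈ Finset.range N, θ ^ i) := h6.symm.pow_left
  rw [h3] at h2
  exact h7.dvd_of_dvd_mul_left h2

end Ring

end Run7.h403
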