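import Pool.Agent.Run7.h403.Defs

/-!
# Classes of principal ideals in the ray class groups
-/

set_option autoImplicit false

namespace Run7.h403

open NumberField nonZeroDivisors

variable {K : Type} [Field K] [NumberField K]

/-- the principal ideal of a nonzero integer as a unit -/
noncomputable def pr (α : 𝓞 K) (h : α ≠ 0) : (FractionalIdeal (𝓞 K)⁰ K)ˣ :=
  toPrincipalIdeal (𝓞 K) K (Units.mk0 (α : K) (by simpa using h))

lemma coe_pr (α : 𝓞 K) (h : α ≠ 0) : ((pr α h : (FractionalIdeal (𝓞 K)⁰ K)ˣ) :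
    FractionalIdeal (𝓞 K)⁰ K) = FractionalIdeal.spanSingleton _ (α : K) := by
  rw [pr, coe_toPrincipalIdeal]; rfl

lemma pr_mem (p : ℕ) (α : 𝓞 K) (h : α ≠ 0) (h1 : (p : 𝓞 K) ∣ α - 1) :
    pr α h ∈ idealsPrimeTo K p := by
  classical
  intro v hv
  have hnv : α ∉ v.asIdeal := by
    intro hα
    obtain ⟨c, hc⟩ := h1
    apply v.isPrime.ne_top
    rw [Ideal.eq_top_iff_one]
    have : (1 : 𝓞 K) = α - p * c := by rw [← hc]; ring
    rw [this]
    exact Ideal.sub_mem _ hα (Ideal.mul_mem_right _ _ hv)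
  have hne : (Ideal.span {α} : Ideal (𝓞 K)) ≠ 0 := by
    simpa [Ideal.span_singleton_eq_bot] using h
  have e : ((pr α h : (FractionalIdeal (𝓞 K)⁰ K)ˣ) : FractionalIdeal (𝓞 K)⁰ K)
      = ((Ideal.span {α} : Ideal (𝓞 K)) : FractionalIdeal (𝓞 K)⁰ K) := by
    rw [coe_pr, FractionalIdeal.coeIdeal_span_singleton]
  rw [e, FractionalIdeal.count_coe K v hne]
  by_contra hc
  have hc' : (Associates.mk v.asIdeal).count (Associates.mk (Ideal.span {α} : Ideal (𝓞 K))).factors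
      ≠ 0 := by
    intro h0; apply hc; rw [h0]; rfl
  rw [Associates.count_ne_zero_iff_dvd hne v.irreducible, Ideal.dvd_span_singleton] at hc'
  exact hnv hc'

/-- the class of a nonzero integer congruent to `1` modulo `p` -/
noncomputable def cl (p n : ℕ) (α : 𝓞 K) (h : α ≠ 0) (h1 : (p : 𝓞 K) ∣ α - 1) :
    RayClassGroup K p n :=
  (QuotientGroup.mk (⟨pr α h, pr_mem p α h h1⟩ : idealsPrimeTo K p) :
    (idealsPrimeTo K p) ⧸ (ray K p n).subgroupOf (idealsPrimeTo K p))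

lemma rayMap_cl (p n : ℕ) (α : 𝓞 K) (h : α ≠ 0) (h1 : (p : 𝓞 K) ∣ α - 1) :
    rayMap K p n (cl p (n + 1) α h h1) = cl p n α h h1 := rfl

lemma cl_pow (p n : ℕ) (α : 𝓞 K) (h : α ≠ 0) (h1 : (p : 𝓞 K) ∣ α - 1) (k : ℕ)
    (h' : α ^ k ≠ 0) (h1' : (p : 𝓞 K) ∣ α ^ k - 1) :
    cl p n α h h1 ^ k = cl p n (α ^ k) h' h1' := by
  have : (⟨pr (α ^ k) h', pr_mem p (α ^ k) h' h1'⟩ : idealsPrimeTo K p)
      = (⟨pr α h, pr_mem p α h h1⟩ : idealsPrimeTo K p) ^ k := by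
    apply Subtype.ext
    rw [SubmonoidClass.coe_pow]
    simp only [pr]
    rw [← map_pow]
    congr 1
    ext
    simp
  rw [cl, cl, this]
  rfl

lemma cl_eq_iff (p n : ℕ) (α β : 𝓞 K) (hα : α ≠ 0) (hβ : β ≠ 0) (h1α : (p : 𝓞 K) ∣ α - 1)
    (h1β : (p : 𝓞 K) ∣ β - 1) :
    cl p n α hα h1α = cl p n β hβ h1β ↔ ∃ e : (𝓞 K)ˣ, (p : 𝓞 K) ^ n ∣ α - e * β := by
  have hα' : (α : K) ≠ 0 := by simpa using hα
  have hβ' : (β : K) ≠ 0 := by simpa using hβ
  have key : cl p n α hα h1α = cl p n β hβ h1β ↔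
      (⟨pr α hα, pr_mem p α hα h1α⟩ : idealsPrimeTo K p)⁻¹ * ⟨pr β hβ, pr_mem p β hβ h1β⟩ ∈
        (ray K p n).subgroupOf (idealsPrimeTo K p) := QuotientGroup.eq
  rw [key, Subgroup.mem_subgroupOf, ray, Subgroup.mem_map]
  constructor
  · rintro ⟨x, ⟨a, b, ha, hb, ha1, hb1, h⟩, hx⟩
    have h2 : toPrincipalIdeal (𝓞 K) K (Units.mk0 (α : K) hα' * x)
        = toPrincipalIdeal (𝓞 K) K (Units.mk0 (β : K) hβ') := by
      rw [map_mul, hx]
      simp only [Subgroup.coe_mul, Subgroup.coe_inv, pr]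
      rw [mul_inv_cancel_left]
    have h3 := congrArg (fun z : (FractionalIdeal (𝓞 K)⁰ K)ˣ => (z : FractionalIdeal (𝓞 K)⁰ K)) h2
    simp only [coe_toPrincipalIdeal] at h3
    rw [FractionalIdeal.spanSingleton_eq_spanSingleton] at h3
    obtain ⟨z, hz⟩ := h3
    rw [Units.smul_def, Algebra.smul_def] at hz
    have h4 : (z : 𝓞 K) * (a * α) = b * β := by
      apply RingOfIntegers.ext
      have : ((z : 𝓞 K) : K) * ((α : K) * (x : K)) = (β : K) := by
        simpa using hz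
      push_cast
      calc ((z : 𝓞 K) : K) * ((a : K) * (α : K)) = (((z : 𝓞 K) : K) * ((α : K) * (x : K))) * (b : K) := by
            rw [← h]; ring
        _ = (b : K) * (β : K) := by rw [this]; ring
    refine ⟨z⁻¹, ?_⟩
    have h5 : (p : 𝓞 K) ^ n ∣ (z : 𝓞 K) * α - β := by
      have : (z : 𝓞 K) * α - β = (b - 1) * β - (a - 1) * (z * α) := by
        linear_combination h4
      rw [this]
      exact dvd_sub (Dvd.dvd.mul_right hb1 _) (Dvd.dvd.mul_right ha1 _)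
    have : α - ((z⁻¹ : (𝓞 K)ˣ) : 𝓞 K) * β = ((z⁻¹ : (𝓞 K)ˣ) : 𝓞 K) * ((z : 𝓞 K) * α - β) := by
      rw [mul_sub, Units.inv_mul_cancel_left]
    rw [this]
    exact Dvd.dvd.mul_left h5 _
  · rintro ⟨e, he⟩
    -- `β / α = b / a` with `b = β ^ (p ^ n)`, `a = e⁻¹ α β ^ (p ^ n - 1)`
    have hb1 : (p : 𝓞 K) ^ n ∣ β ^ p ^ n - 1 := by
      have := dvd_sub_pow_of_dvd_sub h1β n
      rw [one_pow] at this
      exact (pow_dvd_pow _ n.le_succ).trans this
    have hpn : p ^ n ≠ 0 ∨ p ^ n = 0 := by tauto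
    rcases hpn with hpn | hpn
    swap
    · -- degenerate case `p = 0`
      have hp0 : p = 0 := by
        by_contra h0
        exact (pow_ne_zero n h0) hpn
      have hn0 : n ≠ 0 := by
        rintro rfl
        simp at hpn
      subst hp0
      have h0n : ((0 : ℕ) : 𝓞 K) ^ n = 0 := by simp [hn0]
      rw [h0n, zero_dvd_iff, sub_eq_zero] at he
      have hβ1 : β = 1 := by
        simpa [sub_eq_zero] using h1β
      have hα1 : α = 1 := by
        simpa [sub_eq_zero] using h1α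
      subst hβ1 hα1
      refine ⟨1, one_mem _, ?_⟩
      simp
    have hβn : β ^ p ^ n = β ^ (p ^ n - 1) * β := by
      rw [← pow_succ]
      congr 1
      omega
    refine ⟨(Units.mk0 (α : K) hα')⁻¹ * (Units.mk0 (β : K) hβ') *
      (Units.mk0 ((e : 𝓞 K) : K) (by simp)), ?_, ?_⟩
    · refine ⟨β ^ p ^ n, (e⁻¹ : (𝓞 K)ˣ) * (α * β ^ (p ^ n - 1)), pow_ne_zero _ hβ, ?_, hb1, ?_, ?_⟩
      · exact mul_ne_zero (Units.ne_zero _) (mul_ne_zero hα (pow_ne_zero _ hβ))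
      · have : ((e⁻¹ : (𝓞 K)ˣ) : 𝓞 K) * (α * β ^ (p ^ n - 1)) - 1
            = ((e⁻¹ : (𝓞 K)ˣ) : 𝓞 K) * (α - e * β) * β ^ (p ^ n - 1) + (β ^ p ^ n - 1) := by
          rw [hβn, mul_sub, Units.inv_mul_cancel_left]
          ring
        rw [this]
        exact dvd_add (Dvd.dvd.mul_right (Dvd.dvd.mul_left he _) _) hb1
      · have he' : (((e⁻¹ : (𝓞 K)ˣ) : 𝓞 K) : K) * ((e : 𝓞 K) : K) = 1 := by
          rw [← map_mul]
          simp
        have e1 : ((((e⁻¹ : (𝓞 K)ˣ) : 𝓞 K) * (α * β ^ (p ^ n - 1)) : 𝓞 K) : K)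
          = (((e⁻¹ : (𝓞 K)ˣ) : 𝓞 K) : K) * ((α : K) * ((β ^ (p ^ n - 1) : 𝓞 K) : K)) := by
          push_cast; rfl
        have e2 : ((β ^ p ^ n : 𝓞 K) : K) = ((β ^ (p ^ n - 1) : 𝓞 K) : K) * (β : K) := by
          rw [hβn]; rfl
        rw [e1, e2]
        simp only [Units.val_mul, Units.val_inv_eq_inv_val, Units.val_mk0]
        field_simp
        linear_combination he'
    · rw [map_mul, map_mul, map_inv]
      have h1 : toPrincipalIdeal (𝓞 K) K (Units.mk0 ((e : 𝓞 K) : K) (by simp)) = 1 := by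
        rw [toPrincipalIdeal_eq_iff]
        rw [Units.val_one, Units.val_mk0]
        have := (FractionalIdeal.spanSingleton_eq_spanSingleton (R := 𝓞 K) (P := K)
          (S := (𝓞 K)⁰) (x := 1) (y := ((e : 𝓞 K) : K))).mpr ⟨e, by
            rw [Units.smul_def, Algebra.smul_def, mul_one]⟩
        rw [← this, FractionalIdeal.spanSingleton_one]
      rw [h1, mul_one]
      rfl

end Run7.h403
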