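import Pool.Agent.Run7.h403.Local
import Pool.Agent.Erdos456.Mertens

/-!
# Second moments
-/

set_option autoImplicit false

namespace Run7.h403.Count

open Finset Run7.h403.Local

/-- the number of `t < X` in a class modulo `m` -/
lemma class_count (X m r : ℕ) (hm : 0 < m) (hr : r < m) :
    |(((range X).filter (fun t => t % m = r)).card : ℝ) - X / m| ≤ 1 := by
  have h1 : ((range X).filter (fun t => t % m = r)).card = X.count (· ≡ r [MOD m]) := by
    rw [Nat.count_eq_card_filter_range]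
    congr 1
    apply filter_congr
    intro t _
    rw [Nat.ModEq, Nat.mod_eq_of_lt hr]
  rw [h1, Nat.count_modEq_card X hm r, Nat.mod_eq_of_lt hr]
  have hmR : (0 : ℝ) < m := by exact_mod_cast hm
  have h2 : (X : ℝ) = m * ((X / m : ℕ) : ℝ) + ((X % m : ℕ) : ℝ) := by
    exact_mod_cast (Nat.div_add_mod X m).symm
  have h3 : ((X % m : ℕ) : ℝ) < m := by exact_mod_cast Nat.mod_lt X hm
  have h4 : (0 : ℝ) ≤ ((X % m : ℕ) : ℝ) := by positivity
  have h5 : (X : ℝ) / m = ((X / m : ℕ) : ℝ) + ((X % m : ℕ) : ℝ) / m := by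
    rw [h2]
    field_simp
  have h6 : ((X % m : ℕ) : ℝ) / m < 1 := (div_lt_one hmR).mpr h3
  have h7 : 0 ≤ ((X % m : ℕ) : ℝ) / m := by positivity
  rw [h5]
  split_ifs with h8
  · push_cast
    rw [abs_le]; constructor <;> linarith
  · push_cast
    rw [abs_le]; constructor <;> linarith

/-- the number of `t < X` in a set of classes modulo `m` -/
lemma set_count (X m : ℕ) (S : Finset ℕ) (hm : 0 < m) (hS : ∀ r ∈ S, r < m) :
    |(((range X).filter (fun t => t % m ∈ S)).card : ℝ) - X * (S.card / m)| ≤ S.card := by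
  have h1 : (range X).filter (fun t => t % m ∈ S)
      = S.biUnion (fun r => (range X).filter (fun t => t % m = r)) := by
    ext t
    simp only [mem_filter, mem_biUnion, mem_range]
    constructor
    · rintro ⟨h, h'⟩; exact ⟨_, h', h, rfl⟩
    · rintro ⟨r, hr, h, rfl⟩; exact ⟨h, hr⟩
  have h2 : ((range X).filter (fun t => t % m ∈ S)).card
      = ∑ r ∈ S, ((range X).filter (fun t => t % m = r)).card := by
    rw [h1, card_biUnion]
    intro a _ b _ hab
    rw [Function.onFun, disjoint_left]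
    intro t ha hb
    rw [mem_filter] at ha hb
    exact hab (ha.2.symm.trans hb.2)
  rw [h2]
  push_cast
  have h3 : (X : ℝ) * (S.card / m) = ∑ r ∈ S, (X : ℝ) / m := by
    rw [sum_const, nsmul_eq_mul]; ring
  rw [h3, ← sum_sub_distrib]
  calc |∑ r ∈ S, ((((range X).filter (fun t => t % m = r)).card : ℝ) - X / m)|
      ≤ ∑ r ∈ S, |((((range X).filter (fun t => t % m = r)).card : ℝ) - X / m)| :=
        abs_sum_le_sum_abs _ _
    _ ≤ ∑ r ∈ S, (1 : ℝ) := sum_le_sum (fun r hr => class_count X m r hm (hS r hr))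
    _ = S.card := by simp

/-- Chinese remainders -/
lemma crt_card {m n : ℕ} (hmn : m.Coprime n) (hm : 0 < m) (hn : 0 < n) (S T : Finset ℕ)
    (hS : ∀ r ∈ S, r < m) (hT : ∀ r ∈ T, r < n) :
    ((range (m * n)).filter (fun r => r % m ∈ S ∧ r % n ∈ T)).card = S.card * T.card := by
  rw [← card_product]
  apply card_nbij' (fun r => (r % m, r % n))
    (fun ab => (Nat.chineseRemainder hmn ab.1 ab.2 : ℕ))
  · intro r hr
    simp only [coe_filter, Set.mem_ofPred_eq, mem_range] at hr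
    simp only [coe_product, Set.mem_prod, mem_coe]
    exact hr.2
  · rintro ⟨a, b⟩ hab
    simp only [coe_product, Set.mem_prod, mem_coe] at hab
    simp only [coe_filter, Set.mem_ofPred_eq, mem_range]
    have h1 := (Nat.chineseRemainder hmn a b).2
    refine ⟨Nat.chineseRemainder_lt_mul hmn a b hm.ne' hn.ne', ?_, ?_⟩
    · have : (Nat.chineseRemainder hmn a b : ℕ) % m = a := by
        rw [h1.1, Nat.mod_eq_of_lt (hS a hab.1)]
      rw [this]; exact hab.1
    · have : (Nat.chineseRemainder hmn a b : ℕ) % n = b := by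
        rw [h1.2, Nat.mod_eq_of_lt (hT b hab.2)]
      rw [this]; exact hab.2
  · intro r hr
    simp only [coe_filter, Set.mem_ofPred_eq, mem_range] at hr
    have h1 := (Nat.chineseRemainder hmn (r % m) (r % n)).2
    have h2 := Nat.chineseRemainder_lt_mul hmn (r % m) (r % n) hm.ne' hn.ne'
    have h3 : (Nat.chineseRemainder hmn (r % m) (r % n) : ℕ) ≡ r [MOD m * n] := by
      rw [← Nat.modEq_and_modEq_iff_modEq_mul hmn]
      exact ⟨h1.1.trans (Nat.mod_modEq _ _), h1.2.trans (Nat.mod_modEq _ _)⟩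
    exact Nat.ModEq.eq_of_lt_of_lt h3 h2 hr.1
  · rintro ⟨a, b⟩ hab
    simp only [coe_product, Set.mem_prod, mem_coe] at hab
    have h1 := (Nat.chineseRemainder hmn a b).2
    ext
    · show (Nat.chineseRemainder hmn a b : ℕ) % m = a
      rw [h1.1, Nat.mod_eq_of_lt (hS a hab.1)]
    · show (Nat.chineseRemainder hmn a b : ℕ) % n = b
      rw [h1.2, Nat.mod_eq_of_lt (hT b hab.2)]

/-- the number of `t < X` in two sets of classes -/
lemma pair_count (X : ℕ) {m n : ℕ} (hmn : m.Coprime n) (hm : 0 < m) (hn : 0 < n) (S T : Finset ℕ)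
    (hS : ∀ r ∈ S, r < m) (hT : ∀ r ∈ T, r < n) :
    |(((range X).filter (fun t => t % m ∈ S ∧ t % n ∈ T)).card : ℝ)
      - X * ((S.card / m) * (T.card / n))| ≤ S.card * T.card := by
  have h1 := set_count X (m * n) ((range (m * n)).filter (fun r => r % m ∈ S ∧ r % n ∈ T))
    (Nat.mul_pos hm hn) (fun r hr => by simpa using (mem_filter.mp hr).1)
  rw [crt_card hmn hm hn S T hS hT] at h1
  have h2 : (range X).filter (fun t => t % (m * n) ∈
      (range (m * n)).filter (fun r => r % m ∈ S ∧ r % n ∈ T))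
      = (range X).filter (fun t => t % m ∈ S ∧ t % n ∈ T) := by
    apply filter_congr
    intro t _
    rw [mem_filter, mem_range, Nat.mod_mul_right_mod, Nat.mod_mul_left_mod]
    constructor
    · rintro ⟨_, h⟩; exact h
    · intro h; exact ⟨Nat.mod_lt _ (Nat.mul_pos hm hn), h⟩
  rw [h2] at h1
  push_cast at h1
  convert h1 using 3
  rw [div_mul_div_comm]

lemma card_Bad_le' {p : ℕ} (hp : p.Prime) : (Bad p).card ≤ p := by
  classical
  suffices h : (Bad p).card ≤ (range p).card by rwa [card_range] at h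
  apply card_le_card_of_injOn (fun r => r % p)
  · intro r _
    simp only [coe_range, Set.mem_Iio]
    exact Nat.mod_lt _ hp.pos
  · intro a ha b hb hab
    rw [mem_coe, mem_Bad] at ha hb
    have h1 : (p : ℤ) ∣ (a : ℤ) - b := by
      have : b ≡ a [MOD p] := (show a % p = b % p from hab).symm
      exact (Nat.modEq_iff_dvd).mp this
    have h2 := V_sq hp h1
    have h3 : (p : ℤ) ^ 2 ∣ (a : ℤ) - b := by
      have : (a : ℤ) - b = (V p a - V p b) - (V p a - a) + (V p b - b) := by ring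
      rw [this]
      exact dvd_add (dvd_sub h2 ha.2.1) hb.2.1
    have h4 : b ≡ a [MOD p ^ 2] := (Nat.modEq_iff_dvd).mpr (by exact_mod_cast h3)
    exact (Nat.ModEq.eq_of_lt_of_lt h4 hb.1 ha.1).symm

/-- indicator -/
noncomputable def ind (p t : ℕ) : ℝ := by
  classical
  exact if t % p ^ 2 ∈ Bad p then 1 else 0

/-- density -/
noncomputable def w (p : ℕ) : ℝ := (Bad p).card / ((p ^ 2 : ℕ) : ℝ)

lemma sum_ind (X p : ℕ) :
    ∑ t ∈ range X, ind p t = (((range X).filter (fun t => t % p ^ 2 ∈ Bad p)).card : ℝ) := by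
  classical
  rw [card_filter]
  push_cast
  apply sum_congr rfl
  intro t _
  rw [ind]

lemma sum_ind_mul (X p q : ℕ) :
    ∑ t ∈ range X, ind p t * ind q t
      = (((range X).filter (fun t => t % p ^ 2 ∈ Bad p ∧ t % q ^ 2 ∈ Bad q)).card : ℝ) := by
  classical
  rw [card_filter]
  push_cast
  apply sum_congr rfl
  intro t _
  rw [ind, ind]
  by_cases h1 : t % p ^ 2 ∈ Bad p <;> by_cases h2 : t % q ^ 2 ∈ Bad q <;> simp [h1, h2]

lemma w_nonneg (p : ℕ) : 0 ≤ w p := by rw [w]; positivity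

lemma w_le_one {p : ℕ} (hp : p.Prime) : w p ≤ 1 := by
  rw [w]
  apply div_le_one_of_le₀ _ (by positivity)
  have h1 := card_Bad_le' hp
  have h2 : p ≤ p ^ 2 := by nlinarith [hp.two_le]
  exact_mod_cast h1.trans h2

lemma w_le_card {p : ℕ} (hp : p.Prime) : w p ≤ (Bad p).card := by
  rw [w]
  apply div_le_self (by positivity)
  have : 1 ≤ p ^ 2 := Nat.one_le_pow _ _ hp.pos
  exact_mod_cast this

lemma Bad_lt {p r : ℕ} (h : r ∈ Bad p) : r < p ^ 2 := (mem_Bad.mp h).1

/-- **Second moment.** -/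
lemma second_moment (X : ℕ) (P : Finset ℕ) (hP : ∀ p ∈ P, p.Prime) :
    ∑ t ∈ range X, (∑ p ∈ P, ind p t - ∑ p ∈ P, w p) ^ 2
      ≤ 2 * X * ∑ p ∈ P, w p + 4 * (∑ p ∈ P, ((Bad p).card : ℝ)) ^ 2 := by
  classical
  set E : ℕ → ℕ → ℝ := fun p q => ∑ t ∈ range X, (ind p t - w p) * (ind q t - w q) with hE
  have h1 : ∑ t ∈ range X, (∑ p ∈ P, ind p t - ∑ p ∈ P, w p) ^ 2
      = ∑ p ∈ P, ∑ q ∈ P, E p q := by
    have : ∀ t, (∑ p ∈ P, ind p t - ∑ p ∈ P, w p) ^ 2
        = ∑ p ∈ P, ∑ q ∈ P, (ind p t - w p) * (ind q t - w q) := by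
      intro t
      rw [← sum_sub_distrib, pow_two, sum_mul_sum]
    simp_rw [this]
    rw [sum_comm]
    apply sum_congr rfl
    intro p _
    rw [sum_comm]
  have hN : ∀ p ∈ P, |∑ t ∈ range X, ind p t - X * w p| ≤ (Bad p).card := by
    intro p hp
    rw [sum_ind, w]
    exact set_count X (p ^ 2) (Bad p) (pow_pos (hP p hp).pos 2) (fun r hr => Bad_lt hr)
  have hEexp : ∀ p q, E p q = ∑ t ∈ range X, ind p t * ind q t - w q * ∑ t ∈ range X, ind p t
      - w p * ∑ t ∈ range X, ind q t + X * (w p * w q) := by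
    intro p q
    rw [hE]
    simp only
    have : ∀ t, (ind p t - w p) * (ind q t - w q)
        = ind p t * ind q t - w q * ind p t - w p * ind q t + w p * w q := fun t => by ring
    simp_rw [this]
    rw [sum_add_distrib, sum_sub_distrib, sum_sub_distrib, ← mul_sum, ← mul_sum, sum_const,
      card_range, nsmul_eq_mul]
  have hdiag : ∀ p ∈ P, E p p ≤ 2 * X * w p + (Bad p).card := by
    intro p hp
    have h2 := abs_le.mp (hN p hp)
    have h3 : ∑ t ∈ range X, ind p t * ind p t = ∑ t ∈ range X, ind p t := by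
      apply sum_congr rfl
      intro t _
      rw [ind]; split_ifs <;> simp
    rw [hEexp, h3]
    have h4 := w_nonneg p
    have h5 := w_le_one (hP p hp)
    have h6 : 0 ≤ ∑ t ∈ range X, ind p t := by
      apply sum_nonneg
      intro t _
      rw [ind]; split_ifs <;> norm_num
    have h7 : (0 : ℝ) ≤ X := by positivity
    have h8 : (X : ℝ) * (w p * w p) ≤ X * w p := by
      apply mul_le_mul_of_nonneg_left _ h7
      nlinarith
    nlinarith [mul_nonneg h4 h6]
  have hoff : ∀ p ∈ P, ∀ q ∈ P, p ≠ q → E p q ≤ 3 * ((Bad p).card * (Bad q).card) := by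
    intro p hp q hq hpq
    have hcop : (p ^ 2).Coprime (q ^ 2) :=
      Nat.Coprime.pow 2 2 ((Nat.coprime_primes (hP p hp) (hP q hq)).mpr hpq)
    have h2 := abs_le.mp (hN p hp)
    have h3 := abs_le.mp (hN q hq)
    have h4 := abs_le.mp (pair_count X hcop (pow_pos (hP p hp).pos 2) (pow_pos (hP q hq).pos 2)
      (Bad p) (Bad q) (fun r hr => Bad_lt hr) (fun r hr => Bad_lt hr))
    rw [← sum_ind_mul] at h4
    change -_ ≤ _ - (X : ℝ) * (w p * w q) ∧ _ - (X : ℝ) * (w p * w q) ≤ _ at h4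
    rw [hEexp]
    have h5 := w_nonneg p
    have h6 := w_nonneg q
    have h7 := w_le_card (hP p hp)
    have h8 := w_le_card (hP q hq)
    have h9 : w q * (X * w p - ∑ t ∈ range X, ind p t) ≤ w q * (Bad p).card :=
      mul_le_mul_of_nonneg_left (by linarith [h2.1]) h6
    have h10 : w p * (X * w q - ∑ t ∈ range X, ind q t) ≤ w p * (Bad q).card :=
      mul_le_mul_of_nonneg_left (by linarith [h3.1]) h5
    have h11 : w q * ((Bad p).card : ℝ) ≤ (Bad q).card * (Bad p).card :=
      mul_le_mul_of_nonneg_right h8 (by positivity)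
    have h12 : w p * ((Bad q).card : ℝ) ≤ (Bad p).card * (Bad q).card :=
      mul_le_mul_of_nonneg_right h7 (by positivity)
    nlinarith [h4.2]
  have hB : ∑ p ∈ P, ((Bad p).card : ℝ) ≤ (∑ p ∈ P, ((Bad p).card : ℝ)) ^ 2 := by
    have : ∑ p ∈ P, ((Bad p).card : ℝ) = ((∑ p ∈ P, (Bad p).card : ℕ) : ℝ) := by push_cast; rfl
    rw [this]
    have h3 : ∀ n : ℕ, n ≤ n ^ 2 := fun n => Nat.le_self_pow two_ne_zero n
    exact_mod_cast h3 _
  rw [h1]
  have h2 : ∀ p ∈ P, ∑ q ∈ P, E p q ≤ (2 * X * w p + (Bad p).card)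
      + 3 * ((Bad p).card * ∑ q ∈ P, ((Bad q).card : ℝ)) := by
    intro p hp
    rw [← add_sum_erase _ _ hp]
    apply add_le_add (hdiag p hp)
    calc ∑ q ∈ P.erase p, E p q ≤ ∑ q ∈ P.erase p, 3 * (((Bad p).card : ℝ) * (Bad q).card) := by
          apply sum_le_sum
          intro q hq
          rw [mem_erase] at hq
          exact hoff p hp q hq.2 hq.1.symm
      _ ≤ ∑ q ∈ P, 3 * (((Bad p).card : ℝ) * (Bad q).card) := by
          apply sum_le_sum_of_subset_of_nonneg (erase_subset _ _)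
          intros; positivity
      _ = _ := by rw [← mul_sum, ← mul_sum]
  calc ∑ p ∈ P, ∑ q ∈ P, E p q
      ≤ ∑ p ∈ P, ((2 * X * w p + (Bad p).card)
        + 3 * ((Bad p).card * ∑ q ∈ P, ((Bad q).card : ℝ))) := sum_le_sum h2
    _ = 2 * X * ∑ p ∈ P, w p + ∑ p ∈ P, ((Bad p).card : ℝ)
        + 3 * (∑ p ∈ P, ((Bad p).card : ℝ)) ^ 2 := by
        rw [sum_add_distrib, sum_add_distrib, ← mul_sum, ← mul_sum, ← sum_mul]; ring
    _ ≤ _ := by linarith

/-- **Chebyshev.** -/
lemma few (X : ℕ) (P : Finset ℕ) (hP : ∀ p ∈ P, p.Prime) (l : ℝ) (hl : 0 < l) :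
    (((range X).filter (fun t => ∑ p ∈ P, ind p t ≤ ∑ p ∈ P, w p - l)).card : ℝ) * l ^ 2
      ≤ 2 * X * ∑ p ∈ P, w p + 4 * (∑ p ∈ P, ((Bad p).card : ℝ)) ^ 2 := by
  classical
  refine le_trans ?_ (second_moment X P hP)
  calc (((range X).filter (fun t => ∑ p ∈ P, ind p t ≤ ∑ p ∈ P, w p - l)).card : ℝ) * l ^ 2
      = ∑ t ∈ (range X).filter (fun t => ∑ p ∈ P, ind p t ≤ ∑ p ∈ P, w p - l), l ^ 2 := by
        rw [sum_const, nsmul_eq_mul]
    _ ≤ ∑ t ∈ (range X).filter (fun t => ∑ p ∈ P, ind p t ≤ ∑ p ∈ P, w p - l),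
        (∑ p ∈ P, ind p t - ∑ p ∈ P, w p) ^ 2 := by
        apply sum_le_sum
        intro t ht
        rw [mem_filter] at ht
        nlinarith [ht.2]
    _ ≤ _ := by
        apply sum_le_sum_of_subset_of_nonneg (filter_subset _ _)
        intros; positivity

end Run7.h403.Count
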