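import Mathlib

/-!
# The torsion group `T_p(K)` through ray class groups

By class field theory the Galois group of the maximal abelian extension of `K` unramified outside the
primes above `p` (and the real places) is the inverse limit of the ray class groups modulo `p ^ n`.
The torsion subgroup of its pro-`p` part is the group of the elements of `p`-power order of this
inverse limit, which is what we define.
-/

set_option autoImplicit false

namespace Run7.h403

open NumberField nonZeroDivisors

section

variable (K : Type) [Field K] [NumberField K]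

/-- The elements of `Kˣ` which are multiplicatively congruent to `1` modulo `p ^ n`: the quotients
`a / b` of nonzero integers `a, b` of `K` congruent to `1` modulo `p ^ n`. -/
def oneUnits (p n : ℕ) : Subgroup Kˣ where
  carrier := {x | ∃ a b : 𝓞 K, a ≠ 0 ∧ b ≠ 0 ∧ (p : 𝓞 K) ^ n ∣ a - 1 ∧ (p : 𝓞 K) ^ n ∣ b - 1 ∧
    (x : K) * (b : K) = (a : K)}
  one_mem' := ⟨1, 1, one_ne_zero, one_ne_zero, by simp, by simp, by simp⟩
  mul_mem' := by
    rintro x y ⟨a, b, ha, hb, ha1, hb1, h⟩ ⟨c, d, hc, hd, hc1, hd1, h'⟩
    refine ⟨a * c, b * d, mul_ne_zero ha hc, mul_ne_zero hb hd, ?_, ?_, ?_⟩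
    · have : a * c - 1 = a * (c - 1) + (a - 1) := by ring
      rw [this]; exact dvd_add (Dvd.dvd.mul_left hc1 _) ha1
    · have : b * d - 1 = b * (d - 1) + (b - 1) := by ring
      rw [this]; exact dvd_add (Dvd.dvd.mul_left hd1 _) hb1
    · have e1 : ((a * c : 𝓞 K) : K) = (a : K) * (c : K) := by push_cast; rfl
      have e2 : ((b * d : 𝓞 K) : K) = (b : K) * (d : K) := by push_cast; rfl
      rw [e1, e2, ← h, ← h', Units.val_mul]; ring
  inv_mem' := by
    rintro x ⟨a, b, ha, hb, ha1, hb1, h⟩
    refine ⟨b, a, hb, ha, hb1, ha1, ?_⟩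
    rw [← h]; simp

/-- The group of the fractional ideals of `K` prime to `p`: all primes above `p` have exponent `0`. -/
noncomputable def idealsPrimeTo (p : ℕ) : Subgroup (FractionalIdeal (𝓞 K)⁰ K)ˣ where
  carrier := {J | ∀ v : IsDedekindDomain.HeightOneSpectrum (𝓞 K), (p : 𝓞 K) ∈ v.asIdeal →
    FractionalIdeal.count K v (J : FractionalIdeal (𝓞 K)⁰ K) = 0}
  one_mem' := fun v _ => by simpa using FractionalIdeal.count_one K v
  mul_mem' := by
    intro x y hx hy v hv
    rw [Units.val_mul, FractionalIdeal.count_mul K v x.ne_zero y.ne_zero, hx v hv, hy v hv, add_zero]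
  inv_mem' := by
    intro x hx v hv
    rw [Units.val_inv_eq_inv_val, FractionalIdeal.count_inv, hx v hv, neg_zero]

/-- The ray modulo `p ^ n`: the principal fractional ideals generated by the elements congruent to `1`
multiplicatively modulo `p ^ n`. -/
noncomputable def ray (p n : ℕ) : Subgroup (FractionalIdeal (𝓞 K)⁰ K)ˣ :=
  (oneUnits K p n).map (toPrincipalIdeal (𝓞 K) K)

/-- The ray class group of `K` modulo `p ^ n` (no condition at the real places): fractional ideals
prime to `p` modulo the ray. -/
def RayClassGroup (p n : ℕ) : Type :=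
  (idealsPrimeTo K p) ⧸ (ray K p n).subgroupOf (idealsPrimeTo K p)

noncomputable instance (p n : ℕ) : CommGroup (RayClassGroup K p n) :=
  inferInstanceAs (CommGroup ((idealsPrimeTo K p) ⧸ (ray K p n).subgroupOf (idealsPrimeTo K p)))

lemma oneUnits_le (p n : ℕ) : oneUnits K p (n + 1) ≤ oneUnits K p n := by
  rintro x ⟨a, b, ha, hb, ha1, hb1, h⟩
  exact ⟨a, b, ha, hb, (pow_dvd_pow _ n.le_succ).trans ha1, (pow_dvd_pow _ n.le_succ).trans hb1, h⟩

lemma ray_le (p n : ℕ) : ray K p (n + 1) ≤ ray K p n :=
  Subgroup.map_mono (oneUnits_le K p n)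

/-- The projection from the ray class group modulo `p ^ (n + 1)` to the one modulo `p ^ n`. -/
noncomputable def rayMap (p n : ℕ) : RayClassGroup K p (n + 1) →* RayClassGroup K p n :=
  QuotientGroup.map _ _ (MonoidHom.id _) (by
    rw [Subgroup.comap_id]
    exact Subgroup.comap_mono (ray_le K p n))

/-- The inverse limit of the ray class groups modulo `p, p ^ 2, p ^ 3, …`; by class field theory, the
Galois group of the maximal abelian extension of `K` unramified outside `p` and `∞`. -/
noncomputable def limRay (p : ℕ) : Subgroup (∀ n : ℕ, RayClassGroup K p (n + 1)) where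
  carrier := {x | ∀ n, rayMap K p (n + 1) (x (n + 1)) = x n}
  one_mem' := fun n => map_one _
  mul_mem' := by
    intro x y hx hy n
    rw [Pi.mul_apply, map_mul, hx n, hy n, Pi.mul_apply]
  inv_mem' := by
    intro x hx n
    rw [Pi.inv_apply, map_inv, hx n, Pi.inv_apply]

/-- The group `T_p(K)`: the elements of `p`-power order of the inverse limit of the ray class groups
modulo the powers of `p`. It is the torsion subgroup of the Galois group of the maximal abelian
pro-`p` extension of `K` unramified outside `p` (and `∞`). -/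
noncomputable def TT (p : ℕ) : Subgroup (∀ n : ℕ, RayClassGroup K p (n + 1)) where
  carrier := {x | x ∈ limRay K p ∧ ∃ k : ℕ, x ^ p ^ k = 1}
  one_mem' := ⟨one_mem _, 0, one_pow _⟩
  mul_mem' := by
    rintro x y ⟨hx, k, hk⟩ ⟨hy, l, hl⟩
    refine ⟨mul_mem hx hy, k + l, ?_⟩
    rw [mul_pow, pow_add, pow_mul, hk, one_pow, one_mul, mul_comm, pow_mul, hl, one_pow]
  inv_mem' := by
    rintro x ⟨hx, k, hk⟩
    exact ⟨inv_mem hx, k, by rw [inv_pow, hk, inv_one]⟩

end

end Run7.h403
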