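import Pool.Agent.Run7.h403.Dim

/-!
# Consecutive denominators of convergents in a sparse set of pairs
-/

set_option autoImplicit false

namespace Run7.h403.Met

open MeasureTheory Filter Set Topology

/-- consecutive convergents have determinant `± 1` -/
theorem conv_det {ξ : ℝ} (hξ : Irrational ξ) (n : ℕ) :
    (ξ.convergent n).num * (ξ.convergent (n + 1)).den - (ξ.convergent n).den * (ξ.convergent (n + 1)).num =
      (-1) ^ (n + 1) := by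
  have hnum : ∀ n, (((ξ.convergent n).num : ℤ) : ℝ) = (GenContFract.of ξ).nums n := by
    intro n
    have h1 := Pool.Agent.N220.CF.convergent_data hξ n
    have h6 := Real.convs_eq_convergent ξ n
    rw [GenContFract.conv_eq_num_div_den, ← h1] at h6
    have hq0 : (0 : ℝ) < ((ξ.convergent n).den : ℝ) := by exact_mod_cast (ξ.convergent n).den_pos
    have h3 : ((ξ.convergent n : ℚ) : ℝ) = ((ξ.convergent n).num : ℝ) / ((ξ.convergent n).den : ℝ) := by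
      exact_mod_cast (Rat.num_div_den (ξ.convergent n)).symm
    rw [h3, div_left_inj' hq0.ne'] at h6
    exact h6.symm
  have hdet := SimpContFract.determinant (s := SimpContFract.of ξ) (n := n) (Pool.Agent.N220.CF.not_term hξ n)
  have hs : ((SimpContFract.of ξ : SimpContFract ℝ) : GenContFract ℝ) = GenContFract.of ξ := rfl
  rw [hs, ← hnum n, ← hnum (n + 1), ← Pool.Agent.N220.CF.convergent_data hξ n,
    ← Pool.Agent.N220.CF.convergent_data hξ (n + 1)] at hdet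
  exact_mod_cast hdet

theorem den_mono {ξ : ℝ} (hξ : Irrational ξ) (n : ℕ) : (ξ.convergent n).den ≤ (ξ.convergent (n + 1)).den := by
  have h : ((ξ.convergent n).den : ℝ) ≤ ((ξ.convergent (n + 1)).den : ℝ) := by
    rw [Pool.Agent.N220.CF.convergent_data hξ n, Pool.Agent.N220.CF.convergent_data hξ (n + 1)]
    exact GenContFract.of_den_mono
  exact_mod_cast h

/-- the pairs `(p, q)` such that `q` and the inverse of `± p` modulo `q` form a pair of `E` -/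
def inv (E : Set (ℕ × ℕ)) : Set (ℤ × ℕ) :=
  {t | ∃ u : ℕ, (u, t.2) ∈ E ∧ 0 < u ∧ u ≤ t.2 ∧ ((t.2 : ℤ) ∣ t.1 * u - 1 ∨ (t.2 : ℤ) ∣ t.1 * u + 1)}

theorem blk_inv (E : Set (ℕ × ℕ)) (g : ℕ → ℝ)
    (hE : ∃ (C : ℝ) (j₀ : ℕ), ∀ j : ℕ, j₀ ≤ j →
      ((({p : ℕ × ℕ | (0 < p.1 ∧ p.1 ≤ 2 * 2 ^ j) ∧ (0 < p.2 ∧ p.2 ≤ 2 * 2 ^ j) ∧ p ∈ E}).ncard : ℕ) : ℝ) ≤ C * g j) :
    ∀ K : ℕ, ∃ (C : ℝ) (j₀ : ℕ), ∀ j : ℕ, j₀ ≤ j → (((blk (inv E) K j).ncard : ℕ) : ℝ) ≤ C * g j := by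
  classical
  intro K
  obtain ⟨C, j₀, hC⟩ := hE
  refine ⟨(2 * (2 * K + 1)) * C, j₀, fun j hj => ?_⟩
  obtain ⟨Sj, hSj⟩ : ∃ Sj : Set (ℕ × ℕ),
      Sj = {p : ℕ × ℕ | (0 < p.1 ∧ p.1 ≤ 2 * 2 ^ j) ∧ (0 < p.2 ∧ p.2 ≤ 2 * 2 ^ j) ∧ p ∈ E} := ⟨_, rfl⟩
  have hfin : Sj.Finite := by
    apply ((Set.finite_Icc 0 (2 * 2 ^ j)).prod (Set.finite_Icc 0 (2 * 2 ^ j))).subset
    rintro ⟨p, q⟩ h
    rw [hSj] at h
    obtain ⟨⟨h1, h2⟩, ⟨h3, h4⟩, -⟩ := h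
    exact ⟨⟨Nat.zero_le _, h2⟩, ⟨Nat.zero_le _, h4⟩⟩
  obtain ⟨u, hu⟩ : ∃ u : ℤ × ℕ → ℕ, ∀ t ∈ inv E, (u t, t.2) ∈ E ∧ 0 < u t ∧ u t ≤ t.2 ∧
      ((t.2 : ℤ) ∣ t.1 * u t - 1 ∨ (t.2 : ℤ) ∣ t.1 * u t + 1) := by
    have h : ∀ t : ℤ × ℕ, ∃ v : ℕ, t ∈ inv E → (v, t.2) ∈ E ∧ 0 < v ∧ v ≤ t.2 ∧
      ((t.2 : ℤ) ∣ t.1 * v - 1 ∨ (t.2 : ℤ) ∣ t.1 * v + 1) := by
      intro t
      by_cases ht : t ∈ inv E
      · obtain ⟨v, hv⟩ := ht
        exact ⟨v, fun _ => hv⟩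
      · exact ⟨0, fun h => absurd h ht⟩
    choose u hu using h
    exact ⟨u, hu⟩
  obtain ⟨f, hf⟩ : ∃ f : ℤ × ℕ → (ℕ × ℕ) × (Bool × ℤ), f = fun t => ((u t, t.2),
    (decide ((t.2 : ℤ) ∣ t.1 * u t - 1), t.1 / (t.2 : ℤ))) := ⟨_, rfl⟩
  have hmaps : Set.MapsTo f (blk (inv E) K j)
      (Sj ×ˢ ((Set.univ : Set Bool) ×ˢ (Set.Icc (-(K : ℤ)) K))) := by
    rintro ⟨p, q⟩ ⟨htW, hq1, hq2, hp⟩
    simp only at hq1 hq2 hp
    obtain ⟨h1, h2, h3, h4⟩ := hu _ htW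
    simp only at h1 h2 h3 h4
    have hq3 : q ≤ 2 * 2 ^ j := by rw [pow_succ] at hq2; omega
    have hq4 : 1 ≤ 2 ^ j := Nat.one_le_two_pow
    rw [hf, hSj]
    refine ⟨⟨⟨h2, h3.trans hq3⟩, ⟨by simp only; omega, hq3⟩, h1⟩, Set.mem_univ _, ?_⟩
    simp only
    have hqz : (0 : ℤ) < q := by
      have : 0 < q := by omega
      exact_mod_cast this
    have hq5 : (2 : ℤ) ^ j ≤ q := by exact_mod_cast hq1.le
    have hKq : |p| ≤ (K : ℤ) * q := hp.trans (by gcongr)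
    obtain ⟨h5, h6⟩ := abs_le.1 hKq
    rw [Set.mem_Icc]
    constructor
    · rw [Int.le_ediv_iff_mul_le hqz]
      linarith
    · apply Int.ediv_le_of_le_mul hqz
      exact h6
  have hinj : Set.InjOn f (blk (inv E) K j) := by
    rintro ⟨p, q⟩ ⟨htW, hq1, hq2, hp⟩ ⟨p', q'⟩ ⟨htW', hq1', hq2', hp'⟩ h
    rw [hf] at h
    simp only [Prod.mk.injEq, decide_eq_decide] at h
    obtain ⟨⟨h1, h2⟩, h3, h4⟩ := h
    subst h2
    obtain ⟨a1, a2, a3, a4⟩ := hu _ htW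
    obtain ⟨b1, b2, b3, b4⟩ := hu _ htW'
    simp only at a1 a2 a3 a4 b1 b2 b3 b4 hq1
    rw [← h1] at b4 h3
    obtain ⟨v, hv⟩ : ∃ v : ℤ, v = (u (p, q) : ℤ) := ⟨_, rfl⟩
    rw [← hv] at a4 b4 h3
    have h5 : (q : ℤ) ∣ (p - p') * v := by
      by_cases h6 : (q : ℤ) ∣ p * v - 1
      · have h7 := h3.1 h6
        have : (p - p') * v = (p * v - 1) - (p' * v - 1) := by ring
        rw [this]
        exact dvd_sub h6 h7
      · have h7 : ¬ (q : ℤ) ∣ p' * v - 1 := fun h => h6 (h3.2 h)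
        have h8 := a4.resolve_left h6
        have h9 := b4.resolve_left h7
        have : (p - p') * v = (p * v + 1) - (p' * v + 1) := by ring
        rw [this]
        exact dvd_sub h8 h9
    have hco : IsCoprime (q : ℤ) v := by
      rcases a4 with ⟨k, hk⟩ | ⟨k, hk⟩
      · exact ⟨-k, p, by linear_combination hk⟩
      · exact ⟨k, -p, by linear_combination -hk⟩
    have h6 : (q : ℤ) ∣ p - p' := hco.dvd_of_dvd_mul_right h5
    have h7 := Int.emod_emod_of_dvd p (dvd_refl (q : ℤ))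
    have h8 : p % (q : ℤ) = p' % (q : ℤ) := Int.emod_eq_emod_iff_emod_sub_eq_zero.2 (Int.emod_eq_zero_of_dvd h6)
    have h9 : p = p' := by
      rw [← Int.mul_ediv_add_emod p q, ← Int.mul_ediv_add_emod p' q, h4, h8]
    rw [h9]
  have hfin2 : (Sj ×ˢ ((Set.univ : Set Bool) ×ˢ (Set.Icc (-(K : ℤ)) K))).Finite :=
    hfin.prod (Set.finite_univ.prod (Set.finite_Icc _ _))
  have h := Set.ncard_le_ncard_of_injOn f hmaps hinj hfin2
  rw [Set.ncard_prod, Set.ncard_prod, Set.ncard_univ, Nat.card_eq_fintype_card] at h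
  have hI : (Set.Icc (-(K : ℤ)) K).ncard = 2 * K + 1 := by
    rw [← Finset.coe_Icc, Set.ncard_coe_finset, Int.card_Icc]
    omega
  rw [hI, Fintype.card_bool] at h
  have h1 := hC j hj
  rw [← hSj] at h1
  have h2 : (((blk (inv E) K j).ncard : ℕ) : ℝ) ≤ ((Sj.ncard : ℕ) : ℝ) * (2 * (2 * K + 1)) := by exact_mod_cast h
  have h3 : ((Sj.ncard : ℕ) : ℝ) * (2 * (2 * K + 1)) ≤ (C * g j) * (2 * (2 * K + 1)) := by gcongr
  linarith

/-- **Consecutive denominators.** -/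
theorem ae_den (E : Set (ℕ × ℕ)) (hE : ∃ (C : ℝ) (j₀ : ℕ), ∀ j : ℕ, j₀ ≤ j →
      ((({p : ℕ × ℕ | (0 < p.1 ∧ p.1 ≤ 2 * 2 ^ j) ∧ (0 < p.2 ∧ p.2 ≤ 2 * 2 ^ j) ∧ p ∈ E}).ncard : ℕ) : ℝ) ≤
        C * (4 ^ j / (j : ℝ) ^ 2)) :
    ∀ᵐ α : ℝ, ∀ᶠ n : ℕ in atTop, ((α.convergent n).den, (α.convergent (n + 1)).den) ∉ E := by
  have h1 := ae_conv (inv E) (blk_inv E (fun j => 4 ^ j / (j : ℝ) ^ 2) hE)
  have h2 : ∀ᵐ ξ : ℝ, ξ ∉ Set.range ((↑) : ℚ → ℝ) := (Set.countable_range ((↑) : ℚ → ℝ)).ae_notMem volume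
  filter_upwards [h1, h2] with α hα hirr
  filter_upwards [(tendsto_add_atTop_nat 1).eventually hα] with n hn hmem
  apply hn
  refine ⟨(α.convergent n).den, hmem, (α.convergent n).den_pos, den_mono hirr n, ?_⟩
  have hdet := conv_det hirr n
  simp only
  rcases neg_one_pow_eq_or ℤ (n + 1) with h | h
  · rw [h] at hdet
    right
    exact ⟨(α.convergent n).num, by linear_combination -hdet⟩
  · rw [h] at hdet
    left
    exact ⟨(α.convergent n).num, by linear_combination -hdet⟩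

end Run7.h403.Met
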