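import Pool.Agent.Run7.h403.Gen

/-!
# Rational approximations in a sparse set: Hausdorff dimension
-/

set_option autoImplicit false

namespace Run7.h403.Met

open MeasureTheory Filter Set Topology

/-- the elements with denominator at most `X` and bounded slope -/
def cum (W : Set (ℤ × ℕ)) (K : ℕ) (X : ℝ) : Set (ℤ × ℕ) :=
  {t | t ∈ W ∧ 0 < t.2 ∧ (t.2 : ℝ) ≤ X ∧ |t.1| ≤ (K : ℤ) * t.2}

theorem cum_finite (W : Set (ℤ × ℕ)) (K : ℕ) (X : ℝ) : (cum W K X).Finite := by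
  apply ((Set.finite_Icc (-((K : ℤ) * ⌊X⌋₊)) ((K : ℤ) * ⌊X⌋₊)).prod (Set.finite_Icc 0 ⌊X⌋₊)).subset
  rintro ⟨p, q⟩ ⟨-, h0, h1, h2⟩
  simp only at h0 h1 h2
  have h3 : q ≤ ⌊X⌋₊ := Nat.le_floor h1
  have h4 : |p| ≤ (K : ℤ) * ⌊X⌋₊ := by
    refine h2.trans ?_
    have : (q : ℤ) ≤ ⌊X⌋₊ := by exact_mod_cast h3
    gcongr
  rw [Set.mem_prod, Set.mem_Icc, Set.mem_Icc]
  exact ⟨abs_le.1 h4, Nat.zero_le _, h3⟩

theorem cum_count (W : Set (ℤ × ℕ)) {η : ℝ} (hη0 : 0 ≤ η) (hη : η ≤ 1)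
    (hW : ∀ K : ℕ, ∃ (C : ℝ) (j₀ : ℕ), ∀ j : ℕ, j₀ ≤ j →
      (((blk W K j).ncard : ℕ) : ℝ) ≤ C * ((2 : ℝ) ^ j) ^ (2 - η)) (K : ℕ) :
    ∃ C : ℝ, 0 ≤ C ∧ ∀ X : ℝ, 1 ≤ X → (((cum W K X).ncard : ℕ) : ℝ) ≤ C * X ^ (2 - η) := by
  obtain ⟨C, j₀, hC⟩ := hW (2 * K)
  obtain ⟨C₁, hC₁⟩ : ∃ C₁ : ℝ, C₁ = (((cum W K (2 ^ j₀)).ncard : ℕ) : ℝ) := ⟨_, rfl⟩
  have hC₁0 : 0 ≤ C₁ := by rw [hC₁]; exact Nat.cast_nonneg _
  have hr : ∀ J : ℕ, 2 * ((2 : ℝ) ^ J) ^ (2 - η) ≤ ((2 : ℝ) ^ (J + 1)) ^ (2 - η) := by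
    intro J
    rw [pow_succ (2 : ℝ) J, mul_comm ((2 : ℝ) ^ J) 2, Real.mul_rpow (by norm_num) (by positivity)]
    have h1 : (2 : ℝ) ≤ 2 ^ (2 - η) := by
      calc (2 : ℝ) = 2 ^ (1 : ℝ) := (Real.rpow_one 2).symm
        _ ≤ 2 ^ (2 - η) := Real.rpow_le_rpow_of_exponent_le (by norm_num) (by linarith)
    gcongr
  have hind : ∀ J : ℕ, j₀ ≤ J → (((cum W K (2 ^ J)).ncard : ℕ) : ℝ) ≤ C₁ + |C| * ((2 : ℝ) ^ J) ^ (2 - η) := by
    intro J hJ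
    induction J, hJ using Nat.le_induction with
    | base =>
      rw [← hC₁]
      have : 0 ≤ |C| * ((2 : ℝ) ^ j₀) ^ (2 - η) := by positivity
      linarith
    | succ J hJ ih =>
      have hsub : cum W K (2 ^ (J + 1)) ⊆ cum W K (2 ^ J) ∪ blk W (2 * K) J := by
        rintro ⟨p, q⟩ ⟨h1, h2, h3, h4⟩
        simp only at h2 h3 h4
        rcases le_or_gt (q : ℝ) (2 ^ J) with h | h
        · left
          exact ⟨h1, h2, h, h4⟩
        · right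
          refine ⟨h1, ?_, ?_, ?_⟩
          · simp only
            exact_mod_cast h
          · simp only
            exact_mod_cast h3
          · simp only
            refine h4.trans ?_
            have h5 : q ≤ 2 ^ (J + 1) := by exact_mod_cast h3
            have h6 : (q : ℤ) ≤ 2 * 2 ^ J := by
              have : q ≤ 2 * 2 ^ J := by rw [pow_succ] at h5; omega
              exact_mod_cast this
            calc (K : ℤ) * q ≤ K * (2 * 2 ^ J) := by gcongr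
              _ = ((2 * K : ℕ) : ℤ) * 2 ^ J := by push_cast; ring
      have h1 := (Set.ncard_le_ncard hsub ((cum_finite W K _).union (blk_finite W _ J))).trans (Set.ncard_union_le _ _)
      have h2 : (((cum W K (2 ^ (J + 1))).ncard : ℕ) : ℝ) ≤
          (((cum W K (2 ^ J)).ncard : ℕ) : ℝ) + (((blk W (2 * K) J).ncard : ℕ) : ℝ) := by exact_mod_cast h1
      have h3 := hC J hJ
      have h4 : C * ((2 : ℝ) ^ J) ^ (2 - η) ≤ |C| * ((2 : ℝ) ^ J) ^ (2 - η) := by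
        gcongr
        exact le_abs_self C
      have h5 := mul_le_mul_of_nonneg_left (hr J) (abs_nonneg C)
      linarith
  refine ⟨C₁ + 4 * |C|, by positivity, fun X hX => ?_⟩
  obtain ⟨J, hJ⟩ : ∃ J, J = Nat.log 2 ⌊X⌋₊ + 1 := ⟨_, rfl⟩
  have hX0 : (0 : ℝ) < X := by linarith
  have hXf : ⌊X⌋₊ ≠ 0 := by
    have : 1 ≤ ⌊X⌋₊ := Nat.le_floor (by exact_mod_cast hX)
    omega
  have h1 : (2 : ℝ) ^ J ≤ 2 * X := by
    have h := Nat.pow_log_le_self 2 hXf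
    rw [hJ, pow_succ]
    have h' : ((2 : ℝ) ^ Nat.log 2 ⌊X⌋₊) ≤ (⌊X⌋₊ : ℝ) := by exact_mod_cast h
    have h'' := Nat.floor_le hX0.le
    linarith
  have h2 : X ≤ (2 : ℝ) ^ J := by
    have h := Nat.lt_pow_succ_log_self (b := 2) (by norm_num) ⌊X⌋₊
    have h' : ⌊X⌋₊ + 1 ≤ 2 ^ J := by
      rw [hJ]
      exact h
    have h'' := (Nat.lt_floor_add_one X).le
    have h3 : ((⌊X⌋₊ : ℝ) + 1) ≤ 2 ^ J := by exact_mod_cast h'
    linarith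
  have h3 : cum W K X ⊆ cum W K (2 ^ J) := by
    rintro ⟨p, q⟩ ⟨a1, a2, a3, a4⟩
    exact ⟨a1, a2, a3.trans h2, a4⟩
  have h4 : (((cum W K (2 ^ J)).ncard : ℕ) : ℝ) ≤ C₁ + |C| * ((2 : ℝ) ^ J) ^ (2 - η) := by
    rcases le_or_gt j₀ J with h | h
    · exact hind J h
    · have h5 : cum W K (2 ^ J) ⊆ cum W K (2 ^ j₀) := by
        rintro ⟨p, q⟩ ⟨a1, a2, a3, a4⟩
        exact ⟨a1, a2, a3.trans (pow_le_pow_right₀ (by norm_num) h.le), a4⟩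
      have h6 : (((cum W K (2 ^ J)).ncard : ℕ) : ℝ) ≤ C₁ := by
        rw [hC₁]
        exact_mod_cast Set.ncard_le_ncard h5 (cum_finite W K _)
      have : 0 ≤ |C| * ((2 : ℝ) ^ J) ^ (2 - η) := by positivity
      linarith
  have h5 : (((cum W K X).ncard : ℕ) : ℝ) ≤ (((cum W K (2 ^ J)).ncard : ℕ) : ℝ) := by
    exact_mod_cast Set.ncard_le_ncard h3 (cum_finite W K _)
  have h6 : ((2 : ℝ) ^ J) ^ (2 - η) ≤ 4 * X ^ (2 - η) := by
    calc ((2 : ℝ) ^ J) ^ (2 - η) ≤ (2 * X) ^ (2 - η) := Real.rpow_le_rpow (by positivity) h1 (by linarith)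
      _ = 2 ^ (2 - η) * X ^ (2 - η) := Real.mul_rpow (by norm_num) hX0.le
      _ ≤ 2 ^ (2 : ℝ) * X ^ (2 - η) := by
          gcongr
          · norm_num
          · linarith
      _ = 4 * X ^ (2 - η) := by norm_num
  have h7 : 1 ≤ X ^ (2 - η) := Real.one_le_rpow hX (by linarith)
  have h8 := mul_le_mul_of_nonneg_left h6 (abs_nonneg C)
  have h9 := mul_le_mul_of_nonneg_left h7 hC₁0
  calc (((cum W K X).ncard : ℕ) : ℝ) ≤ C₁ + |C| * ((2 : ℝ) ^ J) ^ (2 - η) := h5.trans h4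
    _ ≤ C₁ * X ^ (2 - η) + |C| * (4 * X ^ (2 - η)) := by linarith
    _ = (C₁ + 4 * |C|) * X ^ (2 - η) := by ring

theorem dim_core (W : Set (ℤ × ℕ)) {η τ : ℝ} (hη0 : 0 ≤ η) (hη : η ≤ 1) (hτ : 0 ≤ τ)
    (hW : ∀ K : ℕ, ∃ (C : ℝ) (j₀ : ℕ), ∀ j : ℕ, j₀ ≤ j →
      (((blk W K j).ncard : ℕ) : ℝ) ≤ C * ((2 : ℝ) ^ j) ^ (2 - η)) (γ : ℝ) (R c : ℕ) :
    dimH {α : ℝ | |α| ≤ R ∧ {t : ℤ × ℕ | t ∈ W ∧ 0 < t.2 ∧
      |t.2 * α - t.1 - γ| ≤ c * (t.2 : ℝ) ^ (-τ)}.Infinite} ≤ ENNReal.ofReal ((2 - η) / (1 + τ)) := by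
  apply ENNReal.le_of_forall_pos_le_add
  intro ε hε _
  have hε' : (0 : ℝ) < ε := by exact_mod_cast hε
  have h1τ : 0 < 1 + τ := by linarith
  have h2η : 0 < 2 - η := by linarith
  rw [← ENNReal.ofReal_coe_nnreal (p := ε), ← ENNReal.ofReal_add (by positivity) hε'.le]
  set D : ℝ := (2 - η) / (1 + τ) + ε with hD
  have hD0 : 0 < D := by positivity
  have hDτ : (1 + τ) * D = 2 - η + ε * (1 + τ) := by
    rw [hD]
    field_simp
  obtain ⟨K, hK⟩ := exists_nat_ge ((R : ℝ) + |γ| + c)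
  obtain ⟨C, hC0, hC⟩ := cum_count W hη0 hη hW K
  set ι : Type := {t : ℤ × ℕ // t ∈ W ∧ 0 < t.2 ∧ |t.1| ≤ (K : ℤ) * t.2} with hι
  have hpos : ∀ t : ι, (1 : ℝ) ≤ (t.1.2 : ℝ) := fun t => by exact_mod_cast t.2.2.1
  set U : ι → Set ℝ := fun t => {α | |(t.1.2 : ℝ) * α - t.1.1 - γ| ≤ c * (t.1.2 : ℝ) ^ (-τ)} with hU
  have h1 := Pool.Agent.R479.DB.dimH_limsup U (fun t => (2 * c + 1) * (t.1.2 : ℝ) ^ (-(1 + τ))) (fun t => by
      have := hpos t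
      positivity) (fun t => by
        have ht := hpos t
        have ht0 : (0 : ℝ) < (t.1.2 : ℝ) := by linarith
        refine Metric.ediam_le fun x hx y hy => ?_
        rw [edist_dist]
        apply ENNReal.ofReal_le_ofReal
        rw [Real.dist_eq]
        have a1 : |(t.1.2 : ℝ) * x - t.1.1 - γ| ≤ c * (t.1.2 : ℝ) ^ (-τ) := hx
        have a2 : |(t.1.2 : ℝ) * y - t.1.1 - γ| ≤ c * (t.1.2 : ℝ) ^ (-τ) := hy
        have a3 : |(t.1.2 : ℝ) * (x - y)| ≤ 2 * c * (t.1.2 : ℝ) ^ (-τ) := by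
          have : (t.1.2 : ℝ) * (x - y) = ((t.1.2 : ℝ) * x - t.1.1 - γ) - ((t.1.2 : ℝ) * y - t.1.1 - γ) := by ring
          rw [this]
          refine (abs_sub _ _).trans ?_
          linarith
        rw [abs_mul, abs_of_pos ht0] at a3
        have a4 : (t.1.2 : ℝ) ^ (-(1 + τ)) = (t.1.2 : ℝ) ^ (-τ) / t.1.2 := by
          rw [show -(1 + τ) = -τ - 1 by ring, Real.rpow_sub_one ht0.ne']
        rw [a4]
        have a5 : |x - y| ≤ 2 * c * (t.1.2 : ℝ) ^ (-τ) / t.1.2 := by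
          rw [le_div_iff₀ ht0]
          linarith
        refine a5.trans ?_
        rw [mul_div_assoc]
        have : 0 ≤ (t.1.2 : ℝ) ^ (-τ) / t.1.2 := by positivity
        nlinarith) hD0 (by
      have h2 := Pool.Agent.R479.DA.summable_heights (ι := ι) (fun t => (t.1.2 : ℝ)) hpos
        (s := 2 - η) (p := (1 + τ) * D) (C := C)
        (by rw [hDτ]; nlinarith [mul_pos hε' h1τ]) (by positivity) (by
          intro X hX
          have hmaps : Set.MapsTo (Subtype.val : ι → ℤ × ℕ) {t | (t.1.2 : ℝ) ≤ X} (cum W K X) := by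
            intro t ht
            exact ⟨t.2.1, t.2.2.1, ht, t.2.2.2⟩
          have hinj : Set.InjOn (Subtype.val : ι → ℤ × ℕ) {t | (t.1.2 : ℝ) ≤ X} :=
            Subtype.val_injective.injOn
          have hfin : {t : ι | (t.1.2 : ℝ) ≤ X}.Finite := (cum_finite W K X).of_injOn hmaps hinj
          refine ⟨hfin, ?_⟩
          have h3 := Set.ncard_le_ncard_of_injOn _ hmaps hinj (cum_finite W K X)
          refine le_trans ?_ (hC X hX)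
          exact_mod_cast h3)
      refine (h2.mul_left (((2 * c + 1 : ℝ)) ^ D)).congr fun t => ?_
      have ht := hpos t
      have ht0 : (0 : ℝ) < (t.1.2 : ℝ) := by linarith
      rw [Real.mul_rpow (by positivity) (by positivity), ← Real.rpow_mul ht0.le]
      congr 2
      ring)
  refine le_trans (dimH_mono ?_) h1
  rintro α ⟨hα, hα2⟩
  simp only [Set.mem_ofPred_eq]
  intro hfin
  apply hα2
  have hf2 := hfin.image (fun t : ι => t.1)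
  refine hf2.subset ?_
  rintro ⟨p, q⟩ ⟨hqP, h0, hq⟩
  simp only at h0 hq
  have hq1 : (1 : ℝ) ≤ q := by exact_mod_cast h0
  have hqτ : (q : ℝ) ^ (-τ) ≤ 1 := Real.rpow_le_one_of_one_le_of_nonpos hq1 (by linarith)
  have e8 : (0 : ℝ) ≤ c := Nat.cast_nonneg c
  have e9 : (0 : ℝ) ≤ R := Nat.cast_nonneg R
  have e7 := abs_nonneg γ
  have e6 : |(p : ℝ)| ≤ q * R + |γ| + c := by
    have e4 : (p : ℝ) = q * α - γ - ((q : ℝ) * α - p - γ) := by ring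
    have e5 : (c : ℝ) * (q : ℝ) ^ (-τ) ≤ c := by nlinarith
    rw [e4]
    refine (abs_sub _ _).trans ?_
    have : |(q : ℝ) * α - γ| ≤ q * R + |γ| := by
      refine (abs_sub _ _).trans ?_
      rw [abs_mul, abs_of_nonneg (by linarith : (0 : ℝ) ≤ q)]
      gcongr
    linarith
  have e10 : |(p : ℝ)| ≤ K * q := by
    calc |(p : ℝ)| ≤ (q : ℝ) * R + |γ| + c := e6
      _ ≤ q * R + q * |γ| + q * c := by nlinarith
      _ = (R + |γ| + c) * q := by ring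
      _ ≤ K * q := by gcongr
  refine ⟨⟨(p, q), hqP, h0, by exact_mod_cast e10⟩, hq, rfl⟩

/-- **Hausdorff dimension.** -/
theorem dim_finite (W : Set (ℤ × ℕ)) {η τ : ℝ} (hη0 : 0 ≤ η) (hη : η ≤ 1) (hτ : 0 ≤ τ)
    (hW : ∀ K : ℕ, ∃ (C : ℝ) (j₀ : ℕ), ∀ j : ℕ, j₀ ≤ j →
      (((blk W K j).ncard : ℕ) : ℝ) ≤ C * ((2 : ℝ) ^ j) ^ (2 - η)) (γ : ℝ) :
    dimH {α : ℝ | ∃ c : ℝ, {t : ℤ × ℕ | t ∈ W ∧ 0 < t.2 ∧
      |t.2 * α - t.1 - γ| ≤ c * (t.2 : ℝ) ^ (-τ)}.Infinite} ≤ ENNReal.ofReal ((2 - η) / (1 + τ)) := by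
  have hsub : {α : ℝ | ∃ c : ℝ, {t : ℤ × ℕ | t ∈ W ∧ 0 < t.2 ∧
      |t.2 * α - t.1 - γ| ≤ c * (t.2 : ℝ) ^ (-τ)}.Infinite} ⊆ ⋃ (R : ℕ) (c : ℕ), {α : ℝ | |α| ≤ R ∧
      {t : ℤ × ℕ | t ∈ W ∧ 0 < t.2 ∧ |t.2 * α - t.1 - γ| ≤ c * (t.2 : ℝ) ^ (-τ)}.Infinite} := by
    rintro α ⟨c, hc⟩
    obtain ⟨R, hR⟩ := exists_nat_ge |α|
    obtain ⟨c', hc'⟩ := exists_nat_ge c
    refine Set.mem_iUnion.2 ⟨R, Set.mem_iUnion.2 ⟨c', hR, ?_⟩⟩
    refine hc.mono ?_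
    rintro t ⟨h1, h2, h3⟩
    refine ⟨h1, h2, h3.trans ?_⟩
    gcongr
  refine (dimH_mono hsub).trans ?_
  rw [dimH_iUnion]
  refine iSup_le fun R => ?_
  rw [dimH_iUnion]
  exact iSup_le fun c => dim_core W hη0 hη hτ hW γ R c

end Run7.h403.Met
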