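import Mathlib

/-!
# The local condition: `V_p(t) ≡ t mod p ^ 2`
-/

set_option autoImplicit false

namespace Run7.h403.Local

open Polynomial

/-- the Dickson polynomial at an integer: `V_n(x + x⁻¹) = x ^ n + x ^ (-n)` -/
noncomputable def V (n : ℕ) (t : ℤ) : ℤ := (dickson 1 (1 : ℤ) n).eval t

lemma cast_V {R : Type*} [CommRing R] (n : ℕ) (t : ℤ) {x y : R} (hxy : x * y = 1)
    (ht : x + y = (t : R)) : ((V n t : ℤ) : R) = x ^ n + y ^ n := by
  have h3 := dickson_one_one_eval_add_inv x y hxy n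
  rw [ht] at h3
  rw [← h3, V]
  have := (Polynomial.eval_intCast_map (Int.castRingHom R) (dickson 1 (1 : ℤ) n) t)
  rw [map_dickson] at this
  simpa using this.symm

/-- **Local criterion.** -/
lemma unit_cong {R : Type*} [CommRing R] {p : ℕ} (hp : p.Prime) {t : ℤ} {x y : R}
    (hxy : x * y = 1) (ht : x + y = (t : R)) (h1 : (p : ℤ) ^ 2 ∣ V p t - t)
    (h2 : ¬ (p : ℤ) ∣ t ^ 2 - 4) : (p : R) ^ 2 ∣ x ^ (p ^ 2 - 1) - 1 := by
  have h3 : (p : R) ^ 2 ∣ x ^ p + y ^ p - x - y := by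
    obtain ⟨k, hk⟩ := h1
    have := congrArg (fun z : ℤ => (z : R)) hk
    push_cast at this
    rw [cast_V p t hxy ht, ← ht] at this
    exact ⟨k, by linear_combination this⟩
  have hp1 : 1 ≤ p := hp.pos
  have hyp : ∀ n : ℕ, x ^ n * y ^ n = 1 := fun n => by rw [← mul_pow, hxy, one_pow]
  have e1 : x ^ p = x * x ^ (p - 1) := by rw [← pow_succ']; congr 1; omega
  have h4 : (p : R) ^ 2 ∣ (x ^ (p - 1) - 1) * (x ^ (p + 1) - 1) := by
    have e2 : (x ^ (p - 1) - 1) * (x ^ (p + 1) - 1)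
        = y * x ^ (p + 1) * (x ^ p + y ^ p - x - y) := by
      have e3 : y * x ^ (p + 1) * y ^ p = 1 := by
        have := hyp (p + 1)
        rw [pow_succ y] at this
        linear_combination this
      have e4 : y * x ^ (p + 1) = x ^ p := by
        rw [pow_succ]
        linear_combination x ^ p * hxy
      have e5 : x ^ (p + 1) = x * x * x ^ (p - 1) := by rw [pow_succ, e1]; ring
      have e6 : y * x ^ (p + 1) * y = x ^ (p - 1) := by
        rw [e5]
        linear_combination (x ^ (p - 1) * (x * y + 1)) * hxy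
      calc (x ^ (p - 1) - 1) * (x ^ (p + 1) - 1)
          = x ^ (p - 1) * x ^ (p + 1) - x ^ (p - 1) - x ^ (p + 1) + 1 := by ring
        _ = x ^ p * x ^ p - x ^ (p - 1) - x ^ p * x + 1 := by
            rw [← pow_add, ← pow_add, show p - 1 + (p + 1) = p + p by omega, ← pow_succ]
        _ = y * x ^ (p + 1) * x ^ p + y * x ^ (p + 1) * y ^ p - y * x ^ (p + 1) * x
              - y * x ^ (p + 1) * y := by
            rw [e3, e6, e4]; ring
        _ = _ := by ring
    rw [e2]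
    exact Dvd.dvd.mul_left h3 _
  have hexp : p ^ 2 - 1 = (p - 1) * (p + 1) := by
    have : p ^ 2 - 1 = p ^ 2 - 1 ^ 2 := by simp
    rw [this, Nat.sq_sub_sq, mul_comm]
  have h5 : x ^ (p - 1) - 1 ∣ x ^ (p ^ 2 - 1) - 1 := by
    rw [hexp, pow_mul]
    have := sub_dvd_pow_sub_pow (x ^ (p - 1)) 1 (p + 1)
    rwa [one_pow] at this
  have h6 : x ^ (p + 1) - 1 ∣ x ^ (p ^ 2 - 1) - 1 := by
    rw [hexp, mul_comm, pow_mul]
    have := sub_dvd_pow_sub_pow (x ^ (p + 1)) 1 (p - 1)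
    rwa [one_pow] at this
  obtain ⟨α, hα⟩ := h5
  obtain ⟨β, hβ⟩ := h6
  obtain ⟨c, hc⟩ := h4
  set Z := x ^ (p ^ 2 - 1) - 1 with hZ
  have h7 : ((x ^ (p + 1) - 1) - (x ^ (p - 1) - 1)) * Z = (p : R) ^ 2 * (c * (α - β)) := by
    have : ((x ^ (p + 1) - 1) - (x ^ (p - 1) - 1)) * Z
        = (x ^ (p + 1) - 1) * Z - (x ^ (p - 1) - 1) * Z := by ring
    rw [this]
    nth_rewrite 1 [hα]
    nth_rewrite 1 [hβ]
    linear_combination (α - β) * hc
  have h8 : (x ^ (p + 1) - 1) - (x ^ (p - 1) - 1) = x ^ p * (x - y) := by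
    have e5 : x ^ (p + 1) = x ^ p * x := pow_succ _ _
    rw [e5, e1]
    linear_combination (x ^ (p - 1)) * hxy
  have h9 : ((t ^ 2 - 4 : ℤ) : R) * Z = (p : R) ^ 2 * ((x - y) * y ^ p * (c * (α - β))) := by
    have e7 : ((t ^ 2 - 4 : ℤ) : R) = (x - y) * (x - y) := by
      push_cast
      rw [← ht]
      linear_combination 4 * hxy
    rw [e7]
    rw [h8] at h7
    have e8 := hyp p
    linear_combination (x - y) * y ^ p * h7 - (x - y) * (x - y) * Z * e8
  have h10 : IsCoprime ((p : R) ^ 2) ((t ^ 2 - 4 : ℤ) : R) := by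
    have h11 : IsCoprime ((p : ℤ) ^ 2) (t ^ 2 - 4) := by
      apply IsCoprime.pow_left
      exact (Nat.prime_iff_prime_int.mp hp).coprime_iff_not_dvd.mpr h2
    have := h11.map (Int.castRingHom R)
    simpa using this
  exact h10.dvd_of_dvd_mul_left ⟨_, h9⟩

/-- `V_p(t) = t ^ p + p g(t)` with an integral polynomial `g` -/
lemma exists_poly {p : ℕ} (hp : p.Prime) :
    ∃ g : ℤ[X], dickson 1 (1 : ℤ) p = X ^ p + C (p : ℤ) * g := by
  have : Fact p.Prime := ⟨hp⟩
  have h1 : (dickson 1 (1 : ℤ) p - X ^ p).map (Int.castRingHom (ZMod p)) = 0 := by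
    rw [Polynomial.map_sub, map_dickson, Polynomial.map_pow, Polynomial.map_X, map_one,
      dickson_one_one_zmod_p, sub_self]
  have h2 : C (p : ℤ) ∣ dickson 1 (1 : ℤ) p - X ^ p := by
    rw [Polynomial.C_dvd_iff_dvd_coeff]
    intro i
    have h3 := congrArg (fun f : (ZMod p)[X] => f.coeff i) h1
    simp only [coeff_map, coeff_zero] at h3
    exact (ZMod.intCast_zmod_eq_zero_iff_dvd _ _).mp (by simpa using h3)
  obtain ⟨g, hg⟩ := h2
  exact ⟨g, by rw [← hg]; ring⟩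

lemma V_mod {p : ℕ} (hp : p.Prime) (t : ℤ) : (p : ℤ) ∣ V p t - t := by
  obtain ⟨g, hg⟩ := exists_poly hp
  have : Fact p.Prime := ⟨hp⟩
  have h1 : V p t - t = (t ^ p - t) + p * g.eval t := by
    rw [V, hg]; simp; ring
  rw [h1]
  apply dvd_add _ (dvd_mul_right _ _)
  rw [← ZMod.intCast_zmod_eq_zero_iff_dvd]
  push_cast
  rw [ZMod.pow_card, sub_self]

lemma V_sq {p : ℕ} (hp : p.Prime) {t t' : ℤ} (h : (p : ℤ) ∣ t - t') :
    (p : ℤ) ^ 2 ∣ V p t - V p t' := by
  obtain ⟨g, hg⟩ := exists_poly hp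
  have h1 : V p t - V p t' = (t ^ p - t' ^ p) + p * (g.eval t - g.eval t') := by
    rw [V, V, hg]; simp; ring
  rw [h1]
  apply dvd_add
  · have := dvd_sub_pow_of_dvd_sub h 1
    simpa using this
  · rw [pow_two]
    exact mul_dvd_mul_left _ (h.trans (Polynomial.sub_dvd_eval_sub t t' g))

/-- the exceptional classes modulo `p ^ 2` -/
noncomputable def Bad (p : ℕ) : Finset ℕ := by
  classical
  exact (Finset.range (p ^ 2)).filter
    (fun r => (p : ℤ) ^ 2 ∣ V p r - r ∧ ¬ (p : ℤ) ∣ (r : ℤ) ^ 2 - 4)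

lemma mem_Bad {p r : ℕ} : r ∈ Bad p ↔ r < p ^ 2 ∧ (p : ℤ) ^ 2 ∣ V p r - r ∧
    ¬ (p : ℤ) ∣ (r : ℤ) ^ 2 - 4 := by
  classical
  simp [Bad]

lemma of_mod_mem {p : ℕ} (hp : p.Prime) {t : ℕ} (h : t % p ^ 2 ∈ Bad p) :
    (p : ℤ) ^ 2 ∣ V p t - t ∧ ¬ (p : ℤ) ∣ (t : ℤ) ^ 2 - 4 := by
  obtain ⟨_, h1, h2⟩ := mem_Bad.mp h
  have h3 : (p : ℤ) ^ 2 ∣ (t : ℤ) - ((t % p ^ 2 : ℕ) : ℤ) := by
    have := Nat.mod_add_div t (p ^ 2)
    refine ⟨((t / p ^ 2 : ℕ) : ℤ), ?_⟩
    have h4 : (t : ℤ) = ((t % p ^ 2 : ℕ) : ℤ) + (p : ℤ) ^ 2 * ((t / p ^ 2 : ℕ) : ℤ) := by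
      exact_mod_cast this.symm
    linear_combination h4
  have h4 : (p : ℤ) ∣ (t : ℤ) - ((t % p ^ 2 : ℕ) : ℤ) := (dvd_pow_self _ (by norm_num)).trans h3
  constructor
  · have h5 := V_sq hp h4
    have : V p t - t = (V p t - V p ((t % p ^ 2 : ℕ) : ℤ)) +
        (V p ((t % p ^ 2 : ℕ) : ℤ) - ((t % p ^ 2 : ℕ) : ℤ)) - (t - ((t % p ^ 2 : ℕ) : ℤ)) := by ring
    rw [this]
    exact dvd_sub (dvd_add h5 h1) h3
  · intro h5
    apply h2
    have : (((t % p ^ 2 : ℕ) : ℤ)) ^ 2 - 4 = ((t : ℤ) ^ 2 - 4) -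
        (t - ((t % p ^ 2 : ℕ) : ℤ)) * (t + ((t % p ^ 2 : ℕ) : ℤ)) := by ring
    rw [this]
    exact dvd_sub h5 (Dvd.dvd.mul_right h4 _)

lemma card_Bad_le (p : ℕ) : (Bad p).card ≤ p ^ 2 := by
  classical
  rw [Bad]
  exact (Finset.card_filter_le _ _).trans (by simp)

/-- there are at least `p - 2` exceptional classes -/
lemma le_card_Bad {p : ℕ} (hp : p.Prime) (hp2 : p ≠ 2) : p - 2 ≤ (Bad p).card := by
  classical
  have hp3 : 3 ≤ p := by have := hp.two_le; omega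
  have hppos : (0 : ℤ) < (p : ℤ) ^ 2 := by positivity
  set A : Finset ℕ := ((Finset.range p).erase 2).erase (p - 2) with hA
  have hAcard : p - 2 ≤ A.card := by
    have h1 := Finset.pred_card_le_card_erase (s := Finset.range p) (a := 2)
    have h2 := Finset.pred_card_le_card_erase (s := (Finset.range p).erase 2) (a := p - 2)
    rw [Finset.card_range] at h1
    rw [hA]
    omega
  refine hAcard.trans ?_
  set f : ℕ → ℕ := fun a => ((V p a) % ((p : ℤ) ^ 2)).toNat with hf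
  have hfz : ∀ a : ℕ, ((f a : ℕ) : ℤ) = (V p a) % ((p : ℤ) ^ 2) := fun a =>
    Int.toNat_of_nonneg (Int.emod_nonneg _ hppos.ne')
  have hfV : ∀ a : ℕ, (p : ℤ) ^ 2 ∣ (f a : ℤ) - V p a := by
    intro a
    rw [hfz]
    refine ⟨-(V p a / (p : ℤ) ^ 2), ?_⟩
    have := Int.emod_add_mul_ediv (V p a) ((p : ℤ) ^ 2)
    linear_combination this
  have hfa : ∀ a : ℕ, (p : ℤ) ∣ (f a : ℤ) - a := by
    intro a
    have h1 := (dvd_pow_self (p : ℤ) (two_ne_zero)).trans (hfV a)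
    have h2 := V_mod hp (a : ℤ)
    have : (f a : ℤ) - a = ((f a : ℤ) - V p a) + (V p a - a) := by ring
    rw [this]
    exact dvd_add h1 h2
  apply Finset.card_le_card_of_injOn f
  · intro a ha
    rw [Finset.mem_coe, hA, Finset.mem_erase, Finset.mem_erase, Finset.mem_range] at ha
    obtain ⟨ha1, ha2, ha3⟩ := ha
    rw [Finset.mem_coe, mem_Bad]
    refine ⟨?_, ?_, ?_⟩
    · have h1 : ((f a : ℕ) : ℤ) < (p : ℤ) ^ 2 := by
        rw [hfz]; exact Int.emod_lt_of_pos _ hppos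
      exact_mod_cast h1
    · have h1 := V_sq hp (hfa a)
      have : V p (f a) - (f a : ℤ) = (V p (f a) - V p a) - ((f a : ℤ) - V p a) := by ring
      rw [this]
      exact dvd_sub h1 (hfV a)
    · intro h1
      have h2 : (p : ℤ) ∣ (a : ℤ) ^ 2 - 4 := by
        have : (a : ℤ) ^ 2 - 4 = ((f a : ℤ) ^ 2 - 4) - ((f a : ℤ) - a) * ((f a : ℤ) + a) := by ring
        rw [this]
        exact dvd_sub h1 (Dvd.dvd.mul_right (hfa a) _)
      have h3 : (a : ℤ) ^ 2 - 4 = ((a : ℤ) - 2) * ((a : ℤ) + 2) := by ring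
      rw [h3] at h2
      rcases (Nat.prime_iff_prime_int.mp hp).dvd_or_dvd h2 with h4 | h4
      · obtain ⟨k, hk⟩ := h4
        have hp0 : (0 : ℤ) < p := by exact_mod_cast hp.pos
        have : k = 0 := by
          have h5 : (p : ℤ) * k < p := by rw [← hk]; omega
          have h6 : -(p : ℤ) < p * k := by rw [← hk]; omega
          have h7 : k < 1 := by nlinarith
          have h8 : -1 < k := by nlinarith
          omega
        rw [this] at hk
        omega
      · obtain ⟨k, hk⟩ := h4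
        have hp0 : (0 : ℤ) < p := by exact_mod_cast hp.pos
        have : k = 1 := by
          have h5 : (p : ℤ) * k < 2 * p := by rw [← hk]; omega
          have h6 : 0 < (p : ℤ) * k := by rw [← hk]; omega
          have h7 : k < 2 := by nlinarith
          have h8 : 0 < k := by nlinarith
          omega
        rw [this] at hk
        omega
  · intro a ha b hb hab
    rw [Finset.mem_coe, hA, Finset.mem_erase, Finset.mem_erase, Finset.mem_range] at ha hb
    have h1 : (p : ℤ) ∣ (a : ℤ) - b := by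
      have h2 := hfa a
      have h3 := hfa b
      have h4 : (f a : ℤ) = f b := by rw [show f a = f b from hab]
      rw [h4] at h2
      have : (a : ℤ) - b = ((f b : ℤ) - b) - ((f b : ℤ) - a) := by ring
      rw [this]
      exact dvd_sub h3 h2
    obtain ⟨k, hk⟩ := h1
    have hp0 : (0 : ℤ) < p := by exact_mod_cast hp.pos
    have : k = 0 := by
      have h5 : (p : ℤ) * k < p := by rw [← hk]; omega
      have h6 : -(p : ℤ) < p * k := by rw [← hk]; omega
      have h7 : k < 1 := by nlinarith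
      have h8 : -1 < k := by nlinarith
      omega
    rw [this] at hk
    omega

end Run7.h403.Local
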