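import Mathlib

/-!
# The Lucas sequence `U_n(t)`, `U_0 = 0`, `U_1 = 1`, `U_{n + 2} = t U_{n + 1} - U_n`
-/

set_option autoImplicit false

namespace Run7.h403.Lucas

/-- the Lucas sequence -/
def U (t : ℤ) : ℕ → ℤ
  | 0 => 0
  | 1 => 1
  | (n + 2) => t * U t (n + 1) - U t n

lemma U_zero (t : ℤ) : U t 0 = 0 := rfl
lemma U_one (t : ℤ) : U t 1 = 1 := rfl
lemma U_add_two (t : ℤ) (n : ℕ) : U t (n + 2) = t * U t (n + 1) - U t n := rfl

lemma sub_mul_U {R : Type*} [CommRing R] {t : ℤ} {x y : R} (hxy : x * y = 1)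
    (ht : x + y = (t : R)) (n : ℕ) : (x - y) * (U t n : R) = x ^ n - y ^ n ∧
      (x - y) * (U t (n + 1) : R) = x ^ (n + 1) - y ^ (n + 1) := by
  induction n with
  | zero => simp [U_zero, U_one]
  | succ n ih =>
    refine ⟨ih.2, ?_⟩
    rw [show n + 1 + 1 = n + 2 from rfl, U_add_two]
    push_cast
    rw [← ht]
    linear_combination (x + y) * ih.2 - ih.1 + (x ^ n - y ^ n) * hxy

lemma U_pos {t : ℤ} (ht : 3 ≤ t) (n : ℕ) : 0 ≤ U t n ∧ U t n < U t (n + 1) := by
  induction n with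
  | zero => simp [U_zero, U_one]
  | succ n ih =>
    refine ⟨by linarith [ih.1, ih.2], ?_⟩
    rw [show n + 1 + 1 = n + 2 from rfl, U_add_two]
    nlinarith [ih.1, ih.2]

lemma U_add (t : ℤ) (m n : ℕ) :
    U t (m + n + 1) = U t (m + 1) * U t (n + 1) - U t m * U t n ∧
    U t (m + n + 2) = U t (m + 1) * U t (n + 2) - U t m * U t (n + 1) := by
  induction n with
  | zero =>
    constructor
    · simp [U_zero, U_one]
    · rw [add_zero, zero_add, U_add_two t m, U_add_two t 0, zero_add, U_one, U_zero]; ring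
  | succ n ih =>
    refine ⟨?_, ?_⟩
    · have := ih.2
      rw [show m + (n + 1) + 1 = m + n + 2 by ring, show n + 1 + 1 = n + 2 by ring]
      exact this
    · rw [show m + (n + 1) + 2 = (m + n + 1) + 2 by ring, U_add_two t (m + n + 1),
        show m + n + 1 + 1 = m + n + 2 by ring, ih.1, ih.2,
        show n + 1 + 2 = (n + 1) + 2 by ring, U_add_two t (n + 1)]
      rw [show n + 1 + 1 = n + 2 by ring, U_add_two t n]
      ring

lemma coprime_succ (t : ℤ) (n : ℕ) : IsCoprime (U t n) (U t (n + 1)) := by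
  induction n with
  | zero => rw [zero_add, U_one]; exact isCoprime_one_right
  | succ n ih =>
    rw [show n + 1 + 1 = n + 2 from rfl, U_add_two]
    have h1 : IsCoprime (U t (n + 1)) (-(U t n) + U t (n + 1) * t) := by
      apply IsCoprime.add_mul_left_right
      exact ih.symm.neg_right
    have e : t * U t (n + 1) - U t n = -(U t n) + U t (n + 1) * t := by ring
    rw [e]
    exact h1

lemma dvd_mul_index {p t : ℤ} {m : ℕ} (h : p ∣ U t m) (q : ℕ) : p ∣ U t (m * q) := by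
  induction q with
  | zero => simp [U_zero]
  | succ q ih =>
    rcases Nat.eq_zero_or_pos m with hm | hm
    · subst hm; simp [U_zero]
    · obtain ⟨m', rfl⟩ : ∃ m', m = m' + 1 := ⟨m - 1, by omega⟩
      rw [show (m' + 1) * (q + 1) = (m' + 1) * q + m' + 1 by ring, (U_add t _ _).1]
      exact dvd_sub (Dvd.dvd.mul_left h _) (Dvd.dvd.mul_right ih _)

lemma dvd_of_dvd_add {p t : ℤ} (hp : Prime p) {m n : ℕ} (h1 : p ∣ U t n) (h2 : p ∣ U t (n + m)) :
    p ∣ U t m := by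
  rcases Nat.eq_zero_or_pos m with hm | hm
  · subst hm; simp [U_zero]
  · obtain ⟨m', rfl⟩ : ∃ m', m = m' + 1 := ⟨m - 1, by omega⟩
    rw [show n + (m' + 1) = n + m' + 1 by ring, (U_add t _ _).1] at h2
    have h3 : p ∣ U t (n + 1) * U t (m' + 1) := by
      have := dvd_add h2 (Dvd.dvd.mul_right h1 (U t m'))
      simpa using this
    rcases hp.dvd_or_dvd h3 with h4 | h4
    · exfalso
      exact hp.not_isUnit ((coprime_succ t n).isUnit_of_dvd' h1 h4)
    · exact h4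

lemma dvd_gcd {p t : ℤ} (hp : Prime p) (m n : ℕ) : p ∣ U t m → p ∣ U t n →
    p ∣ U t (Nat.gcd m n) := by
  induction m, n using Nat.gcd.induction with
  | H0 n => intro _ h; simpa using h
  | H1 m n hm ih =>
    intro h1 h2
    rw [Nat.gcd_rec]
    apply ih _ h1
    have h3 := dvd_mul_index h1 (n / m)
    apply dvd_of_dvd_add hp h3
    rw [Nat.div_add_mod]
    exact h2

lemma not_both {p t : ℤ} (hp : Prime p) {m n : ℕ} (h : Nat.Coprime m n) (h1 : p ∣ U t m) :
    ¬ p ∣ U t n := by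
  intro h2
  have := dvd_gcd hp m n h1 h2
  rw [h, U_one] at this
  exact hp.not_isUnit (isUnit_of_dvd_one this)

/-- the shift on pairs of residues -/
def shift (t : ℤ) (M : ℕ) : Equiv.Perm (ZMod M × ZMod M) where
  toFun a := (a.2, (t : ZMod M) * a.2 - a.1)
  invFun a := ((t : ZMod M) * a.1 - a.2, a.1)
  left_inv := by rintro ⟨a, b⟩; simp
  right_inv := by rintro ⟨a, b⟩; simp

lemma shift_pow (t : ℤ) (M n : ℕ) :
    (shift t M ^ n) (0, 1) = ((U t n : ZMod M), (U t (n + 1) : ZMod M)) := by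
  induction n with
  | zero => simp [U_zero, U_one]
  | succ n ih =>
    rw [pow_succ', Equiv.Perm.mul_apply, ih]
    simp only [shift, Equiv.coe_fn_mk]
    rw [show n + 1 + 1 = n + 2 from rfl, U_add_two]
    push_cast
    rfl

lemma exists_period (t : ℤ) (M : ℕ) [NeZero M] :
    ∃ P : ℕ, 0 < P ∧ ∀ k, P ∣ k + 1 → (M : ℤ) ∣ U t k + 1 := by
  obtain ⟨P, hP, h1⟩ := (isOfFinOrder_of_finite (shift t M)).exists_pow_eq_one
  refine ⟨P, hP, fun k hk => ?_⟩
  obtain ⟨q, hq⟩ := hk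
  have h2 : (shift t M ^ (k + 1)) (0, 1) = (0, 1) := by
    rw [hq, pow_mul, h1, one_pow]; rfl
  rw [pow_succ', Equiv.Perm.mul_apply, shift_pow] at h2
  simp only [shift, Equiv.coe_fn_mk, Prod.mk.injEq] at h2
  obtain ⟨h3, h4⟩ := h2
  rw [h3, mul_zero, zero_sub] at h4
  rw [← ZMod.intCast_zmod_eq_zero_iff_dvd]
  push_cast
  linear_combination -h4

lemma jac_base (c : ℕ) (hc : 0 < c) : jacobiSym (-(c : ℤ)) (4 * c - 1) = -1 := by
  set b : ℕ := 4 * c - 1 with hb
  have hbodd : Odd b := ⟨2 * c - 1, by omega⟩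
  have h4 : jacobiSym 4 b = 1 := jacobiSym.at_four hbodd
  have h1 : jacobiSym (4 * -(c : ℤ)) b = jacobiSym (-1) b := by
    apply jacobiSym.mod_left'
    rw [Int.emod_eq_emod_iff_emod_sub_eq_zero]
    have e : 4 * -(c : ℤ) - -1 = -(b : ℤ) := by
      have : ((4 * c - 1 : ℕ) : ℤ) = 4 * c - 1 := by
        rw [Nat.cast_sub (by omega)]; push_cast; ring
      rw [hb, this]; ring
    rw [e]
    simp
  have h2 : jacobiSym (-1) b = -1 := by
    rw [jacobiSym.at_neg_one hbodd]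
    have h3 : b % 4 = 3 := by omega
    exact ZMod.χ₄_nat_three_mod_four h3
  rw [jacobiSym.mul_left, h4, one_mul] at h1
  rw [h1, h2]

lemma jac_U (c : ℕ) (hc : 0 < c) (n : ℕ) (h : (((4 * c : ℕ) : ℤ)) ∣ (n : ℤ) + 1) :
    jacobiSym (-(c : ℤ)) n = -1 := by
  have h0 : 4 * c ∣ n + 1 := by exact_mod_cast h
  obtain ⟨q, hq⟩ := h0
  have hq0 : 0 < q := by
    rcases Nat.eq_zero_or_pos q with h1 | h1
    · subst h1; omega
    · exact h1
  have hodd : Odd n := ⟨2 * (c * q) - 1, by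
    have : 0 < c * q := Nat.mul_pos hc hq0
    have e : 4 * c * q = 4 * (c * q) := by ring
    omega⟩
  rw [jacobiSym.mod_right _ hodd, Int.natAbs_neg, Int.natAbs_natCast]
  have h2 : n % (4 * c) = 4 * c - 1 := by
    obtain ⟨q', rfl⟩ : ∃ q', q = q' + 1 := ⟨q - 1, by omega⟩
    have h3 : n = 4 * c * q' + (4 * c - 1) := by
      have e : 4 * c * (q' + 1) = 4 * c * q' + 4 * c := by ring
      omega
    rw [h3, Nat.mul_add_mod]
    exact Nat.mod_eq_of_lt (by omega)
  rw [h2]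
  exact jac_base c hc

/-- a prime with odd exponent and symbol `-1` -/
lemma exists_prime (a : ℤ) (n : ℕ) (h : jacobiSym a n = -1) :
    ∃ p : ℕ, p.Prime ∧ jacobiSym a p = -1 ∧ ∃ m : ℕ, p ^ (2 * m + 1) ∣ n ∧ ¬ p ^ (2 * m + 2) ∣ n := by
  have hn0 : n ≠ 0 := by
    rintro rfl
    rw [jacobiSym.zero_right] at h
    norm_num at h
  obtain ⟨s, b, hsb, hs⟩ := Nat.sq_mul_squarefree n
  have hb0 : b ≠ 0 := by rintro rfl; simp at hsb; exact hn0 hsb.symm
  have hs0 : s ≠ 0 := by rintro rfl; simp at hsb; exact hn0 hsb.symm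
  rw [← hsb, jacobiSym.mul_right' _ (pow_ne_zero _ hb0) hs0, jacobiSym.pow_right] at h
  have h1 : jacobiSym a s = -1 := by
    rcases jacobiSym.trichotomy a b with h2 | h2 | h2 <;> rw [h2] at h <;> simpa using h
  obtain ⟨p, hp, hps, hp1⟩ := jacobiSym.eq_neg_one_at_prime_divisor_of_eq_neg_one h1
  refine ⟨p, hp, hp1, ?_⟩
  obtain ⟨m, b', hb', hbb⟩ := Nat.exists_eq_pow_mul_and_not_dvd hb0 p hp.ne_one
  obtain ⟨s', rfl⟩ := hps
  have hps' : ¬ p ∣ s' := by
    rintro ⟨s'', rfl⟩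
    have := hs p ⟨s'', by ring⟩
    exact hp.one_lt.ne' (Nat.isUnit_iff.mp this)
  refine ⟨m, ?_, ?_⟩
  · rw [← hsb, hbb]
    exact ⟨b' ^ 2 * s', by ring⟩
  · rw [← hsb, hbb]
    have e : (p ^ m * b') ^ 2 * (p * s') = p ^ (2 * m + 1) * (b' ^ 2 * s') := by ring
    rw [e, show 2 * m + 2 = 2 * m + 1 + 1 by ring, pow_succ p (2 * m + 1),
      Nat.mul_dvd_mul_iff_left (pow_pos hp.pos _)]
    intro h2
    rcases hp.dvd_mul.mp h2 with h3 | h3
    · exact hb' (hp.dvd_of_dvd_pow h3)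
    · exact hps' h3

end Run7.h403.Lucas
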