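import Mathlib

/-!
# The quadratic field generated by a root of `x ^ 2 - t x + 1`, `t ≥ 3`
-/

set_option autoImplicit false

namespace Run7.h403.Quad

open NumberField Polynomial

lemma no_rat {t : ℤ} (ht : 3 ≤ t) (r : ℚ) : r ^ 2 - t * r + 1 ≠ 0 := by
  intro h
  have hd0 : (r.den : ℚ) ≠ 0 := by exact_mod_cast r.den_nz
  have h1 : (r.num : ℤ) ^ 2 - t * r.num * r.den + (r.den : ℤ) ^ 2 = 0 := by
    have h2 : (r.num : ℚ) / r.den = r := Rat.num_div_den r
    have h3 : (r.num : ℚ) = r * r.den := (Rat.mul_den_eq_num r).symm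
    have h4 : ((r.num : ℤ) : ℚ) ^ 2 - t * r.num * r.den + (r.den : ℚ) ^ 2 = 0 := by
      rw [h3]
      linear_combination (r.den : ℚ) ^ 2 * h
    exact_mod_cast h4
  have hcop : IsCoprime (r.num : ℤ) (r.den : ℤ) := by
    rw [Int.isCoprime_iff_gcd_eq_one]
    simpa [Int.gcd] using r.reduced
  have h3 : IsUnit (r.den : ℤ) := by
    have : (r.den : ℤ) ∣ r.num ^ 2 := ⟨t * r.num - r.den, by linear_combination h1⟩
    exact (hcop.symm.pow_right (n := 2)).isUnit_of_dvd' dvd_rfl this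
  have h4 : (r.den : ℤ) = 1 := by
    have := Int.isUnit_iff.mp h3
    have : (0 : ℤ) ≤ r.den := by positivity
    omega
  rw [h4] at h1
  have h5 : r.num ∣ 1 := ⟨t - r.num, by linear_combination h1⟩
  have h6 := Int.isUnit_iff.mp (isUnit_of_dvd_one h5)
  rcases h6 with h6 | h6 <;> rw [h6] at h1 <;> omega

variable {K : Type} [Field K] [NumberField K]

lemma li {t : ℤ} (ht : 3 ≤ t) {ε : K} (hε : ε ^ 2 - t * ε + 1 = 0) :
    LinearIndependent ℚ ![(1 : K), ε] := by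
  rw [LinearIndependent.pair_iff]
  intro a b hab
  rw [Algebra.smul_def, Algebra.smul_def, mul_one] at hab
  have hb : b = 0 := by
    by_contra hb
    apply no_rat ht (-(a / b))
    have hbK : (algebraMap ℚ K b) ≠ 0 := by simpa using hb
    have h1 : ε = algebraMap ℚ K (-(a / b)) := by
      rw [map_neg, map_div₀]
      field_simp
      linear_combination hab
    apply (algebraMap ℚ K).injective
    rw [h1] at hε
    rw [map_zero, map_add, map_sub, map_mul, map_pow, map_one]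
    rw [map_intCast]
    exact hε
  refine ⟨?_, hb⟩
  rw [hb, map_zero, zero_mul, add_zero] at hab
  simpa using hab

/-- the basis `1, ε` -/
noncomputable def bas (h2 : Module.finrank ℚ K = 2) {t : ℤ} (ht : 3 ≤ t) {ε : K}
    (hε : ε ^ 2 - t * ε + 1 = 0) : Module.Basis (Fin 2) ℚ K :=
  basisOfLinearIndependentOfCardEqFinrank (li ht hε) (by simp [h2])

lemma bas_zero (h2 : Module.finrank ℚ K = 2) {t : ℤ} (ht : 3 ≤ t) {ε : K}
    (hε : ε ^ 2 - t * ε + 1 = 0) : bas h2 ht hε 0 = 1 := by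
  simp [bas]

lemma bas_one (h2 : Module.finrank ℚ K = 2) {t : ℤ} (ht : 3 ≤ t) {ε : K}
    (hε : ε ^ 2 - t * ε + 1 = 0) : bas h2 ht hε 1 = ε := by
  simp [bas]

lemma exists_coords (h2 : Module.finrank ℚ K = 2) {t : ℤ} (ht : 3 ≤ t) {ε : K}
    (hε : ε ^ 2 - t * ε + 1 = 0) (x : K) :
    ∃ a b : ℚ, x = algebraMap ℚ K a + algebraMap ℚ K b * ε := by
  have h := (bas h2 ht hε).sum_repr x
  rw [Fin.sum_univ_two, bas_zero, bas_one] at h
  refine ⟨(bas h2 ht hε).repr x 0, (bas h2 ht hε).repr x 1, ?_⟩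
  rw [Algebra.smul_def, Algebra.smul_def, mul_one] at h
  exact h.symm

lemma repr_coords (h2 : Module.finrank ℚ K = 2) {t : ℤ} (ht : 3 ≤ t) {ε : K}
    (hε : ε ^ 2 - t * ε + 1 = 0) (a b : ℚ) :
    ∀ i, (bas h2 ht hε).repr (algebraMap ℚ K a + algebraMap ℚ K b * ε) i = ![a, b] i := by
  have h : algebraMap ℚ K a + algebraMap ℚ K b * ε
      = a • (bas h2 ht hε 0) + b • (bas h2 ht hε 1) := by
    rw [bas_zero, bas_one, Algebra.smul_def, Algebra.smul_def, mul_one]
  intro i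
  rw [h, map_add, map_smul, map_smul, Module.Basis.repr_self, Module.Basis.repr_self]
  fin_cases i <;> simp

/-- trace and norm in coordinates -/
lemma trace_norm (h2 : Module.finrank ℚ K = 2) {t : ℤ} (ht : 3 ≤ t) {ε : K}
    (hε : ε ^ 2 - t * ε + 1 = 0) (a b : ℚ) :
    Algebra.trace ℚ K (algebraMap ℚ K a + algebraMap ℚ K b * ε) = 2 * a + b * t ∧
    Algebra.norm ℚ (algebraMap ℚ K a + algebraMap ℚ K b * ε) = a ^ 2 + a * b * t + b ^ 2 := by
  have e0 : ∀ i, (bas h2 ht hε).repr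
      ((algebraMap ℚ K a + algebraMap ℚ K b * ε) * (bas h2 ht hε) 0) i = ![a, b] i := by
    rw [bas_zero, mul_one]; exact repr_coords h2 ht hε a b
  have e1 : ∀ i, (bas h2 ht hε).repr
      ((algebraMap ℚ K a + algebraMap ℚ K b * ε) * (bas h2 ht hε) 1) i = ![-b, a + b * t] i := by
    have : (algebraMap ℚ K a + algebraMap ℚ K b * ε) * (bas h2 ht hε) 1
        = algebraMap ℚ K (-b) + algebraMap ℚ K (a + b * t) * ε := by
      rw [bas_one, map_neg, map_add, map_mul, map_intCast]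
      linear_combination algebraMap ℚ K b * hε
    rw [this]; exact repr_coords h2 ht hε _ _
  constructor
  · rw [Algebra.trace_eq_matrix_trace (bas h2 ht hε), Matrix.trace_fin_two,
      Algebra.leftMulMatrix_eq_repr_mul, Algebra.leftMulMatrix_eq_repr_mul, e0, e1]
    simp; ring
  · rw [Algebra.norm_eq_matrix_det (bas h2 ht hε), Matrix.det_fin_two,
      Algebra.leftMulMatrix_eq_repr_mul, Algebra.leftMulMatrix_eq_repr_mul,
      Algebra.leftMulMatrix_eq_repr_mul, Algebra.leftMulMatrix_eq_repr_mul, e0, e1, e0, e1]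
    simp; ring

/-- `x ^ 2 - Tr(x) x + N(x) = 0` -/
lemma char_eq (h2 : Module.finrank ℚ K = 2) {t : ℤ} (ht : 3 ≤ t) {ε : K}
    (hε : ε ^ 2 - t * ε + 1 = 0) (x : K) :
    x ^ 2 - algebraMap ℚ K (Algebra.trace ℚ K x) * x + algebraMap ℚ K (Algebra.norm ℚ x) = 0 := by
  obtain ⟨a, b, rfl⟩ := exists_coords h2 ht hε x
  obtain ⟨h3, h4⟩ := trace_norm h2 ht hε a b
  rw [h3, h4]
  simp only [map_add, map_mul, map_pow, map_ofNat, map_intCast]
  linear_combination algebraMap ℚ K b ^ 2 * hε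

lemma norm_eps (h2 : Module.finrank ℚ K = 2) {t : ℤ} (ht : 3 ≤ t) {ε : K}
    (hε : ε ^ 2 - t * ε + 1 = 0) : Algebra.norm ℚ ε = 1 := by
  have := (trace_norm h2 ht hε 0 1).2
  simpa using this

/-- a real embedding -/
lemma exists_real (h2 : Module.finrank ℚ K = 2) {t : ℤ} (ht : 3 ≤ t) {ε : K}
    (hε : ε ^ 2 - t * ε + 1 = 0) : Nonempty (K →+* ℝ) := by
  obtain ⟨ψ⟩ : Nonempty (K →+* ℂ) := inferInstance
  have hreal : ∀ z : ℂ, z ^ 2 - (t : ℂ) * z + 1 = 0 → starRingEnd ℂ z = z := by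
    intro z hz
    have ht' : (3 : ℝ) ≤ (t : ℝ) := by exact_mod_cast ht
    -- `(2z - t)^2 = t^2 - 4 > 0`
    have h3 : (2 * z - t) ^ 2 = (((t : ℝ) ^ 2 - 4 : ℝ) : ℂ) := by
      push_cast
      linear_combination 4 * hz
    set s : ℝ := Real.sqrt ((t : ℝ) ^ 2 - 4) with hs
    have hs2 : s ^ 2 = (t : ℝ) ^ 2 - 4 := Real.sq_sqrt (by nlinarith)
    have h4 : (2 * z - t - s) * (2 * z - t + s) = 0 := by
      have : ((s ^ 2 : ℝ) : ℂ) = (((t : ℝ) ^ 2 - 4 : ℝ) : ℂ) := by rw [hs2]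
      push_cast at this h3 ⊢
      linear_combination h3 - this
    have h5 : ∃ w : ℝ, z = (w : ℂ) := by
      rcases mul_eq_zero.mp h4 with h | h
      · refine ⟨(t + s) / 2, ?_⟩
        push_cast
        linear_combination h / 2
      · refine ⟨(t - s) / 2, ?_⟩
        push_cast
        linear_combination h / 2
    obtain ⟨w, rfl⟩ := h5
    exact Complex.conj_ofReal w
  have hψ : NumberField.ComplexEmbedding.IsReal ψ := by
    rw [NumberField.ComplexEmbedding.isReal_iff]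
    ext x
    obtain ⟨a, b, rfl⟩ := exists_coords h2 ht hε x
    have h6 : starRingEnd ℂ (ψ ε) = ψ ε := by
      apply hreal
      have := congrArg ψ hε
      simpa using this
    rw [NumberField.ComplexEmbedding.conjugate_coe_eq, map_add, map_mul, map_add, map_mul, h6]
    simp
  exact ⟨hψ.embedding⟩

/-- roots of unity are `± 1` in fields with a real embedding -/
lemma torsion_pm (φ : K →+* ℝ) {ζ : (𝓞 K)ˣ} {m : ℕ} (hm : m ≠ 0) (h : ζ ^ m = 1) :
    ζ = 1 ∨ ζ = -1 := by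
  have h1 : (φ ((ζ : 𝓞 K) : K)) ^ m = 1 := by
    rw [← map_pow]
    have h2 : ((ζ : 𝓞 K) : K) ^ m = 1 := by
      have := congrArg (fun u : (𝓞 K)ˣ => ((u : 𝓞 K) : K)) h
      simpa using this
    rw [h2, map_one]
  rw [pow_eq_one_iff_cases] at h1
  rcases h1 with h1 | h1 | ⟨h1, _⟩
  · exact absurd h1 hm
  · left
    apply Units.ext
    apply RingOfIntegers.ext
    apply φ.injective
    simpa using h1
  · right
    apply Units.ext
    apply RingOfIntegers.ext
    apply φ.injective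
    simpa using h1

lemma rank_le (h2 : Module.finrank ℚ K = 2) : NumberField.Units.rank K ≤ 1 := by
  have h3 := NumberField.InfinitePlace.card_add_two_mul_card_eq_rank K
  have h4 := NumberField.InfinitePlace.card_eq_nrRealPlaces_add_nrComplexPlaces K
  rw [h2] at h3
  rw [NumberField.Units.rank]
  rw [h4]
  omega

/-- the units are `± η ^ k` -/
lemma exists_gen (h2 : Module.finrank ℚ K = 2) (φ : K →+* ℝ) :
    ∃ η : (𝓞 K)ˣ, ∀ e : (𝓞 K)ˣ, ∃ k : ℤ, e = η ^ k ∨ e = -η ^ k := by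
  classical
  have hr := rank_le h2
  have hsub : Subsingleton (Fin (NumberField.Units.rank K)) :=
    ⟨fun a b => Fin.ext (by have := a.2; have := b.2; omega)⟩
  have hmain : ∃ η : (𝓞 K)ˣ, ∀ f : Fin (NumberField.Units.rank K) → ℤ, ∃ k : ℤ,
      ∏ i, NumberField.Units.fundSystem K i ^ f i = η ^ k := by
    by_cases hne : Nonempty (Fin (NumberField.Units.rank K))
    · obtain ⟨i⟩ := hne
      refine ⟨NumberField.Units.fundSystem K i, fun f => ⟨f i, ?_⟩⟩
      rw [Fintype.prod_subsingleton _ i]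
    · rw [not_nonempty_iff] at hne
      refine ⟨1, fun f => ⟨0, ?_⟩⟩
      simp
  obtain ⟨η, hη⟩ := hmain
  refine ⟨η, fun e => ?_⟩
  obtain ⟨ζe, h3, _⟩ := NumberField.Units.exist_unique_eq_mul_prod K e
  obtain ⟨k, hk⟩ := hη ζe.2
  have h3' : e = ↑ζe.1 * ∏ i, NumberField.Units.fundSystem K i ^ ζe.2 i := h3
  rw [hk] at h3'
  have h4 : ∃ m : ℕ, m ≠ 0 ∧ ((ζe.1 : NumberField.Units.torsion K) : (𝓞 K)ˣ) ^ m = 1 := by
    have h5 : IsOfFinOrder ((ζe.1 : NumberField.Units.torsion K) : (𝓞 K)ˣ) :=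
      (CommGroup.mem_torsion _).mp ζe.1.2
    obtain ⟨m, hm, h6⟩ := h5.exists_pow_eq_one
    exact ⟨m, hm.ne', h6⟩
  obtain ⟨m, hm, h5⟩ := h4
  refine ⟨k, ?_⟩
  rcases torsion_pm φ hm h5 with h6 | h6
  · left; rw [h3', h6, one_mul]
  · right; rw [h3', h6, neg_one_mul]

/-- the unit `ε` -/
noncomputable def unitOf {t : ℤ} {ε : K} (hε : ε ^ 2 - t * ε + 1 = 0) : (𝓞 K)ˣ :=
  have hint : IsIntegral ℤ ε := ⟨X ^ 2 - C t * X + 1, by
    monicity!, by
      rw [eval₂_add, eval₂_sub, eval₂_mul, eval₂_pow, eval₂_X, eval₂_C, eval₂_one]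
      simpa using hε⟩
  have hint' : IsIntegral ℤ ((t : K) - ε) := (isIntegral_algebraMap (x := t)).sub hint
  ⟨⟨ε, hint⟩, ⟨(t : K) - ε, hint'⟩, by
    apply RingOfIntegers.ext
    show ε * ((t : K) - ε) = 1
    linear_combination -hε, by
    apply RingOfIntegers.ext
    show ((t : K) - ε) * ε = 1
    linear_combination -hε⟩

lemma coe_unitOf {t : ℤ} {ε : K} (hε : ε ^ 2 - t * ε + 1 = 0) :
    (((unitOf hε : (𝓞 K)ˣ) : 𝓞 K) : K) = ε := rfl

lemma coe_unitOf_inv {t : ℤ} {ε : K} (hε : ε ^ 2 - t * ε + 1 = 0) :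
    ((((unitOf hε)⁻¹ : (𝓞 K)ˣ) : 𝓞 K) : K) = t - ε := rfl

lemma unit_eq {t : ℤ} {ε : K} (hε : ε ^ 2 - t * ε + 1 = 0) :
    ((unitOf hε : (𝓞 K)ˣ) : 𝓞 K) ^ 2 - t * ((unitOf hε : (𝓞 K)ˣ) : 𝓞 K) + 1 = 0 := by
  apply RingOfIntegers.ext
  have := hε
  simpa [coe_unitOf] using this

/-- `ε` has infinite order -/
lemma inf_order (h2 : Module.finrank ℚ K = 2) {t : ℤ} (ht : 3 ≤ t) {ε : K}
    (hε : ε ^ 2 - t * ε + 1 = 0) (M : ℕ) (hM : M ≠ 0) : (unitOf hε) ^ M ≠ 1 := by
  intro h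
  obtain ⟨φ⟩ := exists_real h2 ht hε
  rcases torsion_pm φ hM h with h1 | h1
  · have h3 : ε = 1 := by
      have := congrArg (fun u : (𝓞 K)ˣ => ((u : 𝓞 K) : K)) h1
      simpa [coe_unitOf] using this
    apply no_rat ht 1
    rw [h3] at hε
    have : ((((1 : ℚ) ^ 2 - t * 1 + 1 : ℚ)) : K) = 0 := by push_cast; exact hε
    exact_mod_cast this
  · have h3 : ε = -1 := by
      have := congrArg (fun u : (𝓞 K)ˣ => ((u : 𝓞 K) : K)) h1
      simpa [coe_unitOf] using this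
    apply no_rat ht (-1)
    rw [h3] at hε
    have : ((((-1 : ℚ) ^ 2 - t * (-1) + 1 : ℚ)) : K) = 0 := by push_cast; exact hε
    exact_mod_cast this

/-- if `ε` is a `p`-th power of a unit, `p` odd, then `t` is a value of a Dickson polynomial -/
lemma of_pow (h2 : Module.finrank ℚ K = 2) {t : ℤ} (ht : 3 ≤ t) {ε : K}
    (hε : ε ^ 2 - t * ε + 1 = 0) {p : ℕ} (hp : Odd p) (ζ : (𝓞 K)ˣ) (h : ζ ^ p = unitOf hε) :
    ∃ s : ℤ, 3 ≤ s ∧ t = (dickson 1 (1 : ℤ) p).eval s := by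
  set z : K := ((ζ : 𝓞 K) : K) with hz
  have hzp : z ^ p = ε := by
    have := congrArg (fun u : (𝓞 K)ˣ => ((u : 𝓞 K) : K)) h
    simpa [coe_unitOf] using this
  have hzint : IsIntegral ℤ z := (ζ : 𝓞 K).2
  obtain ⟨s, hs⟩ : ∃ s : ℤ, algebraMap ℤ ℚ s = Algebra.trace ℚ K z :=
    IsIntegrallyClosed.isIntegral_iff.mp (Algebra.isIntegral_trace hzint)
  obtain ⟨n, hn⟩ : ∃ n : ℤ, algebraMap ℤ ℚ n = Algebra.norm ℚ z :=
    IsIntegrallyClosed.isIntegral_iff.mp (Algebra.isIntegral_norm ℚ hzint)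
  have hn1 : n = 1 := by
    have h3 : (Algebra.norm ℚ z) ^ p = 1 := by
      rw [← map_pow, hzp, norm_eps h2 ht hε]
    rw [← hn] at h3
    have h4 : n ^ p = 1 := by
      have h5 : ((n ^ p : ℤ) : ℚ) = 1 := by
        push_cast
        simpa using h3
      exact_mod_cast h5
    rw [pow_eq_one_iff_cases] at h4
    rcases h4 with h4 | h4 | ⟨_, h4⟩
    · rw [h4] at hp; simp at hp
    · exact h4
    · exact absurd h4 (Nat.not_even_iff_odd.mpr hp)
  have hq := char_eq h2 ht hε z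
  rw [← hn, ← hs, hn1] at hq
  have hq' : z * ((s : K) - z) = 1 := by
    have : z ^ 2 - (s : K) * z + 1 = 0 := by simpa using hq
    linear_combination -this
  have hεi : ε * ((t : K) - ε) = 1 := by linear_combination -hε
  have hz0 : z ≠ 0 := left_ne_zero_of_mul_eq_one hq'
  have hinv : ((s : K) - z) ^ p = (t : K) - ε := by
    have h3 : z ^ p * ((s : K) - z) ^ p = 1 := by rw [← mul_pow, hq', one_pow]
    rw [hzp] at h3
    have h4 : ε ≠ 0 := left_ne_zero_of_mul_eq_one hεi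
    exact mul_left_cancel₀ h4 (h3.trans hεi.symm)
  have hts : (t : K) = (((dickson 1 (1 : ℤ) p).eval s : ℤ) : K) := by
    have h3 := dickson_one_one_eval_add_inv z ((s : K) - z) hq' p
    rw [hzp, hinv] at h3
    have h4 : z + ((s : K) - z) = (s : K) := by ring
    rw [h4] at h3
    have h5 : (((dickson 1 (1 : ℤ) p).eval s : ℤ) : K) = (dickson 1 (1 : K) p).eval (s : K) := by
      have := (Polynomial.eval_intCast_map (Int.castRingHom K) (dickson 1 (1 : ℤ) p) s)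
      rw [map_dickson] at this
      simpa using this.symm
    rw [h5, h3]; ring
  refine ⟨s, ?_, by exact_mod_cast hts⟩
  -- positivity through a real embedding
  obtain ⟨φ⟩ := exists_real h2 ht hε
  have hx : φ z * ((s : ℝ) - φ z) = 1 := by
    have := congrArg φ hq'
    simpa using this
  have hy : φ ε * ((t : ℝ) - φ ε) = 1 := by
    have := congrArg φ hεi
    simpa using this
  have ht' : (3 : ℝ) ≤ (t : ℝ) := by exact_mod_cast ht
  have hεpos : 0 < φ ε := by
    by_contra hneg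
    rw [not_lt] at hneg
    nlinarith
  have hxp : (φ z) ^ p = φ ε := by rw [← map_pow, hzp]
  have hxpos : 0 < φ z := by
    rw [← hxp] at hεpos
    exact (hp.pow_pos_iff).mp hεpos
  by_contra hlt
  rw [not_le] at hlt
  have hs2 : (s : ℝ) ≤ 2 := by exact_mod_cast (by omega : s ≤ 2)
  have h1 : (φ z - 1) ^ 2 ≤ 0 := by nlinarith
  have h3 : φ z = 1 := by
    have := pow_eq_zero_iff (n := 2) (by norm_num) |>.mp (le_antisymm h1 (sq_nonneg _))
    linarith
  have h4 : φ ε = 1 := by rw [← hxp, h3, one_pow]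
  rw [h4] at hy
  have : (t : ℝ) = 2 := by linarith
  linarith

end Run7.h403.Quad
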