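import Pool.Agent.Run7.h403.Order
import Pool.Agent.Run7.h403.Lucas
import Pool.Agent.Run7.h403.Quad
import Pool.Agent.Run7.h403.Local

/-!
# Real quadratic fields: infinitely many primes with `#T_p(K)` a square
-/

set_option autoImplicit false

namespace Run7.h403.Even

open NumberField

/-- `x ^ (p ^ 2 - 1) ≡ 1` modulo `p` -/
lemma unit_cong_one {R : Type*} [CommRing R] {p : ℕ} (hp : p.Prime) {t : ℤ} {x y : R}
    (hxy : x * y = 1) (ht : x + y = (t : R))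
    (h2 : ¬ (p : ℤ) ∣ t ^ 2 - 4) : (p : R) ∣ x ^ (p ^ 2 - 1) - 1 := by
  have h3 : (p : R) ∣ x ^ p + y ^ p - x - y := by
    obtain ⟨k, hk⟩ := Local.V_mod hp t
    have := congrArg (fun z : ℤ => (z : R)) hk
    push_cast at this
    rw [Local.cast_V p t hxy ht, ← ht] at this
    exact ⟨k, by linear_combination this⟩
  have hp1 : 1 ≤ p := hp.pos
  have hyp : ∀ n : ℕ, x ^ n * y ^ n = 1 := fun n => by rw [← mul_pow, hxy, one_pow]
  have e1 : x ^ p = x * x ^ (p - 1) := by rw [← pow_succ']; congr 1; omega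
  have h4 : (p : R) ∣ (x ^ (p - 1) - 1) * (x ^ (p + 1) - 1) := by
    have e2 : (x ^ (p - 1) - 1) * (x ^ (p + 1) - 1)
        = y * x ^ (p + 1) * (x ^ p + y ^ p - x - y) := by
      have e3 : y * x ^ (p + 1) * y ^ p = 1 := by
        have := hyp (p + 1)
        rw [pow_succ y] at this
        linear_combination this
      have e4 : y * x ^ (p + 1) = x ^ p := by
        rw [pow_succ]
        linear_combination x ^ p * hxy
      have e5 : x ^ (p + 1) = x * x * x ^ (p - 1) := by rw [pow_succ, e1]; ring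
      have e6 : y * x ^ (p + 1) * y = x ^ (p - 1) := by
        rw [e5]
        linear_combination (x ^ (p - 1) * (x * y + 1)) * hxy
      calc (x ^ (p - 1) - 1) * (x ^ (p + 1) - 1)
          = x ^ (p - 1) * x ^ (p + 1) - x ^ (p - 1) - x ^ (p + 1) + 1 := by ring
        _ = x ^ p * x ^ p - x ^ (p - 1) - x ^ p * x + 1 := by
            rw [← pow_add, ← pow_add, show p - 1 + (p + 1) = p + p by omega, ← pow_succ]
        _ = y * x ^ (p + 1) * x ^ p + y * x ^ (p + 1) * y ^ p - y * x ^ (p + 1) * x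
              - y * x ^ (p + 1) * y := by
            rw [e3, e6, e4]; ring
        _ = _ := by ring
    rw [e2]
    exact Dvd.dvd.mul_left h3 _
  have hexp : p ^ 2 - 1 = (p - 1) * (p + 1) := by
    have : p ^ 2 - 1 = p ^ 2 - 1 ^ 2 := by simp
    rw [this, Nat.sq_sub_sq, mul_comm]
  have h5 : x ^ (p - 1) - 1 ∣ x ^ (p ^ 2 - 1) - 1 := by
    rw [hexp, pow_mul]
    have := sub_dvd_pow_sub_pow (x ^ (p - 1)) 1 (p + 1)
    rwa [one_pow] at this
  have h6 : x ^ (p + 1) - 1 ∣ x ^ (p ^ 2 - 1) - 1 := by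
    rw [hexp, mul_comm, pow_mul]
    have := sub_dvd_pow_sub_pow (x ^ (p + 1)) 1 (p - 1)
    rwa [one_pow] at this
  obtain ⟨α, hα⟩ := h5
  obtain ⟨β, hβ⟩ := h6
  obtain ⟨c, hc⟩ := h4
  set Z := x ^ (p ^ 2 - 1) - 1 with hZ
  have h7 : ((x ^ (p + 1) - 1) - (x ^ (p - 1) - 1)) * Z = (p : R) * (c * (α - β)) := by
    have : ((x ^ (p + 1) - 1) - (x ^ (p - 1) - 1)) * Z
        = (x ^ (p + 1) - 1) * Z - (x ^ (p - 1) - 1) * Z := by ring
    rw [this]
    nth_rewrite 1 [hα]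
    nth_rewrite 1 [hβ]
    linear_combination (α - β) * hc
  have h8 : (x ^ (p + 1) - 1) - (x ^ (p - 1) - 1) = x ^ p * (x - y) := by
    have e5 : x ^ (p + 1) = x ^ p * x := pow_succ _ _
    rw [e5, e1]
    linear_combination (x ^ (p - 1)) * hxy
  have h9 : ((t ^ 2 - 4 : ℤ) : R) * Z = (p : R) * ((x - y) * y ^ p * (c * (α - β))) := by
    have e7 : ((t ^ 2 - 4 : ℤ) : R) = (x - y) * (x - y) := by
      push_cast
      rw [← ht]
      linear_combination 4 * hxy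
    rw [e7]
    rw [h8] at h7
    have e8 := hyp p
    linear_combination (x - y) * y ^ p * h7 - (x - y) * (x - y) * Z * e8
  have h10 : IsCoprime (p : R) ((t ^ 2 - 4 : ℤ) : R) := by
    have h11 : IsCoprime (p : ℤ) (t ^ 2 - 4) :=
      (Nat.prime_iff_prime_int.mp hp).coprime_iff_not_dvd.mpr h2
    have := h11.map (Int.castRingHom R)
    simpa using this
  exact h10.dvd_of_dvd_mul_left ⟨_, h9⟩

variable {K : Type} [Field K] [NumberField K]

lemma int_dvd {a b : ℤ} (h : (a : 𝓞 K) ∣ (b : 𝓞 K)) : a ∣ b := by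
  have h1 : Algebra.norm ℤ (a : 𝓞 K) ∣ Algebra.norm ℤ (b : 𝓞 K) := map_dvd _ h
  have e : ∀ c : ℤ, (c : 𝓞 K) = algebraMap ℤ (𝓞 K) c := fun c => by simp
  rw [e a, e b, Algebra.norm_algebraMap, Algebra.norm_algebraMap] at h1
  exact (Int.pow_dvd_pow_iff Module.finrank_pos.ne').mp h1

/-- `(t ^ 2 - 4) a ∈ ℤ[ε]` -/
lemma mul_mem (h2 : Module.finrank ℚ K = 2) {t : ℤ} (ht : 3 ≤ t) {ε : K}
    (hε : ε ^ 2 - t * ε + 1 = 0) (a : 𝓞 K) : ∃ m n : ℤ,
      ((t ^ 2 - 4 : ℤ) : 𝓞 K) * a = m + n * ((Quad.unitOf hε : (𝓞 K)ˣ) : 𝓞 K) := by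
  obtain ⟨r, s, hrs⟩ := Quad.exists_coords h2 ht hε (a : K)
  have h3 := (Quad.trace_norm h2 ht hε r s).1
  have h4 := (Quad.trace_norm h2 ht hε (-s) (r + s * t)).1
  have h5 : (a : K) * ε = algebraMap ℚ K (-s) + algebraMap ℚ K (r + s * t) * ε := by
    rw [hrs]
    simp only [map_neg, map_add, map_mul, map_intCast]
    linear_combination algebraMap ℚ K s * hε
  have hint : IsIntegral ℤ ((a : K) * ε) := a.2.mul (by
    have := ((Quad.unitOf hε : (𝓞 K)ˣ) : 𝓞 K).2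
    exact this)
  obtain ⟨A, hA⟩ : ∃ A : ℤ, algebraMap ℤ ℚ A = Algebra.trace ℚ K (a : K) :=
    IsIntegrallyClosed.isIntegral_iff.mp (Algebra.isIntegral_trace a.2)
  obtain ⟨B, hB⟩ : ∃ B : ℤ, algebraMap ℤ ℚ B = Algebra.trace ℚ K ((a : K) * ε) :=
    IsIntegrallyClosed.isIntegral_iff.mp (Algebra.isIntegral_trace hint)
  rw [hrs, h3] at hA
  rw [h5, h4] at hB
  simp only [algebraMap_int_eq, eq_intCast] at hA hB
  refine ⟨(t ^ 2 - 2) * A - t * B, 2 * B - t * A, ?_⟩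
  apply RingOfIntegers.ext
  have hA' : (A : K) = algebraMap ℚ K (2 * r + s * t) := by rw [← hA]; simp
  have hB' : (B : K) = algebraMap ℚ K (2 * (-s) + (r + s * t) * t) := by rw [← hB]; simp
  have hu : algebraMap (𝓞 K) K ((Quad.unitOf hε : (𝓞 K)ˣ) : 𝓞 K) = ε := rfl
  show algebraMap (𝓞 K) K _ = algebraMap (𝓞 K) K _
  simp only [map_add, map_mul, map_intCast, hu]
  have hrs' : algebraMap (𝓞 K) K a = algebraMap ℚ K r + algebraMap ℚ K s * ε := hrs
  rw [hrs']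
  push_cast
  rw [hA', hB']
  simp only [map_neg, map_add, map_mul, map_intCast, map_ofNat]
  ring

lemma frob {R : Type*} [CommRing R] {p : ℕ} (hp : p.Prime) (x y : R) (n : ℕ) :
    (p : R) ∣ (x + y) ^ p ^ n - (x ^ p ^ n + y ^ p ^ n) := by
  obtain ⟨r, hr⟩ := exists_add_pow_prime_pow_eq hp x y n
  exact ⟨x * y * r, by rw [hr]; ring⟩

lemma int_frob {p : ℕ} (hp : p.Prime) (a : ℤ) (n : ℕ) : (p : ℤ) ∣ a ^ p ^ n - a := by
  have : Fact p.Prime := ⟨hp⟩
  rw [← ZMod.intCast_zmod_eq_zero_iff_dvd]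
  push_cast
  rw [ZMod.pow_card_pow, sub_self]

/-- the exponent of the group of the residues prime to `p` -/
lemma exp_dvd (h2 : Module.finrank ℚ K = 2) {t : ℤ} (ht : 3 ≤ t) {ε : K}
    (hε : ε ^ 2 - t * ε + 1 = 0) {p : ℕ} (hp : p.Prime) (hpt : ¬ (p : ℤ) ∣ t ^ 2 - 4)
    (a : 𝓞 K) (ha : IsCoprime a (p : 𝓞 K)) : (p : 𝓞 K) ∣ a ^ (p ^ 2 - 1) - 1 := by
  set x : 𝓞 K := ((Quad.unitOf hε : (𝓞 K)ˣ) : 𝓞 K) with hx
  set y : 𝓞 K := (((Quad.unitOf hε)⁻¹ : (𝓞 K)ˣ) : 𝓞 K) with hy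
  have hxy : x * y = 1 := by rw [hx, hy, Units.mul_inv]
  have hxt : x + y = (t : 𝓞 K) := by
    linear_combination y * (Quad.unit_eq hε) - (x - t) * hxy
  have h3 := unit_cong_one hp hxy hxt hpt
  obtain ⟨m, n, hmn⟩ := mul_mem h2 ht hε a
  rw [← hx] at hmn
  set D : ℤ := t ^ 2 - 4 with hD
  have hcast : ∀ b : ℤ, (p : ℤ) ∣ b → (p : 𝓞 K) ∣ (b : 𝓞 K) := by
    intro b hb
    have := map_dvd (Int.castRingHom (𝓞 K)) hb
    simpa using this
  have hpp : p ^ 2 = p ^ 2 - 1 + 1 := (Nat.sub_add_cancel (Nat.one_le_pow _ _ hp.pos)).symm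
  have h4 : (p : 𝓞 K) ∣ x ^ p ^ 2 - x := by
    have e : x ^ p ^ 2 - x = (x ^ (p ^ 2 - 1) - 1) * x := by
      nth_rewrite 1 [hpp]
      rw [pow_succ]; ring
    rw [e]
    exact Dvd.dvd.mul_right h3 _
  have h5 : (p : 𝓞 K) ∣ (D : 𝓞 K) * (a ^ p ^ 2 - a) := by
    have f1 := frob hp (m : 𝓞 K) (n * x) 2
    rw [← hmn, mul_pow, mul_pow] at f1
    have f2 : (p : 𝓞 K) ∣ (D : 𝓞 K) ^ p ^ 2 - D := by
      have := hcast _ (int_frob hp D 2); push_cast at this; exact this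
    have f3 : (p : 𝓞 K) ∣ (m : 𝓞 K) ^ p ^ 2 - m := by
      have := hcast _ (int_frob hp m 2); push_cast at this; exact this
    have f4 : (p : 𝓞 K) ∣ (n : 𝓞 K) ^ p ^ 2 - n := by
      have := hcast _ (int_frob hp n 2); push_cast at this; exact this
    obtain ⟨g1, hg1⟩ := f1
    obtain ⟨g2, hg2⟩ := f2
    obtain ⟨g3, hg3⟩ := f3
    obtain ⟨g4, hg4⟩ := f4
    obtain ⟨g5, hg5⟩ := h4
    refine ⟨g1 - g2 * a ^ p ^ 2 + g3 + g4 * x ^ p ^ 2 + n * g5, ?_⟩
    linear_combination hg1 - a ^ p ^ 2 * hg2 + hg3 + x ^ p ^ 2 * hg4 + (n : 𝓞 K) * hg5 - hmn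
  have h6 : IsCoprime (p : 𝓞 K) (D : 𝓞 K) := by
    have h11 : IsCoprime (p : ℤ) D := (Nat.prime_iff_prime_int.mp hp).coprime_iff_not_dvd.mpr hpt
    have := h11.map (Int.castRingHom (𝓞 K))
    simpa using this
  have h7 : (p : 𝓞 K) ∣ a * (a ^ (p ^ 2 - 1) - 1) := by
    have h8 := h6.dvd_of_dvd_mul_left h5
    have e : a ^ p ^ 2 - a = a * (a ^ (p ^ 2 - 1) - 1) := by
      nth_rewrite 1 [hpp]
      rw [pow_succ]; ring
    rwa [e] at h8
  exact ha.symm.dvd_of_dvd_mul_left h7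

/-- the exact exponent of `p` in `ε ^ (2 k) - 1` is the one in `U_k` -/
lemma exact_exp {t : ℤ} {ε : K}
    (hε : ε ^ 2 - t * ε + 1 = 0) {p : ℕ} (hp : p.Prime) (hpt : ¬ (p : ℤ) ∣ t ^ 2 - 4) {k w : ℕ}
    (h1 : (p : ℤ) ^ w ∣ Lucas.U t k) (h2 : ¬ (p : ℤ) ^ (w + 1) ∣ Lucas.U t k) :
    Ex p w (((Quad.unitOf hε : (𝓞 K)ˣ) : 𝓞 K) ^ (2 * k)) := by
  set x : 𝓞 K := ((Quad.unitOf hε : (𝓞 K)ˣ) : 𝓞 K) with hx
  set y : 𝓞 K := (((Quad.unitOf hε)⁻¹ : (𝓞 K)ˣ) : 𝓞 K) with hy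
  have hxy : x * y = 1 := by rw [hx, hy, Units.mul_inv]
  have hxt : x + y = (t : 𝓞 K) := by
    linear_combination y * (Quad.unit_eq hε) - (x - t) * hxy
  have hU := (Lucas.sub_mul_U hxy hxt k).1
  have hxyk : x ^ k * y ^ k = 1 := by rw [← mul_pow, hxy, one_pow]
  have e1 : x ^ (2 * k) - 1 = x ^ k * (x - y) * (Lucas.U t k : 𝓞 K) := by
    rw [mul_comm 2 k, pow_mul]
    linear_combination -(x ^ k) * hU + hxyk
  constructor
  · rw [e1]
    apply Dvd.dvd.mul_left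
    have := map_dvd (Int.castRingHom (𝓞 K)) h1
    simpa using this
  · intro h3
    rw [e1] at h3
    apply h2
    have h4 : (p : 𝓞 K) ^ (w + 1) ∣ ((t ^ 2 - 4 : ℤ) : 𝓞 K) * (Lucas.U t k : 𝓞 K) := by
      have h5 := Dvd.dvd.mul_left h3 (y ^ k * (x - y))
      have e2 : y ^ k * (x - y) * (x ^ k * (x - y) * (Lucas.U t k : 𝓞 K))
          = ((t ^ 2 - 4 : ℤ) : 𝓞 K) * (Lucas.U t k : 𝓞 K) := by
        push_cast
        rw [← hxt]
        linear_combination (x - y) ^ 2 * (Lucas.U t k : 𝓞 K) * hxyk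
          - 4 * (Lucas.U t k : 𝓞 K) * hxy
      rwa [e2] at h5
    have h6 : IsCoprime ((p : 𝓞 K) ^ (w + 1)) ((t ^ 2 - 4 : ℤ) : 𝓞 K) := by
      have h11 : IsCoprime (p : ℤ) (t ^ 2 - 4) :=
        (Nat.prime_iff_prime_int.mp hp).coprime_iff_not_dvd.mpr hpt
      have := h11.map (Int.castRingHom (𝓞 K))
      apply IsCoprime.pow_left
      simpa using this
    have h7 := h6.dvd_of_dvd_mul_left h4
    apply int_dvd (K := K)
    push_cast
    exact h7

/-- the index is not the prime itself -/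
lemma ne_index {t : ℤ} {ε : K}
    (hε : ε ^ 2 - t * ε + 1 = 0) {p : ℕ} (hp : p.Prime) (hpt : ¬ (p : ℤ) ∣ t ^ 2 - 4)
    (h : (p : ℤ) ∣ Lucas.U t p) : False := by
  set x : 𝓞 K := ((Quad.unitOf hε : (𝓞 K)ˣ) : 𝓞 K) with hx
  set y : 𝓞 K := (((Quad.unitOf hε)⁻¹ : (𝓞 K)ˣ) : 𝓞 K) with hy
  have hxy : x * y = 1 := by rw [hx, hy, Units.mul_inv]
  have hxt : x + y = (t : 𝓞 K) := by
    linear_combination y * (Quad.unit_eq hε) - (x - t) * hxy
  have hU := (Lucas.sub_mul_U hxy hxt p).1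
  have hxyp : x ^ p * y ^ p = 1 := by rw [← mul_pow, hxy, one_pow]
  have h1 : (p : 𝓞 K) ∣ x ^ (2 * p) - 1 := by
    have e1 : x ^ (2 * p) - 1 = x ^ p * (x - y) * (Lucas.U t p : 𝓞 K) := by
      rw [mul_comm 2 p, pow_mul]
      linear_combination -(x ^ p) * hU + hxyp
    rw [e1]
    apply Dvd.dvd.mul_left
    have := map_dvd (Int.castRingHom (𝓞 K)) h
    simpa using this
  have h2 := unit_cong_one hp hxy hxt hpt
  have h3 : (p : 𝓞 K) ∣ x ^ (2 * p ^ 2) - 1 := by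
    have := pow_one_cong (m := 1) (by simpa using h1) p
    rw [pow_one, ← pow_mul] at this
    rwa [pow_two, ← mul_assoc]
  have h4 : (p : 𝓞 K) ∣ x ^ (2 * (p ^ 2 - 1)) - 1 := by
    have := pow_one_cong (m := 1) (by simpa using h2) 2
    rw [pow_one, ← pow_mul] at this
    rwa [mul_comm 2]
  have hpp : p ^ 2 = p ^ 2 - 1 + 1 := (Nat.sub_add_cancel (Nat.one_le_pow _ _ hp.pos)).symm
  have h5 : (p : 𝓞 K) ∣ x ^ 2 - 1 := by
    have e : x ^ (2 * p ^ 2) = x ^ (2 * (p ^ 2 - 1)) * x ^ 2 := by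
      rw [← pow_add]
      congr 1
      omega
    rw [e] at h3
    have e2 : x ^ 2 - 1 = (x ^ (2 * (p ^ 2 - 1)) * x ^ 2 - 1)
      - (x ^ (2 * (p ^ 2 - 1)) - 1) * x ^ 2 := by ring
    rw [e2]
    exact dvd_sub h3 (Dvd.dvd.mul_right h4 _)
  apply hpt
  apply int_dvd (K := K)
  push_cast
  have e3 : (t : 𝓞 K) ^ 2 - 4 = (x ^ 2 - 1) * (y * (x - y)) := by
    rw [← hxt]
    linear_combination (-x ^ 2 + x * y + 4) * hxy
  rw [e3]
  exact Dvd.dvd.mul_right h5 _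

/-- every real quadratic field contains a root of some `x ^ 2 - t x + 1`, `t ≥ 3` -/
lemma exists_eps {D : ℕ} (hD : ¬ IsSquare D) {α : K} (hα : α ^ 2 = D) :
    ∃ t : ℤ, 3 ≤ t ∧ ∃ ε : K, ε ^ 2 - t * ε + 1 = 0 := by
  have hD0 : D ≠ 0 := by
    rintro rfl
    exact hD ⟨0, rfl⟩
  have hDz : ¬ IsSquare (D : ℤ) := by
    rwa [Int.isSquare_natCast_iff]
  obtain ⟨a, b, hab, hb⟩ := Pell.exists_of_not_isSquare (d := (D : ℤ)) (by omega) hDz
  have hb2 : 1 ≤ b ^ 2 := by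
    have : 0 < b ^ 2 := by positivity
    omega
  have hD1 : (1 : ℤ) ≤ D := by omega
  have ha2 : 2 ≤ a ^ 2 := by nlinarith
  have ha : 2 ≤ |a| := by
    by_contra hlt
    push Not at hlt
    have h1 : |a| ≤ 1 := by omega
    have h2 : a ^ 2 ≤ 1 := by
      rw [← sq_abs]
      have := abs_nonneg a
      nlinarith
    omega
  refine ⟨2 * |a|, by omega, ((|a| : ℤ) : K) + b * α, ?_⟩
  have h1 : ((|a| : ℤ) : K) ^ 2 - D * b ^ 2 = 1 := by
    have h2 : |a| ^ 2 - D * b ^ 2 = 1 := by rw [sq_abs]; exact hab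
    exact_mod_cast congrArg (fun z : ℤ => (z : K)) h2
  push_cast
  push_cast at h1
  linear_combination -h1 + (b : K) ^ 2 * hα

/-- **Main result.** -/
theorem main (D : ℕ) (hD : ¬ IsSquare D) (K : Type) [Field K] [NumberField K]
    (h2 : Module.finrank ℚ K = 2) (hα : ∃ α : K, α ^ 2 = D) (c : ℕ) (hc : 0 < c) :
    {p : ℕ | p.Prime ∧ jacobiSym (-(c : ℤ)) p = -1 ∧
      ∃ m : ℕ, Nat.card (TT K p) = p ^ (2 * m)}.Infinite := by
  classical
  obtain ⟨α, hα⟩ := hα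
  obtain ⟨t, ht, ε, hε⟩ := exists_eps hD hα
  obtain ⟨φ⟩ := Quad.exists_real h2 ht hε
  obtain ⟨η, hη⟩ := Quad.exists_gen h2 φ
  obtain ⟨b, hb⟩ := hη (Quad.unitOf hε)
  have hb0 : b ≠ 0 := by
    rintro rfl
    have hinf := Quad.inf_order h2 ht hε 2 (by norm_num)
    apply hinf
    rcases hb with hb | hb <;> rw [hb] <;> simp
  have hD4 : t ^ 2 - 4 ≠ 0 := by nlinarith
  -- the bad primes
  set M : ℕ := 2 * (t ^ 2 - 4).natAbs * classNumber K * b.natAbs with hM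
  have hM0 : M ≠ 0 := by
    have h3 : (t ^ 2 - 4).natAbs ≠ 0 := Int.natAbs_ne_zero.mpr hD4
    have h4 : classNumber K ≠ 0 := classNumber_ne_zero K
    have h5 : b.natAbs ≠ 0 := Int.natAbs_ne_zero.mpr hb0
    positivity
  -- the period
  have : NeZero (4 * c) := ⟨by omega⟩
  obtain ⟨P, hP, hPk⟩ := Lucas.exists_period t (4 * c)
  have : NeZero P := ⟨hP.ne'⟩
  have hSinf : {k : ℕ | k.Prime ∧ (k : ZMod P) = -1}.Infinite :=
    Nat.infinite_setOfPred_prime_and_eq_mod isUnit_one.neg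
  -- the primes attached to the indices
  have hex : ∀ k : ℕ, k.Prime ∧ (k : ZMod P) = -1 → ∃ p : ℕ, p.Prime ∧
      jacobiSym (-(c : ℤ)) p = -1 ∧ ∃ m : ℕ, (p : ℤ) ^ (2 * m + 1) ∣ Lucas.U t k ∧
        ¬ (p : ℤ) ^ (2 * m + 1 + 1) ∣ Lucas.U t k := by
    rintro k ⟨_, hk⟩
    have h3 : P ∣ k + 1 := by
      rw [← ZMod.natCast_eq_zero_iff]
      push_cast
      rw [hk]
      ring
    have h4 := hPk k h3
    obtain ⟨n, hn⟩ := Int.eq_ofNat_of_zero_le (Lucas.U_pos ht k).1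
    rw [hn] at h4
    obtain ⟨p, hp, hp1, m, h5, h6⟩ := Lucas.exists_prime (-(c : ℤ)) n (Lucas.jac_U c hc n h4)
    refine ⟨p, hp, hp1, m, ?_, ?_⟩
    · rw [hn]
      exact_mod_cast h5
    · rw [hn]
      exact_mod_cast h6
  choose! f hf using hex
  have hinj : Set.InjOn f {k : ℕ | k.Prime ∧ (k : ZMod P) = -1} := by
    intro k hk l hl hkl
    by_contra hne
    obtain ⟨hp, _, m, h3, _⟩ := hf k hk
    obtain ⟨_, _, m', h4, _⟩ := hf l hl
    rw [← hkl] at h4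
    have hcop : Nat.Coprime k l := (Nat.coprime_primes hk.1 hl.1).mpr hne
    apply Lucas.not_both (Nat.prime_iff_prime_int.mp hp) hcop
      ((dvd_pow_self _ (by omega)).trans h3)
    exact (dvd_pow_self _ (by omega)).trans h4
  have hmaps : Set.MapsTo f {k : ℕ | k.Prime ∧ (k : ZMod P) = -1}
      ({p : ℕ | p.Prime ∧ jacobiSym (-(c : ℤ)) p = -1 ∧
      ∃ m : ℕ, Nat.card (TT K p) = p ^ (2 * m)} ∪ (M.divisors : Set ℕ)) := by
    intro k hk
    obtain ⟨hp, hp1, m, h3, h4⟩ := hf k hk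
    by_cases hpM : f k ∣ M
    · right
      rw [Finset.mem_coe, Nat.mem_divisors]
      exact ⟨hpM, hM0⟩
    · left
      refine ⟨hp, hp1, m, ?_⟩
      set p := f k with hpdef
      have hp2 : p ≠ 2 := by
        intro h5
        apply hpM
        rw [h5, hM]
        exact ⟨(t ^ 2 - 4).natAbs * classNumber K * b.natAbs, by ring⟩
      have hpt : ¬ (p : ℤ) ∣ t ^ 2 - 4 := by
        intro h5
        apply hpM
        rw [Int.natCast_dvd] at h5
        rw [hM]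
        exact Dvd.dvd.mul_right (Dvd.dvd.mul_right (Dvd.dvd.mul_left h5 _) _) _
      have hph : ¬ p ∣ classNumber K := by
        intro h5
        apply hpM
        rw [hM]
        exact Dvd.dvd.mul_right (Dvd.dvd.mul_left h5 _) _
      have hpb : ¬ p ∣ b.natAbs := by
        intro h5
        apply hpM
        rw [hM]
        exact Dvd.dvd.mul_left h5 _
      have hpk : p ≠ k := by
        intro h5
        rw [← h5] at h3
        exact ne_index hε hp hpt ((dvd_pow_self _ (by omega)).trans h3)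
      have hE := exact_exp hε hp hpt h3 h4
      have hval : ((Quad.unitOf hε ^ (2 * k) : (𝓞 K)ˣ) : 𝓞 K)
          = ((Quad.unitOf hε : (𝓞 K)ˣ) : 𝓞 K) ^ (2 * k) := Units.val_pow_eq_pow_val _ _
      have hpodd : ¬ p ∣ 2 := by
        intro h5
        exact hp2 ((Nat.prime_dvd_prime_iff_eq hp Nat.prime_two).mp h5)
      have hpk' : ¬ p ∣ k := by
        intro h5
        exact hpk ((Nat.prime_dvd_prime_iff_eq hp hk.1).mp h5)
      apply card_TT hp hp2 (2 * m) (Quad.unitOf hε ^ (2 * k)) (by rw [hval]; exact hE.1)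
        (by rw [hval]; exact hE.2) (2 * k * b.natAbs) ?_ ?_ (p ^ 2 - 1) ?_ ?_ hph
      · intro h5
        rcases hp.dvd_mul.mp h5 with h6 | h6
        · rcases hp.dvd_mul.mp h6 with h7 | h7
          · exact hpodd h7
          · exact hpk' h7
        · exact hpb h6
      · intro e
        obtain ⟨a, ha⟩ := hη e
        have he2 : e ^ 2 = η ^ (2 * a) := by
          rcases ha with ha | ha <;> rw [ha] <;> simp [zpow_mul, mul_comm]
        have hε2 : Quad.unitOf hε ^ 2 = η ^ (2 * b) := by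
          rcases hb with hb | hb <;> rw [hb] <;> simp [zpow_mul, mul_comm]
        refine ⟨a * b.sign, ?_⟩
        have hL : e ^ (2 * k * b.natAbs) = η ^ (2 * a * ((k * b.natAbs : ℕ) : ℤ)) := by
          rw [mul_assoc, pow_mul, he2, ← zpow_natCast, ← zpow_mul]
        have hR : Quad.unitOf hε ^ (2 * k) = η ^ (2 * b * (k : ℤ)) := by
          rw [pow_mul, hε2, ← zpow_natCast, ← zpow_mul]
        rw [hL, hR, ← zpow_mul]
        congr 1
        push_cast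
        have hsb : b.sign * b = |b| := by
          exact Int.sign_mul_self_eq_abs b
        rw [← hsb]
        ring
      · intro h5
        have h6 : p ∣ p ^ 2 := dvd_pow_self _ (by norm_num)
        have h7 : p ∣ 1 := by
          have h8 := Nat.dvd_sub h6 h5
          have h9 : p ^ 2 - (p ^ 2 - 1) = 1 := by
            have := Nat.one_le_pow 2 p hp.pos
            omega
          rwa [h9] at h8
        exact hp.one_lt.ne' (Nat.dvd_one.mp h7)
      · intro a ha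
        exact exp_dvd h2 ht hε hp hpt a ha
  have hU := Set.infinite_of_injOn_mapsTo hinj hmaps hSinf
  rw [Set.infinite_union] at hU
  rcases hU with hU | hU
  · exact hU
  · exact absurd (Finset.finite_toSet _) hU

end Run7.h403.Even
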