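import Pool.Agent.Run7.h403.Nontriv
import Pool.Agent.Run7.h403.Quad
import Pool.Agent.Run7.h403.Count

/-!
# Exceptional primes of the fields `ℚ(√(t ^ 2 - 4))`
-/

set_option autoImplicit false

namespace Run7.h403.Exc

open Finset Polynomial Run7.h403.Local Run7.h403.Count NumberField

lemma not_dvd_sq_sub_one {p : ℕ} (hp : p.Prime) : ¬ p ∣ p ^ 2 - 1 := by
  intro h
  have h1 : p ∣ p ^ 2 := dvd_pow_self _ two_ne_zero
  have h2 : 1 ≤ p ^ 2 := Nat.one_le_pow _ _ hp.pos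
  have h3 : p ∣ p ^ 2 - (p ^ 2 - 1) := Nat.dvd_sub h1 h
  have h4 : p ^ 2 - (p ^ 2 - 1) = 1 := by omega
  rw [h4] at h3
  exact hp.one_lt.ne' (Nat.dvd_one.mp h3)

/-- general form: `ε ^ s ≡ 1 mod p ^ 2` -/
theorem exc_of_cong {K : Type} [Field K] [NumberField K] (h2 : Module.finrank ℚ K = 2) {t : ℤ}
    (ht : 3 ≤ t) {ε : K} (hε : ε ^ 2 - t * ε + 1 = 0) {p : ℕ} (hp : p.Prime) (hp2 : p ≠ 2)
    (hV : ∀ s : ℤ, 3 ≤ s → t ≠ V p s) (s : ℕ) (hs : ¬ p ∣ s)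
    (h1 : (p : 𝓞 K) ^ 2 ∣ ((Quad.unitOf hε : (𝓞 K)ˣ) : 𝓞 K) ^ s - 1) : TT K p ≠ ⊥ := by
  obtain ⟨φ⟩ := Quad.exists_real h2 ht hε
  obtain ⟨η, hη⟩ := Quad.exists_gen h2 φ
  refine TT_ne_bot hp hp2 η hη (Quad.unitOf hε) ?_ (Quad.inf_order h2 ht hε) s hs h1
  intro ζ hζ
  obtain ⟨s, hs, hts⟩ := Quad.of_pow h2 ht hε (hp.odd_of_ne_two hp2) ζ hζ
  exact hV s hs hts

theorem exc {K : Type} [Field K] [NumberField K] (h2 : Module.finrank ℚ K = 2) {t : ℕ}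
    (ht : 3 ≤ t) {ε : K} (hε : ε ^ 2 - t * ε + 1 = 0) {p : ℕ} (hp : p.Prime) (hp2 : p ≠ 2)
    (hB : t % p ^ 2 ∈ Bad p) (hV : ∀ s : ℤ, 3 ≤ s → (t : ℤ) ≠ V p s) : TT K p ≠ ⊥ := by
  have hε' : ε ^ 2 - ((t : ℤ) : K) * ε + 1 = 0 := by simpa using hε
  have ht' : (3 : ℤ) ≤ t := by exact_mod_cast ht
  refine exc_of_cong h2 ht' hε' hp hp2 hV (p ^ 2 - 1) (not_dvd_sq_sub_one hp) ?_
  obtain ⟨h3, h4⟩ := of_mod_mem hp hB
  refine unit_cong hp (t := (t : ℤ)) (x := ((Quad.unitOf hε' : (𝓞 K)ˣ) : 𝓞 K))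
    (y := (((Quad.unitOf hε')⁻¹ : (𝓞 K)ˣ) : 𝓞 K)) (Units.mul_inv _) ?_ h3 h4
  apply RingOfIntegers.ext
  change ε + (((t : ℤ) : K) - ε) = (((t : ℤ) : 𝓞 K) : K)
  simp

lemma V_zero (s : ℤ) : V 0 s = 2 := by
  simp [V, dickson_zero]

lemma V_one (s : ℤ) : V 1 s = s := by simp [V]

lemma V_add_two (n : ℕ) (s : ℤ) : V (n + 2) s = s * V (n + 1) s - V n s := by
  simp [V, dickson_add_two]

lemma V_mono {s : ℤ} (hs : 3 ≤ s) (n : ℕ) : 0 < V n s ∧ V n s ≤ V (n + 1) s := by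
  induction n with
  | zero => rw [V_zero, V_one]; omega
  | succ n ih =>
    have h1 : 0 < V (n + 1) s := lt_of_lt_of_le ih.1 ih.2
    refine ⟨h1, ?_⟩
    rw [V_add_two]
    nlinarith [ih.2]

lemma le_V {s : ℤ} (hs : 3 ≤ s) (n : ℕ) : (s - 1) ^ (n + 1) ≤ V (n + 1) s := by
  induction n with
  | zero => rw [zero_add, pow_one, V_one]; omega
  | succ n ih =>
    have h1 := V_mono hs n
    rw [V_add_two, pow_succ]
    nlinarith [h1.2]

open Classical in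
/-- traces of `p`-th powers are rare -/
lemma card_PE (X : ℕ) :
    ((range X).filter (fun t : ℕ => ∃ p : ℕ, p.Prime ∧ p ≠ 2 ∧ ∃ s : ℤ, 3 ≤ s ∧ (t : ℤ) = V p s)).card
      ≤ (Nat.log 2 X + 1) * (Nat.sqrt X + 2) := by
  have hsub : (range X).filter (fun t : ℕ => ∃ p : ℕ, p.Prime ∧ p ≠ 2 ∧ ∃ s : ℤ, 3 ≤ s ∧
      (t : ℤ) = V p s) ⊆ ((range (Nat.log 2 X + 1)) ×ˢ (range (Nat.sqrt X + 2))).image
        (fun ps => (V ps.1 (ps.2 : ℤ)).toNat) := by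
    intro t ht
    rw [mem_filter, mem_range] at ht
    obtain ⟨htX, p, hp, hp2, s, hs, hts⟩ := ht
    have hp3 : 3 ≤ p := by have := hp.two_le; omega
    obtain ⟨m, rfl⟩ : ∃ m : ℕ, s = m := ⟨s.toNat, (Int.toNat_of_nonneg (by omega)).symm⟩
    obtain ⟨k, rfl⟩ : ∃ k : ℕ, m = k + 1 := ⟨m - 1, by omega⟩
    obtain ⟨q, rfl⟩ : ∃ q : ℕ, p = q + 1 := ⟨p - 1, by omega⟩
    have h1 := le_V hs q
    rw [← hts] at h1
    have h2 : k ^ (q + 1) ≤ t := by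
      have : (((k + 1 : ℕ) : ℤ) - 1) = (k : ℤ) := by push_cast; ring
      rw [this] at h1
      exact_mod_cast h1
    have hk : 2 ≤ k := by omega
    rw [mem_image]
    refine ⟨(q + 1, k + 1), ?_, ?_⟩
    · rw [mem_product, mem_range, mem_range]
      constructor
      · have h3 : 2 ^ (q + 1) ≤ X := (Nat.pow_le_pow_left hk _).trans (h2.trans htX.le)
        have h4 := Nat.le_log_of_pow_le (b := 2) (by norm_num) h3
        simp only
        omega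
      · have h3 : k ^ 2 ≤ X := (Nat.pow_le_pow_right (by omega) (by omega)).trans (h2.trans htX.le)
        have h4 : k ≤ Nat.sqrt X := Nat.le_sqrt'.mpr h3
        simp only
        omega
    · simp only
      rw [← hts]
      simp
  refine (card_le_card hsub).trans (card_image_le.trans ?_)
  rw [card_product, card_range, card_range]

/-- the fourth root -/
def zz (X : ℕ) : ℕ := Nat.sqrt (Nat.sqrt X)

lemma zz_pow (X : ℕ) : zz X ^ 4 ≤ X := by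
  have h1 : zz X ^ 2 ≤ Nat.sqrt X := Nat.sqrt_le' _
  have h2 : Nat.sqrt X ^ 2 ≤ X := Nat.sqrt_le' _
  calc zz X ^ 4 = (zz X ^ 2) ^ 2 := by ring
    _ ≤ Nat.sqrt X ^ 2 := Nat.pow_le_pow_left h1 2
    _ ≤ X := h2

lemma lt_zz (X : ℕ) : X < (zz X + 1) ^ 4 := by
  have h1 : Nat.sqrt X < (zz X + 1) ^ 2 := Nat.lt_succ_sqrt' _
  have h2 : X < (Nat.sqrt X + 1) ^ 2 := Nat.lt_succ_sqrt' _
  calc X < (Nat.sqrt X + 1) ^ 2 := h2
    _ ≤ ((zz X + 1) ^ 2) ^ 2 := Nat.pow_le_pow_left h1 2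
    _ = _ := by ring

lemma log_le (X : ℕ) (hX : X ≠ 0) : Nat.log 2 X < 4 * (zz X + 1) := by
  apply Nat.log_lt_of_lt_pow hX
  calc X < (zz X + 1) ^ 4 := lt_zz X
    _ ≤ (2 ^ (zz X + 1)) ^ 4 := Nat.pow_le_pow_left (Nat.lt_two_pow_self).le 4
    _ = _ := by rw [← pow_mul]; ring_nf

/-- the odd primes up to the fourth root -/
def PP (X : ℕ) : Finset ℕ := (Icc 1 (zz X)).filter (fun p => p.Prime ∧ p ≠ 2)

lemma mem_PP {X p : ℕ} : p ∈ PP X ↔ (1 ≤ p ∧ p ≤ zz X) ∧ p.Prime ∧ p ≠ 2 := by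
  rw [PP, mem_filter, mem_Icc]

lemma sum_card_le (X : ℕ) : (∑ p ∈ PP X, ((Bad p).card : ℝ)) ^ 2 ≤ X := by
  have h1 : ∑ p ∈ PP X, (Bad p).card ≤ zz X * zz X := by
    calc ∑ p ∈ PP X, (Bad p).card ≤ ∑ p ∈ PP X, zz X := by
          apply sum_le_sum
          intro p hp
          rw [mem_PP] at hp
          exact (card_Bad_le' hp.2.1).trans hp.1.2
      _ = (PP X).card * zz X := by rw [sum_const, smul_eq_mul]
      _ ≤ zz X * zz X := by
          apply Nat.mul_le_mul_right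
          calc (PP X).card ≤ (Icc 1 (zz X)).card := card_filter_le _ _
            _ = zz X := by simp
  have h2 : (∑ p ∈ PP X, (Bad p).card) ^ 2 ≤ X := by
    calc (∑ p ∈ PP X, (Bad p).card) ^ 2 ≤ (zz X * zz X) ^ 2 := Nat.pow_le_pow_left h1 2
      _ = zz X ^ 4 := by ring
      _ ≤ X := zz_pow X
  exact_mod_cast h2

/-- `∑ w_p ≥ log log X - C` -/
lemma le_mu : ∃ C : ℝ, ∀ X : ℕ, 3 ≤ zz X →
    Real.log (Real.log X) - C ≤ ∑ p ∈ PP X, w p := by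
  obtain ⟨C, hC⟩ := Pool.Agent.Erdos456.Mert.mertens_inv
  have hs : Summable (fun n : ℕ => 1 / (n : ℝ) ^ 2) := Real.summable_one_div_nat_pow.2 (by norm_num)
  refine ⟨C + Real.log 8 + 1 / 2 + 2 * ∑' n : ℕ, 1 / (n : ℝ) ^ 2, fun X hX => ?_⟩
  have h1 := (abs_le.mp (hC (zz X) hX)).1
  have hlog : Real.log (Real.log X) ≤ Real.log (Real.log (zz X)) + Real.log 8 := by
    have hz : (3 : ℝ) ≤ zz X := by exact_mod_cast hX
    have hlz : 0 < Real.log (zz X) := Real.log_pos (by linarith)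
    have hX0 : 0 < X := by
      have := zz_pow X
      have : 3 ^ 4 ≤ zz X ^ 4 := Nat.pow_le_pow_left hX 4
      omega
    have hX1 : (1 : ℝ) < X := by
      have := zz_pow X
      have : 3 ^ 4 ≤ zz X ^ 4 := Nat.pow_le_pow_left hX 4
      exact_mod_cast (by omega : 1 < X)
    have h2 : X ≤ zz X ^ 8 := by
      calc X ≤ (zz X + 1) ^ 4 := (lt_zz X).le
        _ ≤ (zz X ^ 2) ^ 4 := Nat.pow_le_pow_left (by nlinarith) 4
        _ = _ := by ring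
    have h3 : Real.log X ≤ 8 * Real.log (zz X) := by
      have : Real.log ((zz X : ℝ) ^ 8) = 8 * Real.log (zz X) := by
        rw [Real.log_pow]; norm_num
      rw [← this]
      apply Real.log_le_log (by exact_mod_cast hX0)
      exact_mod_cast h2
    have h4 : Real.log (Real.log X) ≤ Real.log (8 * Real.log (zz X)) :=
      Real.log_le_log (Real.log_pos hX1) h3
    rw [Real.log_mul (by norm_num) hlz.ne'] at h4
    linarith
  have h2 : ∑ p ∈ (Icc 1 (zz X)).filter Nat.Prime, (1 : ℝ) / p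
      ≤ 1 / 2 + ∑ p ∈ PP X, (1 : ℝ) / p := by
    have hsub : (Icc 1 (zz X)).filter Nat.Prime ⊆ insert 2 (PP X) := by
      intro p hp
      rw [mem_filter, mem_Icc] at hp
      rw [mem_insert, mem_PP]
      tauto
    calc ∑ p ∈ (Icc 1 (zz X)).filter Nat.Prime, (1 : ℝ) / p
        ≤ ∑ p ∈ insert 2 (PP X), (1 : ℝ) / p := by
          apply sum_le_sum_of_subset_of_nonneg hsub
          intros; positivity
      _ = 1 / 2 + ∑ p ∈ PP X, (1 : ℝ) / p := by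
          rw [sum_insert]
          · norm_num
          · rw [mem_PP]; tauto
  have h3 : ∑ p ∈ PP X, (1 : ℝ) / p - 2 * ∑ p ∈ PP X, 1 / (p : ℝ) ^ 2 ≤ ∑ p ∈ PP X, w p := by
    rw [mul_sum, ← sum_sub_distrib]
    apply sum_le_sum
    intro p hp
    rw [mem_PP] at hp
    have h4 := le_card_Bad hp.2.1 hp.2.2
    have h5 : (2 : ℕ) ≤ p := hp.2.1.two_le
    have h6 : (p : ℝ) - 2 ≤ (Bad p).card := by
      have : ((p - 2 : ℕ) : ℝ) = (p : ℝ) - 2 := by push_cast [Nat.cast_sub h5]; ring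
      rw [← this]
      exact_mod_cast h4
    have hp0 : (0 : ℝ) < p := by exact_mod_cast hp.2.1.pos
    rw [w]
    push_cast
    rw [le_div_iff₀ (by positivity)]
    field_simp
    linarith
  have h4 : ∑ p ∈ PP X, 1 / (p : ℝ) ^ 2 ≤ ∑' n : ℕ, 1 / (n : ℝ) ^ 2 :=
    hs.sum_le_tsum _ (fun i _ => by positivity)
  linarith

end Run7.h403.Exc
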