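import Pool.Agent.Run7.h403.Nontriv

/-!
# Exact exponents of powers
-/

set_option autoImplicit false

namespace Run7.h403

section Ring

variable {R : Type*} [CommRing R]

lemma pow_one_cong {p : ℕ} {y : R} {m : ℕ} (h1 : (p : R) ^ m ∣ y - 1) (k : ℕ) :
    (p : R) ^ m ∣ y ^ k - 1 := by
  have := sub_dvd_pow_sub_pow y 1 k
  rw [one_pow] at this
  exact h1.trans this

/-- `(y + p ^ j r) ^ (p ^ m) = y ^ (p ^ m) + p ^ (j + m) (r + p s)` -/
lemma pow_expand {p : ℕ} (hp : p.Prime) (hp2 : p ≠ 2) (y r : R) (h1 : (p : R) ∣ y - 1) {j : ℕ}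
    (hj : 1 ≤ j) (m : ℕ) :
    ∃ s : R, (y + (p : R) ^ j * r) ^ (p ^ m) = y ^ (p ^ m) + (p : R) ^ (j + m) * (r + p * s) := by
  induction m with
  | zero => exact ⟨0, by simp⟩
  | succ m ih =>
    obtain ⟨s, hs⟩ := ih
    rw [pow_succ, pow_mul, hs, pow_mul]
    set Y := y ^ (p ^ m) with hY
    set r' := r + p * s with hr'
    obtain ⟨c, hc⟩ := add_pow_prime_expand hp Y ((p : R) ^ (j + m) * r')
    have hY1 : (p : R) ∣ Y ^ (p - 1) - 1 := by
      rw [hY, ← pow_mul]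
      have := pow_one_cong (m := 1) (by simpa using h1) (p ^ m * (p - 1))
      simpa using this
    obtain ⟨d, hd⟩ := hY1
    have hp3 : 3 ≤ p := by
      have := hp.two_le
      omega
    obtain ⟨e, he⟩ := Nat.exists_eq_add_of_le (show j + m + 2 ≤ (j + m) * p by nlinarith)
    obtain ⟨g, hg⟩ := Nat.exists_eq_add_of_le (show 1 ≤ j + m by omega)
    refine ⟨s + d * r' + (p : R) ^ g * r' ^ 2 * c + (p : R) ^ e * r' ^ p, ?_⟩
    have e1 : Y ^ (p - 1) = 1 + p * d := by rw [← hd]; ring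
    have e3 : ((p : R) ^ (j + m)) ^ p = (p : R) ^ (j + m + 2 + e) := by rw [← pow_mul, he]
    rw [hc, mul_pow ((p : R) ^ (j + m)) r' p, e3, e1]
    have e2 : j + (m + 1) = j + m + 1 := by ring
    rw [e2, hg, hr']
    ring

end Ring

section Dom

variable {R : Type*} [CommRing R] [IsDomain R]

lemma exact_sub {p : ℕ} (hp : p.Prime) (hp2 : p ≠ 2) (hp0 : (p : R) ≠ 0) {x y : R}
    (h1 : (p : R) ∣ y - 1) {s : ℕ} (hs : 1 ≤ s) (h2 : (p : R) ^ s ∣ x - y)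
    (h3 : ¬ (p : R) ^ (s + 1) ∣ x - y) (k : ℕ) :
    (p : R) ^ (s + k) ∣ x ^ p ^ k - y ^ p ^ k ∧ ¬ (p : R) ^ (s + k + 1) ∣ x ^ p ^ k - y ^ p ^ k := by
  obtain ⟨r, hr⟩ := h2
  obtain ⟨t, ht⟩ := pow_expand hp hp2 y r h1 hs k
  have hx : x = y + (p : R) ^ s * r := by rw [← hr]; ring
  rw [hx, ht]
  have e1 : y ^ p ^ k + (p : R) ^ (s + k) * (r + p * t) - y ^ p ^ k
      = (p : R) ^ (s + k) * (r + p * t) := by ring
  rw [e1]
  refine ⟨dvd_mul_right _ _, fun h => h3 ?_⟩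
  rw [pow_succ, mul_dvd_mul_iff_left (pow_ne_zero _ hp0)] at h
  have h4 : (p : R) ∣ r := by
    have := dvd_sub h (dvd_mul_right (p : R) t)
    simpa using this
  rw [hr, pow_succ]
  exact mul_dvd_mul_left _ h4

/-- the exact exponent of `x - 1` is `w` -/
def Ex (p w : ℕ) (x : R) : Prop := (p : R) ^ w ∣ x - 1 ∧ ¬ (p : R) ^ (w + 1) ∣ x - 1

lemma Ex.pow_p {p : ℕ} (hp : p.Prime) (hp2 : p ≠ 2) (hp0 : (p : R) ≠ 0) {w : ℕ} (hw : 1 ≤ w)
    {x : R} (h : Ex p w x) (k : ℕ) : Ex p (w + k) (x ^ p ^ k) := by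
  have := exact_sub hp hp2 hp0 (y := 1) (by simp) hw h.1 h.2 k
  simpa [Ex] using this

lemma Ex.pow_coprime {p : ℕ} (hp : p.Prime) {w : ℕ} (hw : 1 ≤ w)
    {x : R} (h : Ex p w x) {N : ℕ} (hN : ¬ p ∣ N) : Ex p w (x ^ N) := by
  refine ⟨pow_one_cong h.1 N, fun h1 => h.2 ?_⟩
  apply dvd_of_pow hp hN _ h1
  exact (dvd_pow_self _ (by omega)).trans h.1

lemma exists_exact {p : ℕ} {x : R} (h1 : (p : R) ∣ x) {m : ℕ}
    (h2 : ¬ (p : R) ^ m ∣ x) : ∃ s, 1 ≤ s ∧ s < m ∧ (p : R) ^ s ∣ x ∧ ¬ (p : R) ^ (s + 1) ∣ x := by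
  classical
  have hex : ∃ n, ¬ (p : R) ^ n ∣ x := ⟨m, h2⟩
  have h3 := Nat.find_spec hex
  have h4 : Nat.find hex ≤ m := Nat.find_min' hex h2
  have h5 : 2 ≤ Nat.find hex := by
    by_contra hlt
    have : Nat.find hex = 0 ∨ Nat.find hex = 1 := by omega
    rcases this with h | h <;> rw [h] at h3 <;> simp at h3
    exact h3 h1
  refine ⟨Nat.find hex - 1, by omega, by omega, ?_, ?_⟩
  · have := Nat.find_min hex (m := Nat.find hex - 1) (by omega)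
    exact not_not.mp this
  · have e : Nat.find hex - 1 + 1 = Nat.find hex := by omega
    rw [e]
    exact h3

lemma root_cong {p : ℕ} (hp : p.Prime) (hp2 : p ≠ 2) (hp0 : (p : R) ≠ 0) {x y : R}
    (h1 : (p : R) ∣ x - 1) (h2 : (p : R) ∣ y - 1) {l k : ℕ}
    (h : (p : R) ^ (l + k) ∣ x ^ p ^ k - y ^ p ^ k) : (p : R) ^ l ∣ x - y := by
  by_contra hcon
  have hxy : (p : R) ∣ x - y := by
    have := dvd_sub h1 h2
    simpa using this
  obtain ⟨s, hs1, hs2, hs3, hs4⟩ := exists_exact hxy hcon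
  apply (exact_sub hp hp2 hp0 h2 hs1 hs3 hs4 k).2
  exact (pow_dvd_pow _ (by omega)).trans h

end Dom

end Run7.h403
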