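import Pool.Agent.Run7.h403.Met
import Pool.Agent.R479.DB.Lim
import Pool.Agent.R479.DA.Lim
import Pool.Agent.N220.CF.D

/-!
# Rational approximations in a sparse set: linear forms, convergents, Hausdorff dimension
-/

set_option autoImplicit false

namespace Run7.h403.Met

open MeasureTheory Filter Set Topology

/-- two independent linear forms at an integral point, in absolute value -/
def val (a b c d : ℤ) (t : ℤ × ℕ) : ℕ × ℕ := ((a * t.1 + b * t.2).natAbs, (c * t.1 + d * t.2).natAbs)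

theorem count_forms {a b c d : ℤ} (hdet : a * d - b * c ≠ 0) (B : Set (ℤ × ℕ)) (S : Set (ℕ × ℕ)) (hS : S.Finite)
    (hB : ∀ t ∈ B, val a b c d t ∈ S) : B.ncard ≤ 4 * S.ncard := by
  classical
  obtain ⟨f, hf⟩ : ∃ f : ℤ × ℕ → (ℕ × ℕ) × (Bool × Bool), f = fun t => (val a b c d t,
    (decide (0 ≤ a * t.1 + b * t.2), decide (0 ≤ c * t.1 + d * t.2))) := ⟨_, rfl⟩
  have hinj : Function.Injective f := by
    rintro ⟨p, q⟩ ⟨p', q'⟩ h
    rw [hf] at h
    simp only [val, Prod.mk.injEq, decide_eq_decide] at h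
    obtain ⟨⟨h1, h2⟩, h3, h4⟩ := h
    have h5 : a * p + b * q = a * p' + b * q' := by
      rcases le_or_gt 0 (a * p + b * q) with h | h
      · have := h3.1 h
        omega
      · have : ¬ 0 ≤ a * p' + b * q' := fun h' => absurd (h3.2 h') (by omega)
        omega
    have h6 : c * p + d * q = c * p' + d * q' := by
      rcases le_or_gt 0 (c * p + d * q) with h | h
      · have := h4.1 h
        omega
      · have : ¬ 0 ≤ c * p' + d * q' := fun h' => absurd (h4.2 h') (by omega)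
        omega
    have h7 : (a * d - b * c) * (p - p') = 0 := by linear_combination d * h5 - b * h6
    have h8 : (a * d - b * c) * ((q : ℤ) - q') = 0 := by linear_combination a * h6 - c * h5
    rcases mul_eq_zero.1 h7 with h | h
    · exact absurd h hdet
    rcases mul_eq_zero.1 h8 with h' | h'
    · exact absurd h' hdet
    have e1 : p = p' := by omega
    have e2 : q = q' := by omega
    rw [e1, e2]
  have hmaps : Set.MapsTo f B (S ×ˢ (Set.univ : Set (Bool × Bool))) := by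
    intro t ht
    rw [hf]
    exact ⟨hB t ht, Set.mem_univ _⟩
  have hfin : (S ×ˢ (Set.univ : Set (Bool × Bool))).Finite := hS.prod Set.finite_univ
  have h := Set.ncard_le_ncard_of_injOn f hmaps hinj.injOn hfin
  refine h.trans (le_of_eq ?_)
  rw [Set.ncard_prod, Set.ncard_univ, Nat.card_eq_fintype_card]
  simp
  omega

/-- the elements of a block which are mapped into sparse sets by two independent forms -/
theorem blk_forms {a b c d : ℤ} (hdet : a * d - b * c ≠ 0) (W : Set (ℤ × ℕ)) (S : ℕ → Set (ℕ × ℕ)) (g : ℕ → ℝ)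
    (hS : ∀ T : ℕ, ∃ (C : ℝ) (j₀ : ℕ), ∀ j : ℕ, j₀ ≤ j →
      ((({p : ℕ × ℕ | (0 < p.1 ∧ p.1 ≤ T * 2 ^ j) ∧ (0 < p.2 ∧ p.2 ≤ T * 2 ^ j) ∧ p ∈ S j}).ncard : ℕ) : ℝ) ≤ C * g j)
    (hW : ∃ j₁ : ℕ, ∀ j : ℕ, j₁ ≤ j → ∀ t ∈ W, 2 ^ j < t.2 → t.2 ≤ 2 ^ (j + 1) →
      IsCoprime (a * t.1 + b * t.2) (c * t.1 + d * t.2) ∧ val a b c d t ∈ S j) :
    ∀ K : ℕ, ∃ (C : ℝ) (j₀ : ℕ), ∀ j : ℕ, j₀ ≤ j → (((blk W K j).ncard : ℕ) : ℝ) ≤ C * g j := by
  intro K
  obtain ⟨T, hT⟩ : ∃ T : ℕ, T = (a.natAbs + b.natAbs + c.natAbs + d.natAbs) * (K + 2) := ⟨_, rfl⟩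
  obtain ⟨C, j₀, hC⟩ := hS T
  obtain ⟨j₁, hj₁⟩ := hW
  refine ⟨4 * C, max j₀ (max j₁ (a.natAbs + c.natAbs)), fun j hj => ?_⟩
  simp only [max_le_iff] at hj
  obtain ⟨hj0, hj1, hj2⟩ := hj
  obtain ⟨Sj, hSj⟩ : ∃ Sj : Set (ℕ × ℕ),
      Sj = {p : ℕ × ℕ | (0 < p.1 ∧ p.1 ≤ T * 2 ^ j) ∧ (0 < p.2 ∧ p.2 ≤ T * 2 ^ j) ∧ p ∈ S j} := ⟨_, rfl⟩
  have hfin : Sj.Finite := by
    apply ((Set.finite_Icc 0 (T * 2 ^ j)).prod (Set.finite_Icc 0 (T * 2 ^ j))).subset
    rintro ⟨p, q⟩ h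
    rw [hSj] at h
    obtain ⟨⟨h1, h2⟩, ⟨h3, h4⟩, -⟩ := h
    exact ⟨⟨Nat.zero_le _, h2⟩, ⟨Nat.zero_le _, h4⟩⟩
  have h2j : j < 2 ^ j := Nat.lt_two_pow_self
  have hmem : ∀ t ∈ blk W K j, val a b c d t ∈ Sj := by
    rintro ⟨p, q⟩ ⟨htW, hq1, hq2, hp⟩
    obtain ⟨hco, hin⟩ := hj₁ j hj1 _ htW hq1 hq2
    simp only at hq1 hq2 hp hco
    obtain ⟨u, hu⟩ : ∃ u : ℤ, u = a * p + b * q := ⟨_, rfl⟩
    obtain ⟨v, hv⟩ : ∃ v : ℤ, v = c * p + d * q := ⟨_, rfl⟩
    have hval : val a b c d (p, q) = (u.natAbs, v.natAbs) := by rw [val, hu, hv]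
    rw [← hu, ← hv] at hco
    rw [hval] at hin ⊢
    have hq2' : (q : ℤ) ≤ 2 * 2 ^ j := by
      have : q ≤ 2 * 2 ^ j := by rw [pow_succ] at hq2; omega
      exact_mod_cast this
    have hq0 : (0 : ℤ) ≤ q := Int.natCast_nonneg q
    have hdet1 : 1 ≤ |a * d - b * c| := Int.one_le_abs hdet
    -- no zeros
    have hu0 : u ≠ 0 := by
      intro h0
      have e1 : (a * d - b * c) * q = a * v := by rw [hv]; linear_combination (-c) * (hu.symm.trans h0)
      rw [h0, isCoprime_zero_left] at hco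
      have e2 : |v| = 1 := Int.isUnit_iff_abs_eq.1 hco
      have e3 := congrArg abs e1
      rw [abs_mul, abs_mul, e2, mul_one, abs_of_nonneg hq0] at e3
      have e4 : (q : ℤ) ≤ |a| := by nlinarith
      have e5 : (q : ℤ) ≤ (a.natAbs : ℤ) := by rw [Int.natCast_natAbs]; exact e4
      omega
    have hv0 : v ≠ 0 := by
      intro h0
      have e1 : (a * d - b * c) * q = -c * u := by rw [hu]; linear_combination a * (hv.symm.trans h0)
      rw [h0, isCoprime_zero_right] at hco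
      have e2 : |u| = 1 := Int.isUnit_iff_abs_eq.1 hco
      have e3 := congrArg abs e1
      rw [abs_mul, abs_mul, e2, mul_one, abs_of_nonneg hq0, abs_neg] at e3
      have e4 : (q : ℤ) ≤ |c| := by nlinarith
      have e5 : (q : ℤ) ≤ (c.natAbs : ℤ) := by rw [Int.natCast_natAbs]; exact e4
      omega
    have hbd : ∀ a' b' : ℤ, a'.natAbs + b'.natAbs ≤ a.natAbs + b.natAbs + c.natAbs + d.natAbs →
        (a' * p + b' * q).natAbs ≤ T * 2 ^ j := by
      intro a' b' hab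
      have e1 : |a' * p + b' * q| ≤ |a'| * (K * 2 ^ j) + |b'| * (2 * 2 ^ j) := by
        refine (abs_add_le _ _).trans ?_
        rw [abs_mul, abs_mul, abs_of_nonneg hq0]
        gcongr
      have e2 : ((a'.natAbs + b'.natAbs : ℕ) : ℤ) ≤ ((a.natAbs + b.natAbs + c.natAbs + d.natAbs : ℕ) : ℤ) := by
        exact_mod_cast hab
      have e3 : |a'| * ((K : ℤ) * 2 ^ j) + |b'| * (2 * 2 ^ j) ≤ ((a'.natAbs + b'.natAbs : ℕ) : ℤ) * ((K + 2) * 2 ^ j) := by
        push_cast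
        have h1 := abs_nonneg a'
        have h2 := abs_nonneg b'
        have h3 : (0 : ℤ) ≤ 2 ^ j := by positivity
        have h4 : (0 : ℤ) ≤ K := Int.natCast_nonneg K
        nlinarith [mul_nonneg h1 h3, mul_nonneg h2 h3, mul_nonneg (mul_nonneg h2 h4) h3]
      have e4 : ((a'.natAbs + b'.natAbs : ℕ) : ℤ) * ((K + 2) * 2 ^ j) ≤ ((T * 2 ^ j : ℕ) : ℤ) := by
        rw [hT]
        push_cast
        push_cast at e2
        have h3 : (0 : ℤ) ≤ (K + 2) * 2 ^ j := by positivity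
        calc _ ≤ (|a| + |b| + |c| + |d|) * (((K : ℤ) + 2) * 2 ^ j) := by gcongr
          _ = _ := by ring
      have e5 : |a' * p + b' * q| ≤ ((T * 2 ^ j : ℕ) : ℤ) := e1.trans (e3.trans e4)
      rw [← Int.natCast_natAbs] at e5
      exact_mod_cast e5
    rw [hSj]
    refine ⟨⟨Int.natAbs_pos.2 hu0, ?_⟩, ⟨Int.natAbs_pos.2 hv0, ?_⟩, hin⟩
    · rw [hu]
      exact hbd a b (by omega)
    · rw [hv]
      exact hbd c d (by omega)
  have h1 := count_forms hdet (blk W K j) Sj hfin hmem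
  have h2 := hC j hj0
  rw [← hSj] at h2
  have h3 : (((blk W K j).ncard : ℕ) : ℝ) ≤ 4 * ((Sj.ncard : ℕ) : ℝ) := by exact_mod_cast h1
  linarith

/-- **Convergents.** -/
theorem ae_conv (W : Set (ℤ × ℕ)) (hW : ∀ K : ℕ, ∃ (C : ℝ) (j₀ : ℕ), ∀ j : ℕ, j₀ ≤ j →
      (((blk W K j).ncard : ℕ) : ℝ) ≤ C * (4 ^ j / (j : ℝ) ^ 2)) :
    ∀ᵐ α : ℝ, ∀ᶠ n : ℕ in atTop, ((α.convergent n).num, (α.convergent n).den) ∉ W := by
  have h1 := ae_finite_gen W (ρ := fun j => 1 / (j : ℝ) ^ 2) (fun j => by positivity) (fun K => by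
    obtain ⟨C, j₀, h⟩ := hW K
    exact ⟨C, j₀, fun j hj => (h j hj).trans_eq (by ring)⟩) 0 (ψ := fun _ => 1) (fun _ _ _ => le_rfl)
    (fun _ => zero_le_one) (by
      simp only [one_mul]
      exact Real.summable_one_div_nat_pow.2 (by norm_num)) (Eventually.of_forall fun j => one_le_pow₀ (by norm_num))
  have h2 : ∀ᵐ ξ : ℝ, ξ ∉ Set.range ((↑) : ℚ → ℝ) := (Set.countable_range ((↑) : ℚ → ℝ)).ae_notMem volume
  filter_upwards [h1, h2] with α hα hirr
  obtain ⟨h4, h5⟩ := Pool.Agent.N220.CF.convergent_approx (ξ := α) hirr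
  obtain ⟨M, hM⟩ := (hα.image Prod.snd).bddAbove
  filter_upwards [h5.eventually_gt_atTop M] with n hn hmem
  have h6 : (α.convergent n).den ≤ M := by
    apply hM
    refine ⟨_, ⟨hmem, (α.convergent n).den_pos, ?_⟩, rfl⟩
    have h7 := Pool.Agent.N220.CF.convergent_data hirr n
    have h8 := GenContFract.abs_sub_convs_le (v := α) (Pool.Agent.N220.CF.not_term hirr n)
    rw [Real.convs_eq_convergent, ← h7] at h8
    have hq1 : (1 : ℝ) ≤ ((α.convergent n).den : ℝ) := by exact_mod_cast (α.convergent n).den_pos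
    have hq0 : (0 : ℝ) < ((α.convergent n).den : ℝ) := by linarith
    have h9 : ((α.convergent n).den : ℝ) ≤ (GenContFract.of α).dens (n + 1) := by
      rw [h7]
      exact GenContFract.of_den_mono
    have h3 : ((α.convergent n : ℚ) : ℝ) = ((α.convergent n).num : ℝ) / ((α.convergent n).den : ℝ) := by
      exact_mod_cast (Rat.num_div_den (α.convergent n)).symm
    have e4 : ((α.convergent n).den : ℝ) * α - ((α.convergent n).num : ℝ) - 0 =
        ((α.convergent n).den : ℝ) * (α - ((α.convergent n : ℚ) : ℝ)) := by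
      rw [h3]
      field_simp
      ring
    simp only
    rw [e4, abs_mul, abs_of_pos hq0]
    calc ((α.convergent n).den : ℝ) * |α - ((α.convergent n : ℚ) : ℝ)|
        ≤ ((α.convergent n).den : ℝ) * (1 / (((α.convergent n).den : ℝ) * (GenContFract.of α).dens (n + 1))) :=
          mul_le_mul_of_nonneg_left h8 hq0.le
      _ = 1 / (GenContFract.of α).dens (n + 1) := by
          field_simp
      _ ≤ 1 / ((α.convergent n).den : ℝ) := one_div_le_one_div_of_le hq0 h9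
  omega

end Run7.h403.Met
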