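import Pool.Agent.Run7.h403.Exc

/-!
# Almost all real quadratic fields have many exceptional primes
-/

set_option autoImplicit false

namespace Run7.h403.Main

open Finset Run7.h403.Local Run7.h403.Count Run7.h403.Exc NumberField Filter Topology

/-- For every quadratic field `K` which contains a root of `x ^ 2 - t x + 1`, there are at least
`(1 - δ) log log t` primes `p` with `T_p(K) ≠ 1`. -/
def ManyExc (δ : ℝ) (t : ℕ) : Prop :=
  ∀ (K : Type) [Field K] [NumberField K], Module.finrank ℚ K = 2 →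
    (∃ ε : K, ε ^ 2 - t * ε + 1 = 0) →
    ∃ S : Finset ℕ, (∀ p ∈ S, p.Prime ∧ TT K p ≠ ⊥) ∧
      (1 - δ) * Real.log (Real.log t) ≤ S.card

lemma sum_ind_eq (P : Finset ℕ) (t : ℕ) :
    ∃ S : Finset ℕ, (∀ p ∈ S, p ∈ P ∧ t % p ^ 2 ∈ Bad p) ∧ ∑ p ∈ P, ind p t = S.card := by
  classical
  refine ⟨P.filter (fun p => t % p ^ 2 ∈ Bad p), fun p hp => mem_filter.mp hp, ?_⟩
  rw [card_filter]
  push_cast
  apply sum_congr rfl
  intro p _
  rw [ind]

lemma one_lt_log_three : (1 : ℝ) ≤ Real.log 3 := by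
  rw [Real.le_log_iff_exp_le (by norm_num)]
  have := Real.exp_one_lt_d9
  linarith

theorem key (δ : ℝ) (hδ : 0 < δ) (η : ℝ) (hη : 0 < η) : ∀ᶠ X : ℕ in atTop,
    (({t : ℕ | t < X ∧ ¬ ManyExc δ t}.ncard : ℝ)) ≤ η * X := by
  classical
  obtain ⟨C, hC⟩ := le_mu
  set δ' : ℝ := min δ 1 / 2 with hδ'
  set κ : ℝ := max (1 - δ) 0 with hκ
  have hδ'pos : 0 < δ' := by rw [hδ']; positivity
  have hκ0 : 0 ≤ κ := le_max_right _ _
  have hκ1 : 1 - δ ≤ κ := le_max_left _ _
  have hsum : κ + δ' ≤ 1 - δ' := by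
    rw [hκ, hδ']
    rcases le_total δ 1 with h | h
    · rw [min_eq_left h, max_eq_left (by linarith)]; linarith
    · rw [min_eq_right h, max_eq_right (by linarith)]; linarith
  have hLL : Tendsto (fun X : ℕ => Real.log (Real.log (X : ℝ))) atTop atTop :=
    Real.tendsto_log_atTop.comp (Real.tendsto_log_atTop.comp tendsto_natCast_atTop_atTop)
  set M : ℝ := max 1 (18 / (η * δ' ^ 2)) with hM
  have ev1 : ∀ᶠ X : ℕ in atTop, M + |C| + (κ + δ') * |C| / δ' ≤ Real.log (Real.log (X : ℝ)) :=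
    hLL.eventually_ge_atTop _
  set B : ℕ := max 3 ⌈72 / η⌉₊ with hB
  have ev2 : ∀ᶠ X : ℕ in atTop, B ^ 4 ≤ X := eventually_ge_atTop _
  have ev3 : ∀ᶠ X : ℕ in atTop, 9 / η ≤ (X : ℝ) :=
    tendsto_natCast_atTop_atTop.eventually_ge_atTop _
  filter_upwards [ev1, ev2, ev3] with X h1 h2 h3
  have hz : B ≤ zz X := by
    have h4 := lt_zz X
    have h5 : B ^ 4 < (zz X + 1) ^ 4 := lt_of_le_of_lt h2 h4
    have := lt_of_pow_lt_pow_left₀ 4 (by positivity) h5
    omega
  have hz3 : 3 ≤ zz X := le_trans (le_max_left _ _) hz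
  have hz72 : 72 / η ≤ zz X := by
    have : ⌈72 / η⌉₊ ≤ zz X := le_trans (le_max_right _ _) hz
    exact (Nat.le_ceil _).trans (by exact_mod_cast this)
  have hX0 : X ≠ 0 := by
    have := zz_pow X
    have : 3 ^ 4 ≤ zz X ^ 4 := Nat.pow_le_pow_left hz3 4
    omega
  have hXpos : (0 : ℝ) < X := by exact_mod_cast Nat.pos_of_ne_zero hX0
  set μ : ℝ := ∑ p ∈ PP X, w p with hμ
  have hμL := hC X hz3
  have hCabs : C ≤ |C| := le_abs_self C
  have hfrac : 0 ≤ (κ + δ') * |C| / δ' := by positivity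
  have hμM : M ≤ μ := by linarith
  have hμ1 : 1 ≤ μ := (le_max_left _ _).trans hμM
  have hμη : 18 / (η * δ' ^ 2) ≤ μ := (le_max_right _ _).trans hμM
  have hmain : κ * Real.log (Real.log X) ≤ μ - δ' * μ := by
    have h4 : (κ + δ') * μ ≤ (1 - δ') * μ := mul_le_mul_of_nonneg_right hsum (by linarith)
    have h5 : (κ + δ') * (Real.log (Real.log X) - C) ≤ (κ + δ') * μ :=
      mul_le_mul_of_nonneg_left hμL (by positivity)
    have h6 : (κ + δ') * |C| / δ' ≤ Real.log (Real.log X) := by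
      have : 0 ≤ M := by rw [hM]; positivity
      linarith [abs_nonneg C]
    rw [div_le_iff₀ hδ'pos] at h6
    have h7 : (κ + δ') * C ≤ (κ + δ') * |C| := mul_le_mul_of_nonneg_left hCabs (by positivity)
    nlinarith
  -- the three exceptional sets
  set A : Finset ℕ := range 3 with hA
  set PE : Finset ℕ := (range X).filter (fun t : ℕ => ∃ p : ℕ, p.Prime ∧ p ≠ 2 ∧
    ∃ s : ℤ, 3 ≤ s ∧ (t : ℤ) = V p s) with hPE
  set F : Finset ℕ := (range X).filter
    (fun t => ∑ p ∈ PP X, ind p t ≤ ∑ p ∈ PP X, w p - δ' * μ) with hF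
  have hsub : {t : ℕ | t < X ∧ ¬ ManyExc δ t} ⊆ ((A ∪ PE ∪ F : Finset ℕ) : Set ℕ) := by
    rintro t ⟨htX, ht⟩
    by_contra hnot
    rw [mem_coe, mem_union, mem_union, not_or, not_or] at hnot
    obtain ⟨⟨hn1, hn2⟩, hn3⟩ := hnot
    rw [hA, mem_range, not_lt] at hn1
    rw [hPE, mem_filter, mem_range, not_and] at hn2
    rw [hF, mem_filter, mem_range, not_and] at hn3
    have hn2 := hn2 htX
    have hn3 := not_le.mp (hn3 htX)
    apply ht
    intro K _ _ h2K ⟨ε, hε⟩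
    obtain ⟨S, hS, hcard⟩ := sum_ind_eq (PP X) t
    refine ⟨S, ?_, ?_⟩
    · intro p hp
      obtain ⟨hpP, hpB⟩ := hS p hp
      rw [mem_PP] at hpP
      refine ⟨hpP.2.1, exc h2K hn1 hε hpP.2.1 hpP.2.2 hpB ?_⟩
      intro s hs hts
      exact hn2 ⟨p, hpP.2.1, hpP.2.2, s, hs, hts⟩
    · rw [← hcard]
      have ht3 : (3 : ℝ) ≤ t := by exact_mod_cast hn1
      have hlt : 1 ≤ Real.log t := one_lt_log_three.trans (Real.log_le_log (by norm_num) ht3)
      have hLt : 0 ≤ Real.log (Real.log t) := Real.log_nonneg hlt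
      have hLX : Real.log (Real.log t) ≤ Real.log (Real.log X) := by
        apply Real.log_le_log (by linarith)
        apply Real.log_le_log (by linarith)
        exact_mod_cast htX.le
      have h4 : (1 - δ) * Real.log (Real.log t) ≤ κ * Real.log (Real.log t) :=
        mul_le_mul_of_nonneg_right hκ1 hLt
      have h5 : κ * Real.log (Real.log t) ≤ κ * Real.log (Real.log X) :=
        mul_le_mul_of_nonneg_left hLX hκ0
      linarith
  have hcard : ({t : ℕ | t < X ∧ ¬ ManyExc δ t}.ncard : ℝ) ≤ A.card + PE.card + F.card := by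
    have h4 : {t : ℕ | t < X ∧ ¬ ManyExc δ t}.ncard ≤ (A ∪ PE ∪ F).card := by
      rw [← Set.ncard_coe_finset]
      exact Set.ncard_le_ncard hsub (Finset.finite_toSet _)
    have h5 : (A ∪ PE ∪ F).card ≤ A.card + PE.card + F.card :=
      (card_union_le _ _).trans (Nat.add_le_add_right (card_union_le _ _) _)
    exact_mod_cast h4.trans h5
  have hA' : (A.card : ℝ) ≤ η / 3 * X := by
    rw [hA, card_range]
    rw [div_le_iff₀ hη] at h3
    push_cast
    linarith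
  have hPE' : (PE.card : ℝ) ≤ η / 3 * X := by
    have h4 : PE.card ≤ 24 * zz X * Nat.sqrt X := by
      refine (card_PE X).trans ?_
      have h5 := log_le X hX0
      have h6 : 1 ≤ zz X := by omega
      have h7 : zz X ^ 2 ≤ Nat.sqrt X := Nat.sqrt_le' _
      have h8 : 1 ≤ Nat.sqrt X := by nlinarith
      calc (Nat.log 2 X + 1) * (Nat.sqrt X + 2) ≤ (8 * zz X) * (3 * Nat.sqrt X) :=
            Nat.mul_le_mul (by omega) (by omega)
        _ = _ := by ring
    have h7 : (zz X : ℝ) ^ 2 ≤ Nat.sqrt X := by exact_mod_cast (Nat.sqrt_le' (Nat.sqrt X))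
    have h8 : (Nat.sqrt X : ℝ) ^ 2 ≤ X := by exact_mod_cast (Nat.sqrt_le' X)
    have h9 : (PE.card : ℝ) ≤ 24 * zz X * Nat.sqrt X := by exact_mod_cast h4
    have hz0 : (0 : ℝ) < zz X := by exact_mod_cast (by omega : 0 < zz X)
    have hy0 : (0 : ℝ) ≤ Nat.sqrt X := by positivity
    have h10 : 72 ≤ η * zz X := by
      rw [div_le_iff₀ hη] at hz72; linarith
    have h11 : 72 * (zz X : ℝ) ≤ η * Nat.sqrt X := by
      calc 72 * (zz X : ℝ) ≤ (η * zz X) * zz X := mul_le_mul_of_nonneg_right h10 hz0.le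
        _ = η * (zz X : ℝ) ^ 2 := by ring
        _ ≤ _ := mul_le_mul_of_nonneg_left h7 hη.le
    have h12 : 72 * (zz X : ℝ) * Nat.sqrt X ≤ η * X := by
      calc 72 * (zz X : ℝ) * Nat.sqrt X ≤ η * Nat.sqrt X * Nat.sqrt X :=
            mul_le_mul_of_nonneg_right h11 hy0
        _ = η * (Nat.sqrt X : ℝ) ^ 2 := by ring
        _ ≤ _ := mul_le_mul_of_nonneg_left h8 hη.le
    linarith
  have hF' : (F.card : ℝ) ≤ η / 3 * X := by
    have hl : 0 < δ' * μ := by positivity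
    have h4 := few X (PP X) (fun p hp => (mem_PP.mp hp).2.1) (δ' * μ) hl
    have h5 := sum_card_le X
    have h6 : (F.card : ℝ) * (δ' * μ) ^ 2 ≤ 2 * X * μ + 4 * X := by
      refine h4.trans ?_
      have : 4 * (∑ p ∈ PP X, ((Bad p).card : ℝ)) ^ 2 ≤ 4 * X := by linarith
      linarith
    have h7 : (2 * X * μ + 4 * X) ≤ (η / 3 * X) * (δ' * μ) ^ 2 := by
      have h8 : 18 ≤ μ * (η * δ' ^ 2) := by
        rwa [div_le_iff₀ (by positivity)] at hμη
      have h9 : 6 * μ ≤ (η / 3) * (δ' * μ) ^ 2 := by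
        have h10 : 18 * μ ≤ (μ * (η * δ' ^ 2)) * μ := mul_le_mul_of_nonneg_right h8 (by linarith)
        nlinarith
      calc 2 * X * μ + 4 * X ≤ X * (6 * μ) := by nlinarith
        _ ≤ X * ((η / 3) * (δ' * μ) ^ 2) := mul_le_mul_of_nonneg_left h9 hXpos.le
        _ = _ := by ring
    exact le_of_mul_le_mul_right (h6.trans h7) (by positivity)
  linarith

/-- **Main theorem.** -/
theorem main (δ : ℝ) (hδ : 0 < δ) : Tendsto (fun X : ℕ =>
    (({t : ℕ | t < X ∧ ManyExc δ t}.ncard : ℝ)) / X) atTop (𝓝 1) := by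
  rw [Metric.tendsto_atTop]
  intro r hr
  obtain ⟨N, hN⟩ := eventually_atTop.mp (key δ hδ (r / 2) (by linarith))
  refine ⟨max N 1, fun X hX => ?_⟩
  have h1 := hN X (le_trans (le_max_left _ _) hX)
  have hX1 : 1 ≤ X := le_trans (le_max_right _ _) hX
  have hX0 : (0 : ℝ) < X := by exact_mod_cast hX1
  have hfin : ∀ Q : ℕ → Prop, {t : ℕ | t < X ∧ Q t}.Finite := fun Q =>
    (Set.finite_lt_nat X).subset (fun t ht => ht.1)
  have h2 : {t : ℕ | t < X ∧ ManyExc δ t}.ncard + {t : ℕ | t < X ∧ ¬ ManyExc δ t}.ncard = X := by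
    rw [← Set.ncard_union_eq _ (hfin _) (hfin _)]
    · have : {t : ℕ | t < X ∧ ManyExc δ t} ∪ {t : ℕ | t < X ∧ ¬ ManyExc δ t} = Set.Iio X := by
        ext t
        simp only [Set.mem_union, Set.mem_ofPred_eq, Set.mem_Iio]
        tauto
      rw [this]
      simp
    · rw [Set.disjoint_left]
      rintro t ⟨_, h⟩ ⟨_, h'⟩
      exact h' h
  have h3 : ({t : ℕ | t < X ∧ ManyExc δ t}.ncard : ℝ)
      = X - ({t : ℕ | t < X ∧ ¬ ManyExc δ t}.ncard : ℝ) := by
    have : (({t : ℕ | t < X ∧ ManyExc δ t}.ncard + {t : ℕ | t < X ∧ ¬ ManyExc δ t}.ncard : ℕ) : ℝ)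
        = X := by rw [h2]
    push_cast at this
    linarith
  rw [Real.dist_eq, h3, sub_div, div_self hX0.ne', abs_lt]
  have h4 : ({t : ℕ | t < X ∧ ¬ ManyExc δ t}.ncard : ℝ) / X ≤ r / 2 := by
    rw [div_le_iff₀ hX0]; exact h1
  have h5 : 0 ≤ ({t : ℕ | t < X ∧ ¬ ManyExc δ t}.ncard : ℝ) / X := by positivity
  constructor <;> linarith

end Run7.h403.Main
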