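import Mathlib

/-!
# Rational approximations in a sparse set: almost all real numbers

`W` is a set of pairs `(p, q)`; if there are `O (4 ^ j / j ^ 2)` elements of `W` with `q ∈ (2 ^ j, 2 ^ (j + 1)]` and
`p = O (q)`, then for almost all `α` there are only finitely many `(p, q) ∈ W` with `|q α - p - γ| ≤ ψ q / q`.
-/

set_option autoImplicit false

namespace Run7.h403.Met

open MeasureTheory Filter Set Topology

/-- the elements of `W` with denominator in the dyadic block and numerator at most `K 2 ^ j` -/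
def blk (W : Set (ℤ × ℕ)) (K j : ℕ) : Set (ℤ × ℕ) :=
  {t | t ∈ W ∧ 2 ^ j < t.2 ∧ t.2 ≤ 2 ^ (j + 1) ∧ |t.1| ≤ (K : ℤ) * 2 ^ j}

theorem blk_finite (W : Set (ℤ × ℕ)) (K j : ℕ) : (blk W K j).Finite := by
  apply ((Set.finite_Icc (-((K : ℤ) * 2 ^ j)) ((K : ℤ) * 2 ^ j)).prod (Set.finite_Icc 0 (2 ^ (j + 1)))).subset
  rintro ⟨p, q⟩ ⟨-, -, h1, h2⟩
  simp only at h1 h2
  rw [Set.mem_prod, Set.mem_Icc, Set.mem_Icc]
  exact ⟨abs_le.1 h2, Nat.zero_le _, h1⟩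

theorem sum_blocks (f : ℕ → ℝ) (J : ℕ) :
    ∑ j ∈ Finset.range J, ∑ n ∈ Finset.Ico (2 ^ j) (2 ^ (j + 1)), f n = ∑ n ∈ Finset.Ico 1 (2 ^ J), f n := by
  induction J with
  | zero => simp
  | succ J ih =>
    rw [Finset.sum_range_succ, ih]
    exact Finset.sum_Ico_consecutive f Nat.one_le_two_pow (Nat.pow_le_pow_right (by norm_num) (Nat.le_succ J))

theorem summable_dyadic {ψ : ℕ → ℝ} (hm : Monotone ψ) (h0 : ∀ n, 0 ≤ ψ n)
    (hs : Summable (fun n : ℕ => ψ n / (n * Real.log n ^ 2))) :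
    Summable (fun j : ℕ => ψ (2 ^ (j + 1)) / (j : ℝ) ^ 2) := by
  obtain ⟨f, hf⟩ : ∃ f : ℕ → ℝ, f = fun n : ℕ => ψ n / (n * Real.log n ^ 2) := ⟨_, rfl⟩
  rw [← hf] at hs
  have hf0 : ∀ n, 0 ≤ f n := fun n => by
    rw [hf]
    have := h0 n
    positivity
  have h2 : (0 : ℝ) < Real.log 2 := Real.log_pos (by norm_num)
  have h1 : Summable (fun j : ℕ => ∑ n ∈ Finset.Ico (2 ^ j) (2 ^ (j + 1)), f n) := by
    apply summable_of_sum_range_le (c := ∑' n, f n) (fun j => Finset.sum_nonneg (fun n _ => hf0 n))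
    intro J
    rw [sum_blocks]
    exact hs.sum_le_tsum _ (fun n _ => hf0 n)
  have h1' := (summable_nat_add_iff 1).2 h1
  have h3 : ∀ j : ℕ, ψ (2 ^ (j + 1)) / (2 * ((j : ℝ) + 2) ^ 2 * Real.log 2 ^ 2) ≤
      ∑ n ∈ Finset.Ico (2 ^ (j + 1)) (2 ^ (j + 1 + 1)), f n := by
    intro j
    have h4 : ∀ n ∈ Finset.Ico (2 ^ (j + 1)) (2 ^ (j + 1 + 1)),
        ψ (2 ^ (j + 1)) / (2 ^ (j + 1 + 1) * (((j : ℝ) + 2) ^ 2 * Real.log 2 ^ 2)) ≤ f n := by
      intro n hn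
      rw [Finset.mem_Ico] at hn
      have h21 : 2 ≤ 2 ^ (j + 1) := by
        calc 2 = 2 ^ 1 := rfl
          _ ≤ 2 ^ (j + 1) := Nat.pow_le_pow_right (by norm_num) (by omega)
      have hn2 : 1 < n := by omega
      have hn0 : (0 : ℝ) < n := by exact_mod_cast (by omega : 0 < n)
      have hl : 0 < Real.log n := Real.log_pos (by exact_mod_cast hn2)
      have hnr : (n : ℝ) ≤ 2 ^ (j + 1 + 1) := by exact_mod_cast hn.2.le
      have hl2 : Real.log n ≤ ((j : ℝ) + 2) * Real.log 2 := by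
        have := Real.log_le_log hn0 hnr
        rw [Real.log_pow] at this
        push_cast at this
        linarith
      rw [hf]
      have hψ := hm hn.1
      have h5 := h0 (2 ^ (j + 1))
      have h6 : (n : ℝ) * Real.log n ^ 2 ≤ 2 ^ (j + 1 + 1) * (((j : ℝ) + 2) ^ 2 * Real.log 2 ^ 2) := by
        rw [← mul_pow]
        gcongr
      have h7 : 0 < (n : ℝ) * Real.log n ^ 2 := by positivity
      simp only
      gcongr
      exact h0 n
    have h5 := Finset.sum_le_sum h4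
    rw [Finset.sum_const, Nat.card_Ico, nsmul_eq_mul] at h5
    refine le_trans (le_of_eq ?_) h5
    have h6 : 2 ^ (j + 1 + 1) - 2 ^ (j + 1) = 2 ^ (j + 1) := by
      rw [pow_succ 2 (j + 1)]
      omega
    rw [h6]
    push_cast
    rw [pow_succ (2 : ℝ) (j + 1)]
    have h7 : (2 : ℝ) ^ (j + 1) ≠ 0 := by positivity
    field_simp
  have h8 : Summable (fun j : ℕ => ψ (2 ^ (j + 1)) / (2 * ((j : ℝ) + 2) ^ 2 * Real.log 2 ^ 2)) := by
    apply Summable.of_nonneg_of_le _ h3 h1'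
    intro j
    have := h0 (2 ^ (j + 1))
    positivity
  apply Summable.of_nonneg_of_le _ _ (h8.mul_left (18 * Real.log 2 ^ 2))
  · intro j
    have := h0 (2 ^ (j + 1))
    positivity
  · intro j
    have h9 := h0 (2 ^ (j + 1))
    rcases Nat.eq_zero_or_pos j with hj | hj
    · subst hj
      simp only [Nat.cast_zero]
      rw [zero_pow (by norm_num), div_zero]
      positivity
    · have hj1 : (1 : ℝ) ≤ j := by exact_mod_cast hj
      have e : 18 * Real.log 2 ^ 2 * (ψ (2 ^ (j + 1)) / (2 * ((j : ℝ) + 2) ^ 2 * Real.log 2 ^ 2)) =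
          ψ (2 ^ (j + 1)) / (((j : ℝ) + 2) ^ 2 / 9) := by
        field_simp
        ring
      rw [e]
      have h10 : ((j : ℝ) + 2) ^ 2 / 9 ≤ (j : ℝ) ^ 2 := by nlinarith
      gcongr

/-- **Approximations in a sparse set**, general form. -/
theorem ae_finite_gen (W : Set (ℤ × ℕ)) {ρ : ℕ → ℝ} (hρ : ∀ j, 0 ≤ ρ j)
    (hW : ∀ K : ℕ, ∃ (C : ℝ) (j₀ : ℕ), ∀ j : ℕ, j₀ ≤ j → (((blk W K j).ncard : ℕ) : ℝ) ≤ C * 4 ^ j * ρ j) (γ : ℝ)
    {ψ : ℕ → ℝ} (hm : Monotone ψ) (h0 : ∀ n, 0 ≤ ψ n) (hsd : Summable (fun j : ℕ => ψ (2 ^ (j + 1)) * ρ j))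
    (hev : ∀ᶠ j : ℕ in atTop, ψ (2 ^ (j + 1)) ≤ 2 ^ j) :
    ∀ᵐ α : ℝ, {t : ℤ × ℕ | t ∈ W ∧ 0 < t.2 ∧ |t.2 * α - t.1 - γ| ≤ ψ t.2 / t.2}.Finite := by
  obtain ⟨J₁, hJ₁⟩ := eventually_atTop.1 hev
  -- reduction to bounded `α`
  have hR : ∀ R : ℕ, ∀ᵐ α : ℝ, |α| ≤ R →
      {t : ℤ × ℕ | t ∈ W ∧ 0 < t.2 ∧ |t.2 * α - t.1 - γ| ≤ ψ t.2 / t.2}.Finite := by
    intro R
    obtain ⟨K, hK⟩ := exists_nat_ge (2 * (R : ℝ) + |γ| + 1)
    obtain ⟨C, j₀, hC⟩ := hW K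
    have hbd : ∀ (α : ℝ), |α| ≤ R → ∀ j : ℕ, J₁ ≤ j → ∀ t : ℤ × ℕ, t ∈ W → 2 ^ j < t.2 → t.2 ≤ 2 ^ (j + 1) →
        |t.2 * α - t.1 - γ| ≤ ψ t.2 / t.2 → t ∈ blk W K j := by
      intro α hα j hj t htW ht1 ht2 ht3
      refine ⟨htW, ht1, ht2, ?_⟩
      have hq0 : (2 : ℝ) ^ j < t.2 := by exact_mod_cast ht1
      have hq1 : (t.2 : ℝ) ≤ 2 * 2 ^ j := by
        have : (t.2 : ℝ) ≤ 2 ^ (j + 1) := by exact_mod_cast ht2
        rw [pow_succ] at this
        linarith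
      have h2j : (1 : ℝ) ≤ 2 ^ j := one_le_pow₀ (by norm_num)
      have h5 : ψ t.2 / t.2 ≤ 1 := by
        rw [div_le_one (by linarith)]
        exact ((hm ht2).trans (hJ₁ j hj)).trans hq0.le
      have h6 : (t.1 : ℝ) = t.2 * α - γ - (t.2 * α - t.1 - γ) := by ring
      have h7 : |(t.1 : ℝ)| ≤ t.2 * R + |γ| + 1 := by
        rw [h6]
        refine (abs_sub _ _).trans ?_
        have h8 : |(t.2 : ℝ) * α - γ| ≤ t.2 * R + |γ| := by
          refine (abs_sub _ _).trans ?_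
          rw [abs_mul, abs_of_nonneg (by linarith : (0 : ℝ) ≤ t.2)]
          gcongr
        linarith
      have h9 : |(t.1 : ℝ)| ≤ K * 2 ^ j := by
        have hR0 : (0 : ℝ) ≤ R := Nat.cast_nonneg R
        have hg := abs_nonneg γ
        calc |(t.1 : ℝ)| ≤ t.2 * R + |γ| + 1 := h7
          _ ≤ (2 * 2 ^ j) * R + |γ| * 2 ^ j + 1 * 2 ^ j := by nlinarith
          _ = (2 * R + |γ| + 1) * 2 ^ j := by ring
          _ ≤ K * 2 ^ j := by gcongr
      exact_mod_cast h9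
    obtain ⟨Es, hEs⟩ : ∃ Es : ℕ → Set ℝ, Es = fun j => {α | ∃ t ∈ blk W K j, |t.2 * α - t.1 - γ| ≤ ψ t.2 / t.2} :=
      ⟨_, rfl⟩
    have hvol : ∀ j : ℕ, j₀ ≤ j → 1 ≤ j →
        volume (Es j) ≤ ENNReal.ofReal (2 * |C| * (ψ (2 ^ (j + 1)) * ρ j)) := by
      intro j hj hj1
      obtain ⟨F, hF⟩ : ∃ F : Finset (ℤ × ℕ), F = (blk_finite W K j).toFinset := ⟨_, rfl⟩
      have hFmem : ∀ t, t ∈ F ↔ t ∈ blk W K j := fun t => by rw [hF, Set.Finite.mem_toFinset]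
      have hFcard : (F.card : ℝ) ≤ C * 4 ^ j * ρ j := by
        have := hC j hj
        rw [Set.ncard_eq_toFinset_card _ (blk_finite W K j), ← hF] at this
        exact this
      have hsub : Es j ⊆ ⋃ t ∈ F, Metric.closedBall (((t.1 : ℝ) + γ) / t.2) (ψ (2 ^ (j + 1)) / 4 ^ j) := by
        intro α hα
        rw [hEs] at hα
        obtain ⟨t, ht, hα2⟩ := hα
        rw [Set.mem_iUnion₂]
        refine ⟨t, (hFmem t).2 ht, ?_⟩
        obtain ⟨-, ht1, ht2, -⟩ := ht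
        have hq0 : (2 : ℝ) ^ j < t.2 := by exact_mod_cast ht1
        have h2j : (1 : ℝ) ≤ 2 ^ j := one_le_pow₀ (by norm_num)
        have hq : (0 : ℝ) < t.2 := by linarith
        rw [Metric.mem_closedBall, Real.dist_eq]
        have h5 : α - ((t.1 : ℝ) + γ) / t.2 = (t.2 * α - t.1 - γ) / t.2 := by
          field_simp
          ring
        rw [h5, abs_div, abs_of_pos hq]
        have h6 : |t.2 * α - t.1 - γ| / t.2 ≤ ψ t.2 / t.2 / t.2 := by gcongr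
        refine h6.trans ?_
        rw [div_div]
        have h7 : (4 : ℝ) ^ j ≤ t.2 * t.2 := by
          have : (4 : ℝ) ^ j = 2 ^ j * 2 ^ j := by
            rw [← mul_pow]
            norm_num
          rw [this]
          gcongr
        have h8 := h0 t.2
        have h9 : ψ t.2 ≤ ψ (2 ^ (j + 1)) := hm ht2
        gcongr
        exact h0 _
      have h10 := h0 (2 ^ (j + 1))
      calc volume (Es j) ≤ volume (⋃ t ∈ F, Metric.closedBall (((t.1 : ℝ) + γ) / t.2) (ψ (2 ^ (j + 1)) / 4 ^ j)) :=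
            measure_mono hsub
        _ ≤ ∑ t ∈ F, volume (Metric.closedBall (((t.1 : ℝ) + γ) / t.2) (ψ (2 ^ (j + 1)) / 4 ^ j)) :=
            measure_biUnion_finset_le _ _
        _ = (F.card : ENNReal) * ENNReal.ofReal (2 * (ψ (2 ^ (j + 1)) / 4 ^ j)) := by
            simp only [Real.volume_closedBall]
            rw [Finset.sum_const, nsmul_eq_mul]
        _ = ENNReal.ofReal ((F.card : ℝ) * (2 * (ψ (2 ^ (j + 1)) / 4 ^ j))) := by
            rw [ENNReal.ofReal_mul (Nat.cast_nonneg _), ENNReal.ofReal_natCast]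
        _ ≤ _ := by
            apply ENNReal.ofReal_le_ofReal
            have h11 : (F.card : ℝ) ≤ |C| * 4 ^ j * ρ j := by
              refine hFcard.trans ?_
              have := le_abs_self C
              have := hρ j
              gcongr
            calc (F.card : ℝ) * (2 * (ψ (2 ^ (j + 1)) / 4 ^ j)) ≤
                (|C| * 4 ^ j * ρ j) * (2 * (ψ (2 ^ (j + 1)) / 4 ^ j)) := by gcongr
              _ = 2 * |C| * (ψ (2 ^ (j + 1)) * ρ j) := by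
                  have h12 : (4 : ℝ) ^ j ≠ 0 := by positivity
                  field_simp
    have hsum : ∑' j, volume (Es (j + (j₀ + 1))) ≠ ⊤ := by
      have h1 : Summable (fun j : ℕ => 2 * |C| * (ψ (2 ^ (j + (j₀ + 1) + 1)) * ρ (j + (j₀ + 1)))) :=
        (summable_nat_add_iff (j₀ + 1)).2 (hsd.mul_left (2 * |C|))
      refine ne_top_of_le_ne_top ?_ (ENNReal.tsum_le_tsum (fun j => hvol (j + (j₀ + 1)) (by omega) (by omega)))
      rw [← ENNReal.ofReal_tsum_of_nonneg _ h1]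
      · exact ENNReal.ofReal_ne_top
      · intro j
        have := h0 (2 ^ (j + (j₀ + 1) + 1))
        have := hρ (j + (j₀ + 1))
        positivity
    have hae := ae_eventually_notMem hsum
    filter_upwards [hae] with α hα hαR
    rw [eventually_atTop] at hα
    obtain ⟨J, hJ⟩ := hα
    obtain ⟨M, hM⟩ : ∃ M : ℕ, M = J + (j₀ + 1) + J₁ := ⟨_, rfl⟩
    -- all elements have denominator at most `2 ^ M`
    have hden : ∀ t : ℤ × ℕ, t ∈ W → 0 < t.2 → |t.2 * α - t.1 - γ| ≤ ψ t.2 / t.2 → t.2 ≤ 2 ^ M := by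
      intro t htW ht0 ht3
      by_contra hcon
      push Not at hcon
      obtain ⟨j, hj⟩ : ∃ j, j = Nat.log 2 (t.2 - 1) := ⟨_, rfl⟩
      have h2M : 1 ≤ 2 ^ M := Nat.one_le_two_pow
      have h1 : 2 ^ j ≤ t.2 - 1 := by
        rw [hj]
        exact Nat.pow_log_le_self 2 (by omega)
      have h2 : t.2 - 1 < 2 ^ (j + 1) := by
        rw [hj]
        exact Nat.lt_pow_succ_log_self (by norm_num) _
      have h3 : M ≤ j := by
        rw [hj]
        exact Nat.le_log_of_pow_le (by norm_num) (by omega)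
      have h4 := hbd α hαR j (by omega) t htW (by omega) (by omega) ht3
      obtain ⟨i, hi⟩ : ∃ i, j = i + (j₀ + 1) := ⟨j - (j₀ + 1), by omega⟩
      have h5 := hJ i (by omega)
      apply h5
      rw [hEs, ← hi]
      exact ⟨t, h4, ht3⟩
    apply ((Set.finite_Icc (-(⌈(2 ^ M : ℝ) * R + |γ| + ψ (2 ^ M)⌉)) (⌈(2 ^ M : ℝ) * R + |γ| + ψ (2 ^ M)⌉)).prod
      (Set.finite_Icc 0 (2 ^ M))).subset
    rintro t ⟨htW, ht0, ht3⟩
    have h1 := hden t htW ht0 ht3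
    have hq1 : (1 : ℝ) ≤ t.2 := by exact_mod_cast ht0
    have hq2 : (t.2 : ℝ) ≤ 2 ^ M := by exact_mod_cast h1
    rw [Set.mem_prod, Set.mem_Icc, Set.mem_Icc]
    refine ⟨?_, Nat.zero_le _, h1⟩
    have h5 : ψ t.2 / t.2 ≤ ψ (2 ^ M) := by
      have h6 := h0 t.2
      calc ψ t.2 / t.2 ≤ ψ t.2 := div_le_self h6 hq1
        _ ≤ ψ (2 ^ M) := hm h1
    have h6 : (t.1 : ℝ) = t.2 * α - γ - (t.2 * α - t.1 - γ) := by ring
    have h7 : |(t.1 : ℝ)| ≤ (2 ^ M : ℝ) * R + |γ| + ψ (2 ^ M) := by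
      rw [h6]
      refine (abs_sub _ _).trans ?_
      have h8 : |(t.2 : ℝ) * α - γ| ≤ t.2 * R + |γ| := by
        refine (abs_sub _ _).trans ?_
        rw [abs_mul, abs_of_nonneg (by linarith : (0 : ℝ) ≤ t.2)]
        gcongr
      have hR0 : (0 : ℝ) ≤ R := Nat.cast_nonneg R
      have h9 : (t.2 : ℝ) * R ≤ 2 ^ M * R := by gcongr
      linarith
    have h8 : |(t.1 : ℝ)| ≤ ((⌈(2 ^ M : ℝ) * R + |γ| + ψ (2 ^ M)⌉ : ℤ) : ℝ) := h7.trans (Int.le_ceil _)
    have h9 : |t.1| ≤ ⌈(2 ^ M : ℝ) * R + |γ| + ψ (2 ^ M)⌉ := by exact_mod_cast h8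
    exact abs_le.1 h9
  have hall := ae_all_iff.2 hR
  filter_upwards [hall] with α hα
  obtain ⟨R, hRR⟩ := exists_nat_ge |α|
  exact hα R hRR


/-- **Approximations in a sparse set.** -/
theorem ae_finite (W : Set (ℤ × ℕ)) (hW : ∀ K : ℕ, ∃ (C : ℝ) (j₀ : ℕ), ∀ j : ℕ, j₀ ≤ j →
      (((blk W K j).ncard : ℕ) : ℝ) ≤ C * 4 ^ j / (j : ℝ) ^ 2) (γ : ℝ) {ψ : ℕ → ℝ} (hm : Monotone ψ)
    (h0 : ∀ n, 0 ≤ ψ n) (hs : Summable (fun n : ℕ => ψ n / (n * Real.log n ^ 2))) :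
    ∀ᵐ α : ℝ, {t : ℤ × ℕ | t ∈ W ∧ 0 < t.2 ∧ |t.2 * α - t.1 - γ| ≤ ψ t.2 / t.2}.Finite := by
  have hsd := summable_dyadic hm h0 hs
  -- eventually `ψ (2 ^ (j + 1)) ≤ 2 ^ j`
  have hev : ∀ᶠ j : ℕ in atTop, ψ (2 ^ (j + 1)) ≤ 2 ^ j := by
    have h1 := hsd.tendsto_atTop_zero.eventually (gt_mem_nhds (show (0 : ℝ) < 1 / 8 by norm_num))
    filter_upwards [h1, eventually_ge_atTop 1] with j hj hj1
    have hj0 : (0 : ℝ) < (j : ℝ) ^ 2 := by
      have : (0 : ℝ) < j := by exact_mod_cast hj1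
      positivity
    rw [div_lt_iff₀ hj0] at hj
    have h2 : (j : ℝ) ^ 2 ≤ 8 * 2 ^ j := by
      have h3 : j ^ 2 ≤ 8 * 2 ^ j := by
        clear hj hj0 hj1 h1
        induction j with
        | zero => norm_num
        | succ n ih =>
          rcases Nat.lt_or_ge n 3 with h | h
          · interval_cases n <;> norm_num
          · rw [pow_succ 2 n]
            nlinarith
      exact_mod_cast h3
    linarith
  refine ae_finite_gen W (ρ := fun j => 1 / (j : ℝ) ^ 2) (fun j => by positivity) (fun K => ?_) γ hm h0 ?_ hev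
  · obtain ⟨C, j₀, h⟩ := hW K
    refine ⟨C, j₀, fun j hj => (h j hj).trans_eq (by ring)⟩
  · refine hsd.congr fun j => by ring

end Run7.h403.Met
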