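import Pool.Agent.Run7.h403.Cls
import Pool.Agent.Run7.h403.Bin

/-!
# A criterion for `T_p(K) ≠ 1` for fields whose unit group has rank one
-/

set_option autoImplicit false

namespace Run7.h403

open NumberField nonZeroDivisors

variable {K : Type} [Field K] [NumberField K]

lemma p_not_unit {p : ℕ} (hp : p.Prime) : ¬ IsUnit (p : 𝓞 K) := by
  intro h
  have h1 : IsUnit (Algebra.norm ℤ (p : 𝓞 K)) := h.map _
  have h2 : (p : 𝓞 K) = algebraMap ℤ (𝓞 K) (p : ℤ) := by simp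
  rw [h2, Algebra.norm_algebraMap, Int.isUnit_iff_natAbs_eq, Int.natAbs_pow, Int.natAbs_natCast,
    Nat.pow_eq_one] at h1
  rcases h1 with h1 | h1
  · exact hp.one_lt.ne' h1
  · exact Module.finrank_pos.ne' h1

lemma ne_zero_of_cong {p : ℕ} (hp : p.Prime) {y : 𝓞 K} (h : (p : 𝓞 K) ∣ y - 1) : y ≠ 0 := by
  rintro rfl
  apply p_not_unit (K := K) hp
  rw [zero_sub, dvd_neg] at h
  exact isUnit_of_dvd_one h

lemma eq_one_of_forall {p : ℕ} (hp : p.Prime) {θ : 𝓞 K}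
    (h : ∀ n : ℕ, (p : 𝓞 K) ^ n ∣ θ - 1) : θ = 1 := by
  by_contra hθ
  have h0 : θ - 1 ≠ 0 := sub_ne_zero.mpr hθ
  have := FiniteMultiplicity.of_not_isUnit (p_not_unit (K := K) hp) h0
  obtain ⟨n, hn⟩ := this
  exact hn (h (n + 1))

lemma exists_pow_cong {p : ℕ} (hp : p.Prime) (η : (𝓞 K)ˣ) :
    ∃ M : ℕ, M ≠ 0 ∧ (p : 𝓞 K) ∣ (η : 𝓞 K) ^ M - 1 := by
  have hne : (Ideal.span {(p : 𝓞 K)} : Ideal (𝓞 K)) ≠ ⊥ := by
    rw [Ne, Ideal.span_singleton_eq_bot]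
    exact_mod_cast hp.ne_zero
  have : Finite (𝓞 K ⧸ (Ideal.span {(p : 𝓞 K)} : Ideal (𝓞 K))) :=
    Ideal.finiteQuotientOfFreeOfNeBot _ hne
  set f := Units.map (Ideal.Quotient.mk (Ideal.span {(p : 𝓞 K)} : Ideal (𝓞 K))).toMonoidHom
  have h1 : IsOfFinOrder (f η) := isOfFinOrder_of_finite _
  obtain ⟨M, hM, h2⟩ := h1.exists_pow_eq_one
  refine ⟨M, hM.ne', ?_⟩
  rw [← Ideal.mem_span_singleton, ← Ideal.Quotient.eq, map_pow, map_one]
  have := congrArg Units.val h2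
  simpa [f] using this

lemma pow_dvd_int {p m : ℕ} {η : (𝓞 K)ˣ} {N : ℤ}
    (h : (p : 𝓞 K) ^ m ∣ ((η ^ N : (𝓞 K)ˣ) : 𝓞 K) - 1) :
    (p : 𝓞 K) ^ m ∣ (η : 𝓞 K) ^ N.natAbs - 1 := by
  rcases Int.natAbs_eq N with h1 | h1
  · rw [h1, zpow_natCast] at h
    simpa using h
  · rw [h1, zpow_neg, zpow_natCast] at h
    have : (η : 𝓞 K) ^ N.natAbs - 1
        = -((η : 𝓞 K) ^ N.natAbs) * ((((η ^ N.natAbs)⁻¹ : (𝓞 K)ˣ) : 𝓞 K) - 1) := by
      have h3 : (η : 𝓞 K) ^ N.natAbs * (((η ^ N.natAbs)⁻¹ : (𝓞 K)ˣ) : 𝓞 K) = 1 := by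
        rw [← Units.val_pow_eq_pow_val, Units.mul_inv]
      linear_combination h3
    rw [this]
    exact Dvd.dvd.mul_left h _

/-- **Criterion.** Let `p` be an odd prime and suppose that all units of `K` are `± η ^ k`. If a unit
`ε` of infinite order is not a `p`-th power, and if `ε ^ s ≡ 1 mod p ^ 2` for some `s` prime to `p`,
then `T_p(K)` is nontrivial. -/
theorem TT_ne_bot {p : ℕ} (hp : p.Prime) (hp2 : p ≠ 2) (η : (𝓞 K)ˣ)
    (hgen : ∀ e : (𝓞 K)ˣ, ∃ k : ℤ, e = η ^ k ∨ e = -η ^ k) (ε : (𝓞 K)ˣ)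
    (hnp : ∀ ζ : (𝓞 K)ˣ, ζ ^ p ≠ ε) (hinf : ∀ M : ℕ, M ≠ 0 → ε ^ M ≠ 1)
    (s : ℕ) (hs : ¬ p ∣ s) (h1 : (p : 𝓞 K) ^ 2 ∣ (ε : 𝓞 K) ^ s - 1) : TT K p ≠ ⊥ := by
  classical
  have hodd : Odd p := hp.odd_of_ne_two hp2
  -- the sequence of approximate `p`-th roots
  have step : ∀ n : ℕ, ∀ y : 𝓞 K, ∃ y' : 𝓞 K,
      ((p : 𝓞 K) ∣ y - 1 ∧ (p : 𝓞 K) ^ (n + 2) ∣ (ε : 𝓞 K) ^ s - y ^ p) →
      ((p : 𝓞 K) ^ (n + 1) ∣ y' - y ∧ (p : 𝓞 K) ∣ y' - 1 ∧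
        (p : 𝓞 K) ^ (n + 3) ∣ (ε : 𝓞 K) ^ s - y' ^ p) := by
    intro n y
    by_cases h : (p : 𝓞 K) ∣ y - 1 ∧ (p : 𝓞 K) ^ (n + 2) ∣ (ε : 𝓞 K) ^ s - y ^ p
    · obtain ⟨y', hy⟩ := root_step hp hp2 n _ y h.1 h.2
      exact ⟨y', fun _ => hy⟩
    · exact ⟨0, fun h' => absurd h' h⟩
  choose f hf using step
  set y : ℕ → 𝓞 K := fun n => Nat.rec 1 (fun n yn => f n yn) n with hy
  have hy0 : y 0 = 1 := rfl
  have hys : ∀ n, y (n + 1) = f n (y n) := fun n => rfl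
  have hall : ∀ n, (p : 𝓞 K) ∣ y n - 1 ∧ (p : 𝓞 K) ^ (n + 2) ∣ (ε : 𝓞 K) ^ s - y n ^ p := by
    intro n
    induction n with
    | zero =>
      rw [hy0]
      refine ⟨by simp, ?_⟩
      simpa using h1
    | succ n ih =>
      have := hf n (y n) ih
      rw [← hys] at this
      exact ⟨this.2.1, this.2.2⟩
  have hstep : ∀ n, (p : 𝓞 K) ^ (n + 1) ∣ y (n + 1) - y n := by
    intro n
    have := hf n (y n) (hall n)
    rw [← hys] at this
    exact this.1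
  have hy_ne : ∀ n, y n ≠ 0 := fun n => ne_zero_of_cong hp (hall n).1
  set x : ∀ n : ℕ, RayClassGroup K p (n + 1) := fun n => cl p (n + 1) (y n) (hy_ne n) (hall n).1
    with hx
  have cl_one : ∀ n, cl p n (1 : 𝓞 K) one_ne_zero (by simp) = 1 := by
    intro n
    have h2 := cl_pow (K := K) p n 1 one_ne_zero (by simp) 0 (by simp) (by simp)
    rw [pow_zero] at h2
    rw [h2]
    congr 1
    simp
  have hxT : x ∈ TT K p := by
    refine ⟨?_, 1, ?_⟩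
    · intro n
      show rayMap K p (n + 1) (cl p (n + 1 + 1) (y (n + 1)) _ _) = cl p (n + 1) (y n) _ _
      rw [rayMap_cl, cl_eq_iff]
      exact ⟨1, by simpa using hstep n⟩
    · funext n
      rw [pow_one, Pi.pow_apply, Pi.one_apply]
      show cl p (n + 1) (y n) _ _ ^ p = 1
      have hc : (p : 𝓞 K) ∣ y n ^ p - 1 := by
        have := sub_dvd_pow_sub_pow (y n) 1 p
        rw [one_pow] at this
        exact (hall n).1.trans this
      rw [cl_pow p (n + 1) (y n) _ _ p (pow_ne_zero _ (hy_ne n)) hc, ← cl_one, cl_eq_iff]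
      refine ⟨ε ^ s, ?_⟩
      have h2 := (hall n).2
      have : y n ^ p - ((ε ^ s : (𝓞 K)ˣ) : 𝓞 K) * 1 = -((ε : 𝓞 K) ^ s - y n ^ p) := by
        rw [Units.val_pow_eq_pow_val]; ring
      rw [this, dvd_neg]
      exact (pow_dvd_pow _ (by omega)).trans h2
  intro hbot
  rw [hbot, Subgroup.mem_bot] at hxT
  -- all the classes are trivial
  have h3 : ∀ n, ∃ e : (𝓞 K)ˣ, (p : 𝓞 K) ^ (n + 1) ∣ y n - e := by
    intro n
    have h4 : cl p (n + 1) (y n) (hy_ne n) (hall n).1 = 1 := congrFun hxT n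
    rw [← cl_one, cl_eq_iff] at h4
    obtain ⟨e, he⟩ := h4
    exact ⟨e, by simpa using he⟩
  obtain ⟨c, hc⟩ := hgen ε
  have hpc : ¬ (p : ℤ) ∣ c := by
    rintro ⟨d, rfl⟩
    rcases hc with hc | hc
    · apply hnp (η ^ d)
      rw [hc, mul_comm, zpow_mul, zpow_natCast]
    · apply hnp (-η ^ d)
      rw [hc, mul_comm, zpow_mul, zpow_natCast, hodd.neg_pow]
  obtain ⟨M, hM0, hM⟩ := exists_pow_cong hp η
  have h5 : ∀ n, (p : 𝓞 K) ^ (n + 1) ∣ (η : 𝓞 K) ^ M - 1 := by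
    intro n
    obtain ⟨e, he⟩ := h3 n
    obtain ⟨b, hb⟩ := hgen e
    have h6 : (p : 𝓞 K) ^ (n + 1) ∣ (ε : 𝓞 K) ^ s - (e : 𝓞 K) ^ p := by
      have h7 : (p : 𝓞 K) ^ (n + 1) ∣ y n ^ p - (e : 𝓞 K) ^ p :=
        he.trans (sub_dvd_pow_sub_pow _ _ _)
      have h8 := (pow_dvd_pow (p : 𝓞 K) (show n + 1 ≤ n + 2 by omega)).trans (hall n).2
      have := dvd_add h8 h7
      simpa using this
    -- pass to squares to get rid of the signs
    have h9 : (p : 𝓞 K) ^ (n + 1) ∣ ((ε : 𝓞 K) ^ s) ^ 2 - ((e : 𝓞 K) ^ p) ^ 2 :=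
      h6.trans (sub_dvd_pow_sub_pow _ _ _)
    have hε2 : ε ^ 2 = η ^ (2 * c) := by
      rcases hc with hc | hc <;> rw [hc] <;> simp [zpow_mul, mul_comm]
    have he2 : e ^ 2 = η ^ (2 * b) := by
      rcases hb with hb | hb <;> rw [hb] <;> simp [zpow_mul, mul_comm]
    have h10 : (p : 𝓞 K) ^ (n + 1) ∣ ((η ^ (2 * (c * s - p * b)) : (𝓞 K)ˣ) : 𝓞 K) - 1 := by
      have e1 : ((ε : 𝓞 K) ^ s) ^ 2 = ((η ^ (2 * (c * s)) : (𝓞 K)ˣ) : 𝓞 K) := by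
        rw [← Units.val_pow_eq_pow_val, ← Units.val_pow_eq_pow_val, ← pow_mul, mul_comm, pow_mul,
          hε2, ← zpow_natCast, ← zpow_mul]
        congr 2; ring
      have e2 : ((e : 𝓞 K) ^ p) ^ 2 = ((η ^ (2 * (p * b)) : (𝓞 K)ˣ) : 𝓞 K) := by
        rw [← Units.val_pow_eq_pow_val, ← Units.val_pow_eq_pow_val, ← pow_mul, mul_comm, pow_mul,
          he2, ← zpow_natCast, ← zpow_mul]
        congr 2; ring
      rw [e1, e2] at h9
      have e3 : ((η ^ (2 * (c * s - p * b)) : (𝓞 K)ˣ) : 𝓞 K) - 1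
          = (((η ^ (2 * (p * b)))⁻¹ : (𝓞 K)ˣ) : 𝓞 K) * (((η ^ (2 * (c * s)) : (𝓞 K)ˣ) : 𝓞 K)
            - ((η ^ (2 * (p * b)) : (𝓞 K)ˣ) : 𝓞 K)) := by
        have e4 : (((η ^ (2 * (p * b)))⁻¹ : (𝓞 K)ˣ) : 𝓞 K) * ((η ^ (2 * (p * b)) : (𝓞 K)ˣ) : 𝓞 K)
            = 1 := Units.inv_mul _
        have e5 : (((η ^ (2 * (p * b)))⁻¹ : (𝓞 K)ˣ) : 𝓞 K) * ((η ^ (2 * (c * s)) : (𝓞 K)ˣ) : 𝓞 K)
            = ((η ^ (2 * (c * s - p * b)) : (𝓞 K)ˣ) : 𝓞 K) := by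
          rw [← Units.val_mul]
          congr 1
          rw [← zpow_neg, ← zpow_add]
          congr 1; ring
        linear_combination -e5 + e4
      rw [e3]
      exact Dvd.dvd.mul_left h9 _
    have h11 := pow_dvd_int h10
    set N := (2 * (c * s - p * b)).natAbs with hN
    have hpN : ¬ p ∣ N := by
      intro h12
      rw [hN, ← Int.natCast_dvd] at h12
      have hp' : Prime (p : ℤ) := Nat.prime_iff_prime_int.mp hp
      rcases hp'.dvd_or_dvd h12 with h13 | h13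
      · have : p ∣ 2 := by exact_mod_cast h13
        have := (Nat.prime_dvd_prime_iff_eq hp Nat.prime_two).mp this
        exact hp2 this
      · have h14 : (p : ℤ) ∣ c * s := by
          have := dvd_add h13 (dvd_mul_right (p : ℤ) b)
          simpa using this
        rcases hp'.dvd_or_dvd h14 with h15 | h15
        · exact hpc h15
        · exact hs (by exact_mod_cast h15)
    apply dvd_of_pow hp hpN hM
    rw [← pow_mul, mul_comm, pow_mul]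
    have := sub_dvd_pow_sub_pow ((η : 𝓞 K) ^ N) 1 M
    rw [one_pow] at this
    exact h11.trans this
  have h6 : (η : 𝓞 K) ^ M = 1 := eq_one_of_forall hp (fun n =>
    (pow_dvd_pow _ n.le_succ).trans (h5 n))
  have h7 : η ^ M = 1 := Units.ext (by simpa using h6)
  apply hinf (2 * M) (by omega)
  have hε2 : ε ^ 2 = η ^ (2 * c) := by
    rcases hc with hc | hc <;> rw [hc] <;> simp [zpow_mul, mul_comm]
  rw [pow_mul, hε2, ← zpow_natCast, ← zpow_mul, mul_comm, zpow_mul, zpow_natCast, h7, one_zpow]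

end Run7.h403
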