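import Pool.Agent.Run7.h403.Prin

/-!
# The order of `T_p(K)` for fields of unit rank one
-/

set_option autoImplicit false

namespace Run7.h403

open NumberField nonZeroDivisors IsDedekindDomain

variable {K : Type} [Field K] [NumberField K]

/-- the lifting step for `p ^ m`-th roots -/
lemma root_step' {R : Type*} [CommRing R] {p : ℕ} (hp : p.Prime) (hp2 : p ≠ 2) (m n : ℕ) (u y : R)
    (h1 : (p : R) ∣ y - 1) (h2 : (p : R) ^ (n + 1 + m) ∣ u - y ^ p ^ m) :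
    ∃ y' : R, (p : R) ^ (n + 1) ∣ y' - y ∧ (p : R) ∣ y' - 1 ∧
      (p : R) ^ (n + 2 + m) ∣ u - y' ^ p ^ m := by
  obtain ⟨r, hr⟩ := h2
  obtain ⟨s, hs⟩ := pow_expand hp hp2 y r h1 (show 1 ≤ n + 1 by omega) m
  refine ⟨y + (p : R) ^ (n + 1) * r, ⟨r, by ring⟩, ?_, ?_⟩
  · have : y + (p : R) ^ (n + 1) * r - 1 = (y - 1) + (p : R) * ((p : R) ^ n * r) := by ring
    rw [this]
    exact dvd_add h1 (dvd_mul_right _ _)
  · rw [hs]
    refine ⟨-s, ?_⟩
    have e : n + 2 + m = n + 1 + m + 1 := by ring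
    rw [e]
    linear_combination hr

lemma exists_root_seq {p : ℕ} (hp : p.Prime) (hp2 : p ≠ 2) (m : ℕ) (u : 𝓞 K)
    (hu : (p : 𝓞 K) ^ (m + 1) ∣ u - 1) :
    ∃ y : ℕ → 𝓞 K, ∀ n, (p : 𝓞 K) ∣ y n - 1 ∧ (p : 𝓞 K) ^ (n + 1 + m) ∣ u - y n ^ p ^ m ∧
      (p : 𝓞 K) ^ (n + 1) ∣ y (n + 1) - y n := by
  classical
  have step : ∀ n : ℕ, ∀ y : 𝓞 K, ∃ y' : 𝓞 K,
      ((p : 𝓞 K) ∣ y - 1 ∧ (p : 𝓞 K) ^ (n + 1 + m) ∣ u - y ^ p ^ m) →
      ((p : 𝓞 K) ^ (n + 1) ∣ y' - y ∧ (p : 𝓞 K) ∣ y' - 1 ∧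
        (p : 𝓞 K) ^ (n + 2 + m) ∣ u - y' ^ p ^ m) := by
    intro n y
    by_cases h : (p : 𝓞 K) ∣ y - 1 ∧ (p : 𝓞 K) ^ (n + 1 + m) ∣ u - y ^ p ^ m
    · obtain ⟨y', hy⟩ := root_step' hp hp2 m n _ y h.1 h.2
      exact ⟨y', fun _ => hy⟩
    · exact ⟨0, fun h' => absurd h' h⟩
  choose f hf using step
  set y : ℕ → 𝓞 K := fun n => Nat.rec 1 (fun n yn => f n yn) n with hy
  have hy0 : y 0 = 1 := rfl
  have hys : ∀ n, y (n + 1) = f n (y n) := fun n => rfl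
  have hall : ∀ n, (p : 𝓞 K) ∣ y n - 1 ∧ (p : 𝓞 K) ^ (n + 1 + m) ∣ u - y n ^ p ^ m := by
    intro n
    induction n with
    | zero =>
      rw [hy0]
      refine ⟨by simp, ?_⟩
      rw [one_pow]
      have e : 0 + 1 + m = m + 1 := by ring
      rw [e]
      exact hu
    | succ n ih =>
      have := hf n (y n) ih
      rw [← hys] at this
      exact ⟨this.2.1, by
        have e : n + 1 + 1 + m = n + 2 + m := by ring
        rw [e]; exact this.2.2⟩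
  refine ⟨y, fun n => ⟨(hall n).1, (hall n).2, ?_⟩⟩
  have := hf n (y n) (hall n)
  rw [← hys] at this
  exact this.1

lemma cl_congr (p n : ℕ) {α β : 𝓞 K} (h : α = β) (hα : α ≠ 0) (hβ : β ≠ 0)
    (h1α : (p : 𝓞 K) ∣ α - 1) (h1β : (p : 𝓞 K) ∣ β - 1) :
    cl p n α hα h1α = cl p n β hβ h1β := by
  subst h
  rfl

/-- components of elements of the inverse limit: equality at a level implies equality below -/
lemma eq_of_eq {p : ℕ} {x z : ∀ n : ℕ, RayClassGroup K p (n + 1)} (hx : x ∈ limRay K p)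
    (hz : z ∈ limRay K p) {a b : ℕ} (hab : a ≤ b) (h : x b = z b) : x a = z a := by
  induction b, hab using Nat.le_induction with
  | base => exact h
  | succ b _ ih =>
    apply ih
    rw [← hx b, ← hz b, h]

lemma u_pow_nat {p : ℕ} (hp : p.Prime) {u : (𝓞 K)ˣ} (hu : (p : 𝓞 K) ∣ (u : 𝓞 K) - 1) (n : ℕ)
    (j : ℤ) : ∃ i : ℕ, i ≠ 0 ∧
      (p : 𝓞 K) ^ (n + 1) ∣ ((u ^ j : (𝓞 K)ˣ) : 𝓞 K) - (u : 𝓞 K) ^ i := by
  have hq : (p : 𝓞 K) ^ (n + 1) ∣ (u : 𝓞 K) ^ p ^ n - 1 := by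
    have := dvd_sub_pow_of_dvd_sub hu n
    rwa [one_pow] at this
  -- add a multiple of `p ^ n`
  obtain ⟨M, hM⟩ : ∃ M : ℕ, 0 < j + (p : ℤ) ^ n * M := by
    refine ⟨j.natAbs + 1, ?_⟩
    have h1 : (1 : ℤ) ≤ (p : ℤ) ^ n := by
      have := Nat.one_le_pow n p hp.pos
      exact_mod_cast this
    have h2 : -|j| ≤ j := neg_abs_le j
    have h3 := mul_le_mul_of_nonneg_right h1 (by positivity : (0 : ℤ) ≤ |j| + 1)
    push_cast
    linarith
  obtain ⟨i, hi⟩ : ∃ i : ℕ, (i : ℤ) = j + (p : ℤ) ^ n * M := ⟨(j + (p : ℤ) ^ n * M).toNat, by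
    rw [Int.toNat_of_nonneg hM.le]⟩
  refine ⟨i, by omega, ?_⟩
  have h3 : (u : 𝓞 K) ^ i = ((u ^ j : (𝓞 K)ˣ) : 𝓞 K) * ((u : 𝓞 K) ^ p ^ n) ^ M := by
    rw [← Units.val_pow_eq_pow_val, ← Units.val_pow_eq_pow_val, ← Units.val_pow_eq_pow_val,
      ← Units.val_mul]
    congr 1
    rw [← zpow_natCast u i, hi, zpow_add, zpow_mul, zpow_natCast]
    congr 2
  rw [h3]
  have h4 := pow_one_cong hq M
  have : ((u ^ j : (𝓞 K)ˣ) : 𝓞 K) - ((u ^ j : (𝓞 K)ˣ) : 𝓞 K) * ((u : 𝓞 K) ^ p ^ n) ^ M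
      = -((u ^ j : (𝓞 K)ˣ) : 𝓞 K) * (((u : 𝓞 K) ^ p ^ n) ^ M - 1) := by ring
  rw [this]
  exact Dvd.dvd.mul_left h4 _

lemma pow_p_dvd {R : Type*} [CommRing R] {p : ℕ} (hp : p.Prime) (hp2 : p ≠ 2) {x : R} {s : ℕ}
    (hs : 1 ≤ s) (h : (p : R) ^ s ∣ x - 1) (k : ℕ) : (p : R) ^ (s + k) ∣ x ^ p ^ k - 1 := by
  obtain ⟨r, hr⟩ := h
  obtain ⟨t, ht⟩ := pow_expand hp hp2 (1 : R) r (by simp) hs k
  have hx : x = 1 + (p : R) ^ s * r := by rw [← hr]; ring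
  rw [hx, ht, one_pow]
  exact ⟨r + p * t, by ring⟩

/-- descending along the inverse limit -/
lemma desc {p : ℕ} {w : ∀ n : ℕ, RayClassGroup K p (n + 1)} (hw : w ∈ limRay K p) {α : 𝓞 K}
    (h0 : α ≠ 0) (h1 : (p : 𝓞 K) ∣ α - 1) (n k : ℕ)
    (h : w (n + k) = cl p (n + k + 1) α h0 h1) : w n = cl p (n + 1) α h0 h1 := by
  induction k with
  | zero => exact h
  | succ k ih =>
    apply ih
    rw [← hw (n + k)]
    have : w (n + k + 1) = cl p (n + k + 1 + 1) α h0 h1 := h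
    rw [this, rayMap_cl]

/-- **Order of `T_p(K)`.** -/
theorem card_TT {p : ℕ} (hp : p.Prime) (hp2 : p ≠ 2) (m : ℕ) (u : (𝓞 K)ˣ)
    (hu1 : (p : 𝓞 K) ^ (m + 1) ∣ (u : 𝓞 K) - 1) (hu2 : ¬ (p : 𝓞 K) ^ (m + 2) ∣ (u : 𝓞 K) - 1)
    (N' : ℕ) (hN' : ¬ p ∣ N') (hgen : ∀ e : (𝓞 K)ˣ, ∃ j : ℤ, e ^ N' = u ^ j)
    (N : ℕ) (hN : ¬ p ∣ N) (hexp : ∀ a : 𝓞 K, IsCoprime a (p : 𝓞 K) → (p : 𝓞 K) ∣ a ^ N - 1)
    (hh : ¬ p ∣ classNumber K) : Nat.card (TT K p) = p ^ m := by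
  classical
  have hp0 : (p : 𝓞 K) ≠ 0 := by exact_mod_cast hp.ne_zero
  obtain ⟨y, hy⟩ := exists_root_seq hp hp2 m (u : 𝓞 K) hu1
  have hy1 := fun n => (hy n).1
  have hy0 : ∀ n, y n ≠ 0 := fun n => ne_zero_of_cong hp (hy1 n)
  set g : ∀ n : ℕ, RayClassGroup K p (n + 1) := fun n => cl p (n + 1) (y n) (hy0 n) (hy1 n)
    with hg
  have hglim : g ∈ limRay K p := by
    intro n
    show rayMap K p (n + 1) (cl p (n + 1 + 1) (y (n + 1)) _ _) = cl p (n + 1) (y n) _ _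
    rw [rayMap_cl, cl_eq_iff]
    exact ⟨1, by simpa using (hy n).2.2⟩
  have hup : (p : 𝓞 K) ∣ (u : 𝓞 K) - 1 := (dvd_pow_self _ (by omega)).trans hu1
  have hEu : Ex p (m + 1) (u : 𝓞 K) := ⟨hu1, hu2⟩
  have hpow1 : ∀ n k, (p : 𝓞 K) ∣ y n ^ k - 1 := by
    intro n k
    have := pow_one_cong (m := 1) (by simpa using hy1 n) k
    simpa using this
  -- units congruent to `1` modulo `p`
  have hunit : ∀ e : (𝓞 K)ˣ, (p : 𝓞 K) ∣ (e : 𝓞 K) - 1 → (p : 𝓞 K) ^ (m + 1) ∣ (e : 𝓞 K) - 1 := by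
    intro e he
    obtain ⟨j, hj⟩ := hgen e
    apply dvd_of_pow hp hN' he
    rw [← Units.val_pow_eq_pow_val, hj]
    obtain ⟨i, hi0, hi⟩ := u_pow_nat hp hup m j
    have h1 := pow_one_cong hu1 i
    have := dvd_add hi h1
    simpa using this
  have hgpm : g ^ p ^ m = 1 := by
    funext n
    rw [Pi.pow_apply, Pi.one_apply]
    show cl p (n + 1) (y n) _ _ ^ p ^ m = 1
    rw [cl_pow p (n + 1) (y n) _ _ (p ^ m) (pow_ne_zero _ (hy0 n)) (hpow1 n _), ← cl_one, cl_eq_iff]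
    refine ⟨u, ?_⟩
    have : y n ^ p ^ m - (u : 𝓞 K) * 1 = -((u : 𝓞 K) - y n ^ p ^ m) := by ring
    rw [this, dvd_neg]
    exact (pow_dvd_pow _ (by omega)).trans (hy n).2.1
  have hord : orderOf g = p ^ m := by
    rcases Nat.eq_zero_or_pos m with hm0 | hmpos
    · subst hm0
      rw [pow_zero] at hgpm ⊢
      rw [pow_one] at hgpm
      rw [hgpm, orderOf_one]
    · obtain ⟨m', rfl⟩ : ∃ m', m = m' + 1 := ⟨m - 1, by omega⟩
      have := Fact.mk hp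
      apply orderOf_eq_prime_pow _ hgpm
      intro hcon
      have h1 : cl p (m' + 1 + 1) (y (m' + 1)) (hy0 _) (hy1 _) ^ p ^ m' = 1 :=
        congrFun hcon (m' + 1)
      rw [cl_pow p _ (y (m' + 1)) _ _ (p ^ m') (pow_ne_zero _ (hy0 _)) (hpow1 _ _), ← cl_one,
        cl_eq_iff] at h1
      obtain ⟨e, he⟩ := h1
      rw [mul_one] at he
      have hE1 : ¬ (p : 𝓞 K) ^ 2 ∣ y (m' + 1) - 1 := by
        intro h2
        apply hu2
        have h3 := pow_p_dvd hp hp2 (by norm_num) h2 (m' + 1)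
        have h4 : (p : 𝓞 K) ^ (m' + 1 + 2) ∣ (u : 𝓞 K) - y (m' + 1) ^ p ^ (m' + 1) :=
          (pow_dvd_pow _ (by omega)).trans (hy (m' + 1)).2.1
        have h5 : (p : 𝓞 K) ^ (m' + 1 + 2) ∣ y (m' + 1) ^ p ^ (m' + 1) - 1 :=
          (pow_dvd_pow _ (by omega)).trans h3
        have := dvd_add h4 h5
        simpa using this
      have hE : Ex p 1 (y (m' + 1)) := ⟨by simpa using hy1 _, by simpa using hE1⟩
      have hE' := hE.pow_p hp hp2 hp0 le_rfl m'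
      have he1 : (p : 𝓞 K) ∣ (e : 𝓞 K) - 1 := by
        have h2 : (p : 𝓞 K) ∣ y (m' + 1) ^ p ^ m' - e := (dvd_pow_self _ (by omega)).trans he
        have := dvd_sub (hpow1 (m' + 1) (p ^ m')) h2
        simpa using this
      have h6 := hunit e he1
      apply hE'.2
      have h7 : (p : 𝓞 K) ^ (1 + m' + 1) ∣ y (m' + 1) ^ p ^ m' - e :=
        (pow_dvd_pow _ (by omega)).trans he
      have h8 : (p : 𝓞 K) ^ (1 + m' + 1) ∣ (e : 𝓞 K) - 1 := (pow_dvd_pow _ (by omega)).trans h6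
      have := dvd_add h7 h8
      simpa using this
  have hgTT : g ∈ TT K p := ⟨hglim, m, hgpm⟩
  have hsurj : ∀ x ∈ TT K p, x ∈ Subgroup.zpowers g := by
    rintro x ⟨hxlim, k0, hk0⟩
    set k := k0 + m with hkdef
    have hk : x ^ p ^ k = 1 := by rw [hkdef, pow_add, pow_mul, hk0, one_pow]
    set L := classNumber K * N * N' with hL
    have hpL : ¬ p ∣ L := by
      intro h
      rcases hp.dvd_mul.mp h with h | h
      · rcases hp.dvd_mul.mp h with h | h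
        · exact hh h
        · exact hN h
      · exact hN' h
    have key : ∀ n, ∃ i, i < p ^ m ∧ (x ^ L) n = (g ^ i) n := by
      intro n
      obtain ⟨a, ha0, ha1, ha⟩ := exists_cl hp hexp (n + k + 1) (x (n + k))
      have hap : ∀ l, (p : 𝓞 K) ∣ a ^ l - 1 := by
        intro l
        have := pow_one_cong (m := 1) (by simpa using ha1) l
        simpa using this
      have h1 : cl p (n + k + 1) a ha0 ha1 ^ p ^ k = 1 := by
        rw [← ha, ← pow_mul, mul_comm, pow_mul]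
        have : x (n + k) ^ p ^ k = 1 := congrFun hk (n + k)
        rw [this, one_pow]
      rw [cl_pow p _ a ha0 ha1 (p ^ k) (pow_ne_zero _ ha0) (hap _), ← cl_one, cl_eq_iff] at h1
      obtain ⟨e, he⟩ := h1
      rw [mul_one] at he
      obtain ⟨j, hj⟩ := hgen e
      obtain ⟨i, hi0, hi⟩ := u_pow_nat hp hup (n + k) j
      have h2 : (p : 𝓞 K) ^ (n + k + 1) ∣ (a ^ p ^ k) ^ N' - (u : 𝓞 K) ^ i := by
        have h3 : (p : 𝓞 K) ^ (n + k + 1) ∣ (a ^ p ^ k) ^ N' - (e : 𝓞 K) ^ N' :=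
          he.trans (sub_dvd_pow_sub_pow _ _ _)
        rw [← Units.val_pow_eq_pow_val e, hj] at h3
        have := dvd_add h3 hi
        simpa using this
      obtain ⟨v, i', hi', hii⟩ := Nat.exists_eq_pow_mul_and_not_dvd hi0 p hp.ne_one
      have hv : k0 ≤ v := by
        by_contra hlt
        push Not at hlt
        have hE1 : Ex p (m + 1) ((u : 𝓞 K) ^ i') := hEu.pow_coprime hp (by omega) hi'
        have hE2 := hE1.pow_p hp hp2 hp0 (by omega) v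
        rw [← pow_mul, mul_comm, ← hii] at hE2
        apply hE2.2
        have h6 : (p : 𝓞 K) ^ (1 + k) ∣ a ^ p ^ k - 1 :=
          pow_p_dvd hp hp2 le_rfl (by simpa using ha1) k
        have h7 := pow_one_cong h6 N'
        have h8 : (p : 𝓞 K) ^ (m + 1 + v + 1) ∣ (a ^ p ^ k) ^ N' - 1 :=
          (pow_dvd_pow _ (by omega)).trans h7
        have h9 : (p : 𝓞 K) ^ (m + 1 + v + 1) ∣ (a ^ p ^ k) ^ N' - (u : 𝓞 K) ^ i :=
          (pow_dvd_pow _ (by omega)).trans h2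
        have := dvd_sub h8 h9
        simpa using this
      obtain ⟨i2, hi2⟩ : p ^ k0 ∣ i := by
        rw [hii]
        exact Dvd.dvd.mul_right (pow_dvd_pow _ hv) _
      have h10 : (p : 𝓞 K) ^ (n + k + 1) ∣ (u : 𝓞 K) ^ i - (y (n + k) ^ i2) ^ p ^ k := by
        have h11 : (p : 𝓞 K) ^ (n + k + 1) ∣ (u : 𝓞 K) - y (n + k) ^ p ^ m :=
          (pow_dvd_pow _ (by omega)).trans (hy (n + k)).2.1
        have h12 := h11.trans (sub_dvd_pow_sub_pow _ _ i)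
        have e1 : (y (n + k) ^ p ^ m) ^ i = (y (n + k) ^ i2) ^ p ^ k := by
          rw [← pow_mul, ← pow_mul]
          congr 1
          rw [hi2, hkdef, pow_add]
          ring
        rwa [e1] at h12
      have h13 : (p : 𝓞 K) ^ (n + 1 + k) ∣ (a ^ N') ^ p ^ k - (y (n + k) ^ i2) ^ p ^ k := by
        have e1 : (a ^ N') ^ p ^ k = (a ^ p ^ k) ^ N' := by
          rw [← pow_mul, ← pow_mul, mul_comm]
        have e2 : n + 1 + k = n + k + 1 := by ring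
        rw [e1, e2]
        have := dvd_add h2 h10
        simpa using this
      have h14 : (p : 𝓞 K) ^ (n + 1) ∣ a ^ N' - y (n + k) ^ i2 :=
        root_cong hp hp2 hp0 (hap _) (hpow1 _ _) h13
      have h15 : (x ^ L) n = cl p (n + 1) (a ^ N') (pow_ne_zero _ ha0) (hap _) := by
        apply desc (pow_mem hxlim L) (pow_ne_zero _ ha0) (hap _) n k
        rw [Pi.pow_apply, hL, pow_mul, ha, cl_pow]
      have h16 : (g ^ i2) n = cl p (n + 1) (y (n + k) ^ i2) (pow_ne_zero _ (hy0 _)) (hpow1 _ _) := by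
        apply desc (pow_mem hglim i2) (pow_ne_zero _ (hy0 _)) (hpow1 _ _) n k
        rw [Pi.pow_apply]
        show cl p (n + k + 1) (y (n + k)) _ _ ^ i2 = _
        rw [cl_pow]
      refine ⟨i2 % p ^ m, Nat.mod_lt _ (pow_pos hp.pos _), ?_⟩
      have h17 : g ^ (i2 % p ^ m) = g ^ i2 := by
        rw [← hord]
        exact pow_mod_orderOf g i2
      rw [h17, h15, h16, cl_eq_iff]
      exact ⟨1, by simpa using h14⟩
    choose i hi1 hi2 using key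
    obtain ⟨c, hc⟩ := Finite.exists_infinite_fiber (fun n => (⟨i n, hi1 n⟩ : Fin (p ^ m)))
    have hxg : x ^ L = g ^ (c : ℕ) := by
      funext n
      obtain ⟨n', hn', hnn⟩ := (Set.infinite_coe_iff.mp hc).exists_gt n
      have h18 : i n' = (c : ℕ) := by
        have : (⟨i n', hi1 n'⟩ : Fin (p ^ m)) = c := hn'
        rw [← this]
      apply eq_of_eq (pow_mem hxlim L) (pow_mem hglim _) hnn.le
      rw [← h18]
      exact hi2 n'
    have hcop : IsCoprime (L : ℤ) ((p ^ k : ℕ) : ℤ) := by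
      rw [Nat.isCoprime_iff_coprime]
      exact Nat.Coprime.pow_right _ (Nat.Coprime.symm ((Nat.Prime.coprime_iff_not_dvd hp).mpr hpL))
    obtain ⟨a, b, hab⟩ := hcop
    have : x = (x ^ L) ^ a := by
      calc x = x ^ (a * (L : ℤ) + b * ((p ^ k : ℕ) : ℤ)) := by rw [hab, zpow_one]
        _ = (x ^ L) ^ a * (x ^ p ^ k) ^ b := by
            rw [zpow_add, mul_comm a, mul_comm b, zpow_mul, zpow_mul, zpow_natCast, zpow_natCast]
        _ = _ := by rw [hk, one_zpow, mul_one]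
    rw [this, hxg]
    exact zpow_mem (pow_mem (Subgroup.mem_zpowers g) _) _
  have hTT : TT K p = Subgroup.zpowers g := by
    apply le_antisymm
    · exact hsurj
    · rw [Subgroup.zpowers_le]
      exact hgTT
  rw [hTT, Nat.card_zpowers, hord]

end Run7.h403
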