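import Pool.Agent.Run7.h403.Expo

/-!
# Powers of ray classes are classes of principal ideals
-/

set_option autoImplicit false

namespace Run7.h403

open NumberField nonZeroDivisors IsDedekindDomain

variable {K : Type} [Field K] [NumberField K]

lemma cl_mul (p n : ℕ) (α β : 𝓞 K) (hα : α ≠ 0) (hβ : β ≠ 0) (h1α : (p : 𝓞 K) ∣ α - 1)
    (h1β : (p : 𝓞 K) ∣ β - 1) (h : α * β ≠ 0) (h1 : (p : 𝓞 K) ∣ α * β - 1) :
    cl p n α hα h1α * cl p n β hβ h1β = cl p n (α * β) h h1 := by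
  have : (⟨pr (α * β) h, pr_mem p (α * β) h h1⟩ : idealsPrimeTo K p)
      = (⟨pr α hα, pr_mem p α hα h1α⟩ : idealsPrimeTo K p) * ⟨pr β hβ, pr_mem p β hβ h1β⟩ := by
    apply Subtype.ext
    rw [Subgroup.coe_mul]
    simp only [pr]
    rw [← map_mul]
    congr 1
    ext
    simp
  rw [cl, cl, cl, this]
  rfl

lemma cl_one (p n : ℕ) : cl p n (1 : 𝓞 K) one_ne_zero (by simp) = 1 := by
  have h2 := cl_pow (K := K) p n 1 one_ne_zero (by simp) 0 (by simp) (by simp)
  rw [pow_zero] at h2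
  rw [h2]
  congr 1
  simp

lemma le_one_of_count {J : FractionalIdeal (𝓞 K)⁰ K} (hJ : J ≠ 0)
    (h : ∀ v : HeightOneSpectrum (𝓞 K), 0 ≤ FractionalIdeal.count K v J) : J ≤ 1 := by
  rw [← FractionalIdeal.finprod_heightOneSpectrum_factorization' K hJ]
  apply finprod_induction (fun x : FractionalIdeal (𝓞 K)⁰ K => x ≤ 1)
  · exact le_rfl
  · intro x y hx hy
    exact mul_le_one' hx hy
  · intro v
    obtain ⟨k, hk⟩ := Int.eq_ofNat_of_zero_le (h v)
    rw [hk]
    simp only [zpow_natCast]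
    exact pow_le_one' FractionalIdeal.coeIdeal_le_one k

lemma count_nonneg_of_le_one {J : FractionalIdeal (𝓞 K)⁰ K} (h : J ≤ 1)
    (v : HeightOneSpectrum (𝓞 K)) : 0 ≤ FractionalIdeal.count K v J := by
  obtain ⟨I, hI⟩ := FractionalIdeal.le_one_iff_exists_coeIdeal.mp h
  rw [← hI]
  exact FractionalIdeal.count_coe_nonneg K v I

lemma count_span_zero {a : 𝓞 K} {v : HeightOneSpectrum (𝓞 K)} :
    (a ≠ 0 ∧ FractionalIdeal.count K v (FractionalIdeal.spanSingleton (𝓞 K)⁰ (a : K)) = 0) ↔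
      a ∉ v.asIdeal := by
  classical
  by_cases ha0 : a = 0
  · simp [ha0]
  have hne : (Ideal.span {a} : Ideal (𝓞 K)) ≠ 0 := by
    simpa [Ideal.span_singleton_eq_bot] using ha0
  have e : FractionalIdeal.spanSingleton (𝓞 K)⁰ (a : K)
      = ((Ideal.span {a} : Ideal (𝓞 K)) : FractionalIdeal (𝓞 K)⁰ K) := by
    rw [FractionalIdeal.coeIdeal_span_singleton]
  rw [e, FractionalIdeal.count_coe K v hne]
  have h2 := Associates.count_ne_zero_iff_dvd hne v.irreducible
  rw [Ideal.dvd_span_singleton] at h2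
  constructor
  · rintro ⟨_, h3⟩ h4
    exact (h2.mpr h4) (by exact_mod_cast h3)
  · intro h3
    refine ⟨ha0, ?_⟩
    by_contra h4
    exact h3 (h2.mp (by exact_mod_cast h4))

lemma coprime_of_not_mem {p : ℕ} (hp : p.Prime) {a : 𝓞 K}
    (h : ∀ v : HeightOneSpectrum (𝓞 K), (p : 𝓞 K) ∈ v.asIdeal → a ∉ v.asIdeal) :
    IsCoprime a (p : 𝓞 K) := by
  rw [← Ideal.isCoprime_span_singleton_iff, Ideal.isCoprime_iff_sup_eq]
  by_contra hcon
  obtain ⟨P, hP, hle⟩ := Ideal.exists_le_maximal _ hcon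
  have h1 : a ∈ P := hle (Ideal.mem_sup_left (Ideal.mem_span_singleton_self a))
  have h2 : (p : 𝓞 K) ∈ P := hle (Ideal.mem_sup_right (Ideal.mem_span_singleton_self _))
  have hPne : P ≠ ⊥ := by
    rintro rfl
    rw [Ideal.mem_bot] at h2
    exact hp.ne_zero (by exact_mod_cast h2)
  exact h ⟨P, hP.isPrime, hPne⟩ h2 h1

/-- a power of a fractional ideal prime to `p` is a quotient of principal ideals prime to `p` -/
lemma exists_frac {p : ℕ} (hp : p.Prime) (J : (FractionalIdeal (𝓞 K)⁰ K)ˣ)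
    (hJ : J ∈ idealsPrimeTo K p) :
    ∃ (a : 𝓞 K) (b : ℕ), IsCoprime a (p : 𝓞 K) ∧ ¬ p ∣ b ∧ a ≠ 0 ∧
      (J : FractionalIdeal (𝓞 K)⁰ K) ^ classNumber K *
        FractionalIdeal.spanSingleton (𝓞 K)⁰ (b : K) =
        FractionalIdeal.spanSingleton (𝓞 K)⁰ (a : K) := by
  classical
  obtain ⟨c, I, hc, hI⟩ := FractionalIdeal.exists_eq_spanSingleton_mul
    (J : FractionalIdeal (𝓞 K)⁰ K)
  have hcK : (c : K) ≠ 0 := by simpa using hc
  set m : ℕ := Ideal.absNorm (Ideal.span {c}) with hm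
  have hm0 : m ≠ 0 := by
    rw [hm, Ne, Ideal.absNorm_eq_zero_iff, Ideal.span_singleton_eq_bot]
    exact hc
  obtain ⟨s, m', hm', hmm'⟩ := Nat.exists_eq_pow_mul_and_not_dvd hm0 p hp.ne_one
  have hm'0 : m' ≠ 0 := by
    rintro rfl
    exact hm' (dvd_zero p)
  have hcm : c ∣ (m : 𝓞 K) := by
    rw [← Ideal.mem_span_singleton]
    exact Ideal.absNorm_mem _
  obtain ⟨q, hq⟩ := hcm
  have hspan : ∀ x y : K, FractionalIdeal.spanSingleton (𝓞 K)⁰ (x * y) =
      FractionalIdeal.spanSingleton (𝓞 K)⁰ x * FractionalIdeal.spanSingleton (𝓞 K)⁰ y :=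
    fun x y => (FractionalIdeal.spanSingleton_mul_spanSingleton x y).symm
  have hJm : (J : FractionalIdeal (𝓞 K)⁰ K) * FractionalIdeal.spanSingleton (𝓞 K)⁰ (m : K) ≤ 1 := by
    rw [FractionalIdeal.le_one_iff_exists_coeIdeal]
    refine ⟨Ideal.span {q} * I, ?_⟩
    rw [FractionalIdeal.coeIdeal_mul, FractionalIdeal.coeIdeal_span_singleton, hI]
    have e : (m : K) = (c : K) * (q : K) := by
      have := congrArg (algebraMap (𝓞 K) K) hq
      simpa using this
    rw [e, hspan]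
    have e2 : FractionalIdeal.spanSingleton (𝓞 K)⁰ ((algebraMap (𝓞 K) K) c)⁻¹ *
        FractionalIdeal.spanSingleton (𝓞 K)⁰ (c : K) = 1 := by
      rw [FractionalIdeal.spanSingleton_mul_spanSingleton, inv_mul_cancel₀ hcK,
        FractionalIdeal.spanSingleton_one]
    calc FractionalIdeal.spanSingleton (𝓞 K)⁰ ((algebraMap (𝓞 K) K) q) * ↑I
        = (FractionalIdeal.spanSingleton (𝓞 K)⁰ ((algebraMap (𝓞 K) K) c)⁻¹ *
        FractionalIdeal.spanSingleton (𝓞 K)⁰ (c : K)) *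
          (FractionalIdeal.spanSingleton (𝓞 K)⁰ ((algebraMap (𝓞 K) K) q) * ↑I) := by
          rw [e2, one_mul]
      _ = _ := by ring
  set F : FractionalIdeal (𝓞 K)⁰ K :=
    (J : FractionalIdeal (𝓞 K)⁰ K) * FractionalIdeal.spanSingleton (𝓞 K)⁰ (m' : K) with hF
  have hm'K : (m' : K) ≠ 0 := by exact_mod_cast hm'0
  have hpK : (p : K) ≠ 0 := by exact_mod_cast hp.ne_zero
  have hm's : FractionalIdeal.spanSingleton (𝓞 K)⁰ (m' : K) ≠ 0 :=
    FractionalIdeal.spanSingleton_ne_zero_iff.mpr hm'K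
  have hF0 : F ≠ 0 := mul_ne_zero J.ne_zero hm's
  have hm'v : ∀ v : HeightOneSpectrum (𝓞 K), (p : 𝓞 K) ∈ v.asIdeal →
      FractionalIdeal.count K v (FractionalIdeal.spanSingleton (𝓞 K)⁰ (m' : K)) = 0 := by
    intro v hv
    have h1 : (m' : 𝓞 K) ∉ v.asIdeal := by
      intro h2
      have h3 : IsCoprime (m' : ℤ) (p : ℤ) := by
        rw [Nat.isCoprime_iff_coprime]
        exact Nat.Coprime.symm ((Nat.Prime.coprime_iff_not_dvd hp).mpr hm')
      have h4 := h3.map (Int.castRingHom (𝓞 K))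
      obtain ⟨x, y, hxy⟩ := h4
      apply v.isPrime.ne_top
      rw [Ideal.eq_top_iff_one, ← hxy]
      apply Ideal.add_mem
      · apply Ideal.mul_mem_left; simpa using h2
      · apply Ideal.mul_mem_left; simpa using hv
    have h5 := (count_span_zero (a := (m' : 𝓞 K)) (v := v)).mpr h1
    simpa using h5.2
  have hcount : ∀ v : HeightOneSpectrum (𝓞 K), (p : 𝓞 K) ∈ v.asIdeal →
      FractionalIdeal.count K v F = 0 := by
    intro v hv
    rw [hF, FractionalIdeal.count_mul K v J.ne_zero hm's, hm'v v hv, hJ v hv, add_zero]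
  have hF1 : F ≤ 1 := by
    apply le_one_of_count hF0
    intro v
    by_cases hv : (p : 𝓞 K) ∈ v.asIdeal
    · exact (hcount v hv).ge
    · have h1 := count_nonneg_of_le_one hJm v
      have e : (m : K) = (p : K) ^ s * (m' : K) := by rw [hmm']; push_cast; rfl
      have hps : FractionalIdeal.spanSingleton (𝓞 K)⁰ ((p : K) ^ s) ≠ 0 :=
        FractionalIdeal.spanSingleton_ne_zero_iff.mpr (pow_ne_zero _ hpK)
      have h2 : FractionalIdeal.count K v (FractionalIdeal.spanSingleton (𝓞 K)⁰ ((p : K) ^ s))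
          = 0 := by
        rw [← FractionalIdeal.spanSingleton_pow, FractionalIdeal.count_pow]
        have h3 := (count_span_zero (a := (p : 𝓞 K)) (v := v)).mpr hv
        have h4 : FractionalIdeal.count K v (FractionalIdeal.spanSingleton (𝓞 K)⁰ (p : K)) = 0 := by
          simpa using h3.2
        rw [h4, mul_zero]
      rw [e, hspan, mul_left_comm, FractionalIdeal.count_mul K v hps hF0, h2, zero_add] at h1
      exact h1
  obtain ⟨I', hI'⟩ := FractionalIdeal.le_one_iff_exists_coeIdeal.mp hF1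
  have hI'0 : I' ≠ 0 := by
    rintro rfl
    apply hF0
    rw [← hI']
    simp
  have hprin : (I' ^ classNumber K).IsPrincipal := by
    have h1 : (ClassGroup.mk0 (⟨I', mem_nonZeroDivisors_of_ne_zero hI'0⟩ : (Ideal (𝓞 K))⁰))
        ^ classNumber K = 1 := by
      rw [classNumber]
      exact pow_card_eq_one
    rw [← map_pow] at h1
    have h2 := (ClassGroup.mk0_eq_one_iff (I := I' ^ classNumber K)
      (mem_nonZeroDivisors_of_ne_zero (pow_ne_zero _ hI'0))).mp (by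
        rw [← h1]; rfl)
    exact h2
  obtain ⟨a, ha⟩ := hprin
  have ha' : I' ^ classNumber K = Ideal.span {a} := ha
  have ha0 : a ≠ 0 := by
    rintro rfl
    have : I' ^ classNumber K = 0 := by rw [ha']; simp
    exact pow_ne_zero _ hI'0 this
  have hFa : F ^ classNumber K = FractionalIdeal.spanSingleton (𝓞 K)⁰ (a : K) := by
    rw [← hI', ← FractionalIdeal.coeIdeal_pow, ha', FractionalIdeal.coeIdeal_span_singleton]
  refine ⟨a, m' ^ classNumber K, ?_, ?_, ha0, ?_⟩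
  · apply coprime_of_not_mem hp
    intro v hv
    rw [← count_span_zero]
    refine ⟨ha0, ?_⟩
    rw [← hFa, FractionalIdeal.count_pow, hcount v hv, mul_zero]
  · intro h
    exact hm' (hp.dvd_of_dvd_pow h)
  · rw [← hFa, hF, mul_pow, FractionalIdeal.spanSingleton_pow]
    push_cast
    rfl

/-- a prime to `p` power of a ray class is the class of an integer congruent to `1` -/
lemma exists_cl {p : ℕ} (hp : p.Prime) {N : ℕ} (hN : ∀ a : 𝓞 K, IsCoprime a (p : 𝓞 K) →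
    (p : 𝓞 K) ∣ a ^ N - 1) (n : ℕ) (x : RayClassGroup K p n) :
    ∃ (a : 𝓞 K) (h0 : a ≠ 0) (h1 : (p : 𝓞 K) ∣ a - 1),
      x ^ (classNumber K * N) = cl p n a h0 h1 := by
  obtain ⟨⟨J, hJ⟩, hx⟩ : ∃ J : idealsPrimeTo K p, (QuotientGroup.mk J :
    (idealsPrimeTo K p) ⧸ (ray K p n).subgroupOf (idealsPrimeTo K p)) = x :=
    QuotientGroup.mk_surjective x
  obtain ⟨a, b, hap, hbp, ha0, hab⟩ := exists_frac hp J hJ
  have hbc : IsCoprime (b : 𝓞 K) (p : 𝓞 K) := by
    have h3 : IsCoprime (b : ℤ) (p : ℤ) := by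
      rw [Nat.isCoprime_iff_coprime]
      exact Nat.Coprime.symm ((Nat.Prime.coprime_iff_not_dvd hp).mpr hbp)
    have h4 := h3.map (Int.castRingHom (𝓞 K))
    simpa using h4
  have ha1 := hN a hap
  have hb1 := hN (b : 𝓞 K) hbc
  have hb0 : (b : 𝓞 K) ≠ 0 := by
    intro h
    apply hbp
    have : b = 0 := by exact_mod_cast h
    rw [this]
    exact dvd_zero p
  have haN := pow_ne_zero N ha0
  have hbN := pow_ne_zero N hb0
  -- the relation
  have hrel : x ^ (classNumber K * N) * cl p n ((b : 𝓞 K) ^ N) hbN hb1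
      = cl p n (a ^ N) haN ha1 := by
    have e : (⟨J, hJ⟩ : idealsPrimeTo K p) ^ (classNumber K * N) *
        ⟨pr ((b : 𝓞 K) ^ N) hbN, pr_mem p _ hbN hb1⟩ = ⟨pr (a ^ N) haN, pr_mem p _ haN ha1⟩ := by
      apply Subtype.ext
      apply Units.ext
      rw [Subgroup.coe_mul, SubmonoidClass.coe_pow, Units.val_mul, Units.val_pow_eq_pow_val,
        coe_pr, coe_pr]
      push_cast
      rw [← FractionalIdeal.spanSingleton_pow, ← FractionalIdeal.spanSingleton_pow, pow_mul,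
        ← mul_pow, ← hab]
    rw [← hx, cl, cl, ← e]
    rfl
  -- the inverse
  set β : 𝓞 K := (b : 𝓞 K) ^ N with hβ
  have hβpow : (p : 𝓞 K) ∣ β ^ (p ^ n - 1) - 1 := by
    have := pow_one_cong (m := 1) (by simpa using hb1) (p ^ n - 1)
    simpa using this
  have hβ0 : β ^ (p ^ n - 1) ≠ 0 := pow_ne_zero _ hbN
  have hprod : (p : 𝓞 K) ∣ a ^ N * β ^ (p ^ n - 1) - 1 := by
    have e : a ^ N * β ^ (p ^ n - 1) - 1
      = (a ^ N - 1) * β ^ (p ^ n - 1) + (β ^ (p ^ n - 1) - 1) := by ring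
    rw [e]
    exact dvd_add (Dvd.dvd.mul_right ha1 _) hβpow
  refine ⟨a ^ N * β ^ (p ^ n - 1), mul_ne_zero haN hβ0, hprod, ?_⟩
  rw [← cl_mul p n (a ^ N) (β ^ (p ^ n - 1)) haN hβ0 ha1 hβpow, ← hrel, mul_assoc,
    ← cl_pow p n β hbN hb1 (p ^ n - 1) hβ0 hβpow, ← pow_succ']
  have hpn : p ^ n - 1 + 1 = p ^ n := Nat.sub_add_cancel (Nat.one_le_pow _ _ hp.pos)
  have hβq : (p : 𝓞 K) ^ (n + 1) ∣ β ^ p ^ n - 1 := by
    have := dvd_sub_pow_of_dvd_sub hb1 n
    rwa [one_pow] at this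
  rw [hpn, cl_pow p n β hbN hb1 (p ^ n) (pow_ne_zero _ hbN)
    ((dvd_pow_self _ n.succ_ne_zero).trans hβq)]
  have : cl p n (β ^ p ^ n) (pow_ne_zero _ hbN) ((dvd_pow_self _ n.succ_ne_zero).trans hβq) = 1 := by
    rw [← cl_one, cl_eq_iff]
    refine ⟨1, ?_⟩
    rw [Units.val_one, one_mul]
    exact (pow_dvd_pow _ n.le_succ).trans hβq
  rw [this, mul_one]

end Run7.h403
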