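import Pool.Agent.Run7.h403.Exc

/-!
# Simultaneous exceptional primes
-/

set_option autoImplicit false

namespace Run7.h403.Simul

open Finset Run7.h403.Local Run7.h403.Exc NumberField

lemma key (Q : ℕ) (hQ : 6 ≤ Q) : ∃ m : ℕ, 1 ≤ m ∧ m ≤ Q ^ 12 ∧
    ∀ p : ℕ, p.Prime → p ≠ 2 → ∀ s : ℤ, 3 ≤ s → ((2 + Q ^ 4 * m : ℕ) : ℤ) ≠ V p s := by
  classical
  by_contra hcon
  push Not at hcon
  set X : ℕ := Q ^ 16 + 3 with hX
  set PE : Finset ℕ := (range X).filter (fun t : ℕ => ∃ p : ℕ, p.Prime ∧ p ≠ 2 ∧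
    ∃ s : ℤ, 3 ≤ s ∧ (t : ℤ) = V p s) with hPE
  have h1 : Q ^ 12 ≤ PE.card := by
    have : (Icc 1 (Q ^ 12)).card = Q ^ 12 := by simp
    rw [← this]
    apply card_le_card_of_injOn (fun m => 2 + Q ^ 4 * m)
    · intro m hm
      rw [mem_coe, mem_Icc] at hm
      obtain ⟨p, hp, hp2, s, hs, hts⟩ := hcon m hm.1 hm.2
      rw [mem_coe, hPE, mem_filter, mem_range]
      refine ⟨?_, p, hp, hp2, s, hs, hts⟩
      have : Q ^ 4 * m ≤ Q ^ 4 * Q ^ 12 := Nat.mul_le_mul_left _ hm.2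
      have h2 : Q ^ 4 * Q ^ 12 = Q ^ 16 := by rw [← pow_add]
      show 2 + Q ^ 4 * m < X
      rw [hX]
      omega
    · intro a _ b _ hab
      have h3 : 2 + Q ^ 4 * a = 2 + Q ^ 4 * b := hab
      have h4 : Q ^ 4 * a = Q ^ 4 * b := by omega
      exact Nat.eq_of_mul_eq_mul_left (by positivity) h4
  have h2 := card_PE X
  rw [← hPE] at h2
  have h3 : Nat.log 2 X + 1 ≤ 17 * Q := by
    have h4 : X < 2 ^ (17 * Q) := by
      calc X ≤ Q ^ 17 := by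
            rw [hX, pow_succ Q 16]
            have : 1 ≤ Q ^ 16 := Nat.one_le_pow _ _ (by omega)
            nlinarith
        _ < (2 ^ Q) ^ 17 := Nat.pow_lt_pow_left Nat.lt_two_pow_self (by norm_num)
        _ = _ := by rw [← pow_mul, mul_comm]
    have := Nat.log_lt_of_lt_pow (by rw [hX]; omega) h4
    omega
  have h4 : Nat.sqrt X + 2 ≤ 2 * Q ^ 8 := by
    have h5 : 3 ≤ Q ^ 8 := by
      calc 3 ≤ 6 ^ 8 := by norm_num
        _ ≤ Q ^ 8 := Nat.pow_le_pow_left hQ 8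
    have h6 : Nat.sqrt X < Q ^ 8 + 1 := by
      rw [Nat.sqrt_lt']
      rw [hX]
      nlinarith
    omega
  have h5 : (Nat.log 2 X + 1) * (Nat.sqrt X + 2) ≤ 34 * Q ^ 9 := by
    calc (Nat.log 2 X + 1) * (Nat.sqrt X + 2) ≤ (17 * Q) * (2 * Q ^ 8) := Nat.mul_le_mul h3 h4
      _ = _ := by ring
  have h6 : 34 * Q ^ 9 < Q ^ 12 := by
    have h7 : 34 < Q ^ 3 := by
      calc 34 < 6 ^ 3 := by norm_num
        _ ≤ Q ^ 3 := Nat.pow_le_pow_left hQ 3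
    calc 34 * Q ^ 9 < Q ^ 3 * Q ^ 9 := Nat.mul_lt_mul_of_pos_right h7 (by positivity)
      _ = _ := by ring
  omega

/-- `ε ≡ 1 mod Q ^ 2` if `t = 2 + Q ^ 4 m` -/
lemma cong {K : Type} [Field K] [NumberField K] {Q m : ℕ} {ε : K}
    (hε : ε ^ 2 - ((((2 + Q ^ 4 * m : ℕ) : ℤ)) : K) * ε + 1 = 0) :
    (Q : 𝓞 K) ^ 2 ∣ ((Quad.unitOf hε : (𝓞 K)ˣ) : 𝓞 K) - 1 := by
  have h1 : ((Q : 𝓞 K) ^ 2) ^ 2 ∣ (((Quad.unitOf hε : (𝓞 K)ˣ) : 𝓞 K) - 1) ^ 2 := by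
    refine ⟨m * ((Quad.unitOf hε : (𝓞 K)ˣ) : 𝓞 K), ?_⟩
    have := Quad.unit_eq hε
    push_cast at this
    linear_combination this
  exact (IsIntegrallyClosed.pow_dvd_pow_iff two_ne_zero).mp h1

theorem main : ∃ C : ℝ, ∀ y : ℕ, 3 ≤ y → ∃ D : ℕ, (D : ℝ) ≤ Real.exp (C * y) ∧ ¬ IsSquare D ∧
    ∀ (K : Type) [Field K] [NumberField K], Module.finrank ℚ K = 2 →
      (∃ α : K, α ^ 2 = D) → ∀ p : ℕ, p.Prime → p ≠ 2 → p ≤ y → TT K p ≠ ⊥ := by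
  refine ⟨34 * Real.log 4, fun y hy => ?_⟩
  set Q : ℕ := primorial y with hQ
  have hdvd : ∀ p : ℕ, p.Prime → p ≤ y → p ∣ Q := by
    intro p hp hpy
    rw [hQ, primorial]
    apply dvd_prod_of_mem
    rw [mem_filter, mem_range]
    exact ⟨by omega, hp⟩
  have hQpos : 0 < Q := primorial_pos y
  have hQ6 : 6 ≤ Q := by
    have h2 := hdvd 2 Nat.prime_two (by omega)
    have h3 := hdvd 3 Nat.prime_three (by omega)
    have : 6 ∣ Q := (Nat.Coprime.mul_dvd_of_dvd_of_dvd (by norm_num) h2 h3 : 2 * 3 ∣ Q)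
    exact Nat.le_of_dvd hQpos this
  obtain ⟨m, hm1, hm2, hm⟩ := key Q hQ6
  set t : ℕ := 2 + Q ^ 4 * m with ht
  have ht3 : 3 ≤ t := by
    have : 1 ≤ Q ^ 4 * m := Nat.one_le_iff_ne_zero.mpr (by positivity)
    omega
  have h4 : 4 ≤ t ^ 2 := by nlinarith
  refine ⟨t ^ 2 - 4, ?_, ?_, ?_⟩
  · have h5 : t ≤ Q ^ 17 := by
      have h6 : Q ^ 4 * m ≤ Q ^ 16 := by
        calc Q ^ 4 * m ≤ Q ^ 4 * Q ^ 12 := Nat.mul_le_mul_left _ hm2
          _ = _ := by rw [← pow_add]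
      have : 1 ≤ Q ^ 16 := Nat.one_le_pow _ _ (by omega)
      have h7 : Q ^ 17 = Q ^ 16 * Q := pow_succ Q 16
      nlinarith
    have h6 : t ^ 2 - 4 ≤ Q ^ 34 := by
      calc t ^ 2 - 4 ≤ t ^ 2 := Nat.sub_le _ _
        _ ≤ (Q ^ 17) ^ 2 := Nat.pow_le_pow_left h5 2
        _ = _ := by rw [← pow_mul]
    have h7 : Q ^ 34 ≤ (4 ^ y) ^ 34 := Nat.pow_le_pow_left (primorial_le_four_pow y) 34
    have h8 : Real.exp (34 * Real.log 4 * y) = (((4 ^ y) ^ 34 : ℕ) : ℝ) := by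
      push_cast
      rw [← pow_mul, ← Real.exp_log (show (0 : ℝ) < 4 by norm_num), ← Real.exp_nat_mul,
        Real.exp_log (show (0 : ℝ) < 4 by norm_num)]
      congr 1
      push_cast
      ring
    rw [h8]
    exact_mod_cast h6.trans h7
  · rintro ⟨r, hr⟩
    have h5 : r * r + 4 = t ^ 2 := by omega
    have h6 : r < t := by nlinarith
    have h7 : r ≤ t - 1 := by omega
    have h8 : r * r ≤ (t - 1) * (t - 1) := Nat.mul_le_mul h7 h7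
    obtain ⟨u, hu⟩ : ∃ u, t = u + 1 := ⟨t - 1, by omega⟩
    rw [hu] at h5 h8
    simp only [Nat.add_sub_cancel] at h8
    nlinarith
  · intro K _ _ h2K ⟨α, hα⟩ p hp hp2 hpy
    set ε : K := ((t : K) + α) / 2 with hε
    have hcast : ((t ^ 2 - 4 : ℕ) : K) = (t : K) ^ 2 - 4 := by
      rw [Nat.cast_sub h4]; push_cast; ring
    rw [hcast] at hα
    have hε1 : ε ^ 2 - ((((2 + Q ^ 4 * m : ℕ) : ℤ)) : K) * ε + 1 = 0 := by
      rw [← ht, hε]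
      push_cast
      field_simp
      linear_combination hα
    refine exc_of_cong h2K (t := ((2 + Q ^ 4 * m : ℕ) : ℤ)) (by exact_mod_cast ht3) hε1 hp hp2
      (hm p hp hp2) 1 (by rw [Nat.dvd_one]; exact hp.one_lt.ne') ?_
    rw [pow_one]
    have h5 := cong hε1
    have h6 : (p : 𝓞 K) ∣ (Q : 𝓞 K) := by
      obtain ⟨c, hc⟩ := hdvd p hp hpy
      exact ⟨c, by rw [hc]; push_cast; rfl⟩
    exact (pow_dvd_pow_of_dvd h6 2).trans h5

end Run7.h403.Simul
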